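import Pool.Agent.H752.GE.Base
import Pool.Agent.H620R2.Gauge.S

/-!
# Task N10: the number of coded positions for `NE`
-/

namespace Pool.Agent.H752.GE

open Pool.Agent.NPC Finset Pool.Agent.H620R2.Gauge

namespace N10

theorem poly_le (q : Polynomial ℕ) (z : ℕ) (hz : 1 ≤ z) :
    q.eval z ≤ q.eval 1 * z ^ q.natDegree := by
  rw [Polynomial.eval_eq_sum_range, Polynomial.eval_eq_sum_range, Finset.sum_mul]
  refine Finset.sum_le_sum fun i hi => ?_
  rw [one_pow, mul_one]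
  refine Nat.mul_le_mul le_rfl (Nat.pow_le_pow_right hz ?_)
  have := Finset.mem_range.1 hi
  omega

theorem bound (q : Polynomial ℕ) (c : ℕ) : ∃ C : ℕ, ∀ m : ℕ,
    q.eval (2 * 2 ^ (c * (m + 1)) + 1 + m) ≤ 2 ^ (C * (m + 1)) := by
  refine ⟨q.eval 1 + (c + 2) * q.natDegree, fun m => ?_⟩
  have h1 : 1 + m ≤ 2 ^ (m + 1) := by
    have : m + 1 < 2 ^ (m + 1) := Nat.lt_two_pow_self
    omega
  have h2 : 2 * 2 ^ (c * (m + 1)) ≤ 2 ^ ((c + 1) * (m + 1)) := by
    rw [← pow_succ']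
    refine Nat.pow_le_pow_right (by norm_num) ?_
    nlinarith
  have h3 : 2 ^ (m + 1) ≤ 2 ^ ((c + 1) * (m + 1)) := by
    refine Nat.pow_le_pow_right (by norm_num) ?_
    nlinarith
  have h4 : 2 * 2 ^ ((c + 1) * (m + 1)) ≤ 2 ^ ((c + 2) * (m + 1)) := by
    rw [← pow_succ']
    refine Nat.pow_le_pow_right (by norm_num) ?_
    nlinarith
  have hz : 2 * 2 ^ (c * (m + 1)) + 1 + m ≤ 2 ^ ((c + 2) * (m + 1)) := by omega
  calc q.eval (2 * 2 ^ (c * (m + 1)) + 1 + m)
      ≤ q.eval 1 * (2 * 2 ^ (c * (m + 1)) + 1 + m) ^ q.natDegree := poly_le q _ (by omega)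
    _ ≤ 2 ^ (q.eval 1 * (m + 1)) * (2 ^ ((c + 2) * (m + 1))) ^ q.natDegree := by
        refine Nat.mul_le_mul ?_ (Nat.pow_le_pow_left hz _)
        refine le_trans (Nat.lt_two_pow_self (n := q.eval 1)).le ?_
        refine Nat.pow_le_pow_right (by norm_num) ?_
        nlinarith
    _ = 2 ^ ((q.eval 1 + (c + 2) * q.natDegree) * (m + 1)) := by
        rw [← pow_mul, ← pow_add]
        congr 1
        ring

theorem geo (X ρ M : ℕ) :
    ∑ k ∈ (range M).filter (fun k => 2 ^ k * ρ ≤ X), 2 ^ k * ρ ≤ 2 * X ∧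
    ∑ k ∈ (range M).filter (fun k => 2 ^ k * ρ ≤ X), 2 ^ k * ρ ≤ 2 ^ M * ρ := by
  induction M with
  | zero => simp
  | succ M ih =>
    rw [Finset.range_add_one, Finset.filter_insert]
    split_ifs with h
    · rw [Finset.sum_insert (by simp)]
      rw [pow_succ]
      constructor
      · omega
      · have : 2 ^ M * 2 * ρ = 2 ^ M * ρ + 2 ^ M * ρ := by ring
        omega
    · refine ⟨ih.1, le_trans ih.2 ?_⟩
      exact Nat.mul_le_mul (Nat.pow_le_pow_right (by norm_num) (Nat.le_succ M)) le_rfl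

theorem half_sum (E : ℕ) : ∑ e ∈ range E, (1 / 2 : ℝ) ^ e ≤ 2 := by
  have h := Summable.sum_le_tsum (range E) (f := fun e : ℕ => (1 / 2 : ℝ) ^ e)
    (fun i _ => by positivity) summable_geometric_two
  rwa [tsum_geometric_two] at h

end N10

open N10 in
open Classical in
theorem sparseE (c : ℕ → ℕ) (q : ℕ → Polynomial ℕ) (ε : ℝ) (hε : 0 < ε) :
    ∃ ρ : ℕ → ℕ, (∀ e k, (q e).eval (2 * 2 ^ bdE (c e) (2 ^ k) + 1 + 2 ^ k) ≤
        2 ^ bdE (ρ e) (2 ^ k)) ∧
      ∀ᶠ N : ℕ in Filter.atTop, (((Finset.range N).filter (fun i => ∃ e k r, r < 2 ^ k ∧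
        str i = codeC (fun e k => 2 ^ bdE (ρ e) (2 ^ k)) e k r)).card : ℝ) ≤
        ε * Real.logb 2 (Real.logb 2 N) := by
  choose C hC using fun e => bound (q e) (c e)
  set ρ : ℕ → ℕ := fun e => C e + ⌈(2 : ℝ) ^ (e + 3) / ε⌉₊ + e + 1 with hρ
  refine ⟨ρ, fun e k => ?_, ?_⟩
  · unfold bdE
    refine le_trans (hC e (2 ^ k)) (Nat.pow_le_pow_right (by norm_num) ?_)
    refine Nat.mul_le_mul ?_ le_rfl
    rw [hρ]
    simp only
    omega
  have hρ1 : ∀ e, e + 1 ≤ ρ e := fun e => by rw [hρ]; simp only; omega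
  have hρ2 : ∀ e, (2 : ℝ) ^ (e + 3) / ε ≤ ρ e := fun e => by
    refine le_trans (Nat.le_ceil _) ?_
    rw [hρ]
    simp only
    push_cast
    have h1 : (0 : ℝ) ≤ C e := Nat.cast_nonneg _
    have h2 : (0 : ℝ) ≤ e := Nat.cast_nonneg _
    linarith
  filter_upwards [Filter.eventually_ge_atTop 2] with N hN
  set X : ℕ := Nat.log 2 (Nat.log 2 N) with hX
  have hℓ : 1 ≤ Nat.log 2 N := Nat.log_pos (by norm_num) hN
  -- the index set
  let T : Finset (Σ _ : Σ _ : ℕ, ℕ, ℕ) :=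
    ((range (X + 1)).sigma fun e => (range (X + 1)).filter fun k => 2 ^ k * ρ e ≤ X).sigma
      fun p => range (2 ^ p.2)
  have hsub : (Finset.range N).filter (fun i => ∃ e k r, r < 2 ^ k ∧
      str i = codeC (fun e k => 2 ^ bdE (ρ e) (2 ^ k)) e k r) ⊆
      T.image fun p => idx (codeC (fun e k => 2 ^ bdE (ρ e) (2 ^ k)) p.1.1 p.1.2 p.2) := by
    intro i hi
    rw [Finset.mem_filter, Finset.mem_range] at hi
    obtain ⟨hiN, e, k, r, hr, hs⟩ := hi
    rw [Finset.mem_image]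
    have hlen : (str i).length = Nat.log 2 (i + 1) := length_str i
    have hlog : Nat.log 2 (i + 1) ≤ Nat.log 2 N := Nat.log_mono_right (by omega)
    have h1 : 2 ^ bdE (ρ e) (2 ^ k) ≤ Nat.log 2 N := by
      refine le_trans ?_ (le_trans (le_of_eq (congrArg List.length hs).symm) (by rw [hlen]; exact hlog))
      unfold codeC
      simp only [List.length_append, List.length_cons, List.length_replicate]
      omega
    have h2 : bdE (ρ e) (2 ^ k) ≤ X := by
      rw [hX]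
      exact Nat.le_log_of_pow_le (by norm_num) h1
    unfold bdE at h2
    have h3 : 2 ^ k * ρ e ≤ X := by
      refine le_trans ?_ h2
      rw [Nat.mul_comm]
      exact Nat.mul_le_mul le_rfl (Nat.le_succ _)
    have h4 : ρ e ≤ X := by
      refine le_trans ?_ h3
      exact Nat.le_mul_of_pos_left _ (Nat.pow_pos (by norm_num))
    have h5 : k < X + 1 := by
      have h6 : k < 2 ^ k := Nat.lt_two_pow_self
      have h7 : 2 ^ k ≤ 2 ^ k * ρ e := Nat.le_mul_of_pos_right _ (by have := hρ1 e; omega)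
      omega
    refine ⟨⟨⟨e, k⟩, r⟩, ?_, ?_⟩
    · rw [Finset.mem_sigma, Finset.mem_sigma, Finset.mem_filter]
      refine ⟨⟨Finset.mem_range.2 ?_, Finset.mem_range.2 h5, h3⟩, Finset.mem_range.2 hr⟩
      have := hρ1 e
      show e < X + 1
      omega
    · simp only
      rw [← hs, idx_str]
  have hcard : ((Finset.range N).filter (fun i => ∃ e k r, r < 2 ^ k ∧
      str i = codeC (fun e k => 2 ^ bdE (ρ e) (2 ^ k)) e k r)).card ≤
      ∑ e ∈ range (X + 1), ∑ k ∈ (range (X + 1)).filter (fun k => 2 ^ k * ρ e ≤ X), 2 ^ k := by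
    refine le_trans (Finset.card_le_card hsub) (le_trans Finset.card_image_le ?_)
    rw [Finset.card_sigma, Finset.sum_sigma]
    refine le_of_eq (Finset.sum_congr rfl fun e _ => Finset.sum_congr rfl fun k _ => ?_)
    rw [Finset.card_range]
  have hXn : (0 : ℝ) ≤ X := Nat.cast_nonneg _
  have hper : ∀ e, ((∑ k ∈ (range (X + 1)).filter (fun k => 2 ^ k * ρ e ≤ X), 2 ^ k : ℕ) : ℝ) ≤
      X * ε / 4 * (1 / 2) ^ e := by
    intro e
    have hg := (geo X (ρ e) (X + 1)).1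
    rw [← Finset.sum_mul] at hg
    have hg' : ((∑ k ∈ (range (X + 1)).filter (fun k => 2 ^ k * ρ e ≤ X), 2 ^ k : ℕ) : ℝ) * ρ e ≤
        2 * X := by exact_mod_cast hg
    have hρp : (0 : ℝ) < ρ e := by
      have := hρ1 e
      have h1 : 0 < ρ e := by omega
      exact_mod_cast h1
    have h2 := hρ2 e
    rw [div_le_iff₀ hε] at h2
    set S : ℝ := ((∑ k ∈ (range (X + 1)).filter (fun k => 2 ^ k * ρ e ≤ X), 2 ^ k : ℕ) : ℝ) with hS
    have hS0 : 0 ≤ S := Nat.cast_nonneg _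
    have h3 : S * 2 ^ (e + 3) ≤ 2 * X * ε := by
      calc S * 2 ^ (e + 3) ≤ S * (ρ e * ε) := mul_le_mul_of_nonneg_left h2 hS0
        _ = (S * ρ e) * ε := by ring
        _ ≤ 2 * X * ε := mul_le_mul_of_nonneg_right hg' hε.le
    have h4 : (2 : ℝ) ^ (e + 3) = 2 ^ e * 8 := by rw [pow_add]; norm_num
    rw [h4] at h3
    have h5 : (0 : ℝ) < 2 ^ e := by positivity
    have h6 : ((1 : ℝ) / 2) ^ e = 1 / 2 ^ e := by rw [div_pow, one_pow]
    rw [h6, mul_one_div, le_div_iff₀ h5]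
    linarith
  have hfin : (((Finset.range N).filter (fun i => ∃ e k r, r < 2 ^ k ∧
      str i = codeC (fun e k => 2 ^ bdE (ρ e) (2 ^ k)) e k r)).card : ℝ) ≤ ε * X := by
    calc (((Finset.range N).filter (fun i => ∃ e k r, r < 2 ^ k ∧
        str i = codeC (fun e k => 2 ^ bdE (ρ e) (2 ^ k)) e k r)).card : ℝ)
        ≤ ((∑ e ∈ range (X + 1),
            ∑ k ∈ (range (X + 1)).filter (fun k => 2 ^ k * ρ e ≤ X), 2 ^ k : ℕ) : ℝ) := by
          exact_mod_cast hcard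
      _ = ∑ e ∈ range (X + 1),
          ((∑ k ∈ (range (X + 1)).filter (fun k => 2 ^ k * ρ e ≤ X), 2 ^ k : ℕ) : ℝ) := by
          rw [Nat.cast_sum]
      _ ≤ ∑ e ∈ range (X + 1), X * ε / 4 * (1 / 2) ^ e := Finset.sum_le_sum fun e _ => hper e
      _ = X * ε / 4 * ∑ e ∈ range (X + 1), (1 / 2 : ℝ) ^ e := by rw [Finset.mul_sum]
      _ ≤ X * ε / 4 * 2 := mul_le_mul_of_nonneg_left (half_sum _) (by positivity)
      _ ≤ ε * X := by nlinarith
  refine le_trans hfin (mul_le_mul_of_nonneg_left ?_ hε.le)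
  have h1 : ((Nat.log 2 N : ℕ) : ℝ) ≤ Real.logb 2 N := by
    have := Real.natLog_le_logb N 2
    exact_mod_cast this
  have h2 : (X : ℝ) ≤ Real.logb 2 ((Nat.log 2 N : ℕ) : ℝ) := by
    have := Real.natLog_le_logb (Nat.log 2 N) 2
    exact_mod_cast this
  refine le_trans h2 (Real.logb_le_logb_of_le (by norm_num) ?_ h1)
  exact_mod_cast hℓ

end Pool.Agent.H752.GE
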