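import Pool.Agent.H752.GE.Base
import Pool.Agent.H620R2.Gauge.A2
import Pool.Agent.H620R2.Gauge.Event

/-! # The test language is in `NE` relative to the oracle -/

set_option autoImplicit false

namespace Pool.Agent.H752.GE

open Pool.Agent.NPC Finset H568R2 Pool.Agent.H620R2.Gauge Pool.Agent.H622R2

namespace N5

theorem poly_replicate {α : Type} [TEnc α] {n : α → ℕ} (hn : UPoly n) :
    Poly (fun a => List.replicate (n a) true) := by
  have h := NPC.Poly.map (F := fun (_ : α) (_ : Unit) => true) hn (NPC.Poly.const true)
  exact h.congr fun a => by simp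

/-- powers of two with unary exponent -/
theorem poly_pow {α : Type} [TEnc α] {l : α → List Bool} (hl : Poly l) :
    Poly (fun a => 2 ^ (l a).length) := by
  have h1 : Poly (fun a => (l a).map (fun _ => false)) :=
    NPC.Poly.map (F := fun (_ : α) (_ : Bool) => false) hl (NPC.Poly.const false)
  have h2 : Poly (fun a => valB ((l a).map (fun _ => false) ++ [true])) :=
    Poly.valBits (Poly.append h1 (NPC.Poly.const [true]))
  refine h2.congr fun a => ?_
  rw [List.map_const', valB_replicate_false]
  simp

/-- the bound for the number of questions -/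
def top (y : List Bool) : ℕ := (unpair y).1.length + 6 * (unpair y).2.length

/-- the number of questions -/
def num (y : List Bool) : ℕ := min (win (unpair y).2.length) (top y)

/-- the questions -/
def Q (y : List Bool) : List (List Bool) :=
  (List.range (num y)).map (fun i =>
    (unpair y).2 ++ (unpair y).1 ++ List.replicate (min i (top y)) true)

/-- the verdict -/
def H (y : List Bool × List Bool) : List Bool :=
  [decide ((unpair y.1).1.length = 2 ^ (unpair y.1).2.length) && y.2.all (fun b => b)]

theorem upoly_top : UPoly top := by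
  have hw : Poly (fun y : List Bool => (unpair y).1) := Poly.fst poly_unpair
  have hx : Poly (fun y : List Bool => (unpair y).2) := Poly.snd poly_unpair
  exact (UPoly.length hw).add ((UPoly.const 6).mul (UPoly.length hx))

theorem upoly_num : UPoly num := by
  have hx : Poly (fun y : List Bool => (unpair y).2) := Poly.snd poly_unpair
  refine UPoly.of_le (n := top) ?_ upoly_top (fun y => min_le_right _ _)
  refine Poly.min ?_ upoly_top.toPoly
  exact Poly.sub (Poly.add (poly_pow hx) (Poly.mul (NPC.Poly.const 6)
    (Poly.div (Poly.length hx) (NPC.Poly.const 10)))) (NPC.Poly.const 2)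

theorem poly_Q : Poly Q := by
  have hw : Poly (fun y : List Bool => (unpair y).1) := Poly.fst poly_unpair
  have hx : Poly (fun y : List Bool => (unpair y).2) := Poly.snd poly_unpair
  unfold Q
  refine NPC.Poly.map (F := fun (y : List Bool) (i : ℕ) =>
    (unpair y).2 ++ (unpair y).1 ++ List.replicate (min i (top y)) true)
    (UPoly.range upoly_num) ?_
  have hx' : Poly (fun p : List Bool × ℕ => (unpair p.1).2) := hx.comp (Poly.fst Poly.id)
  have hw' : Poly (fun p : List Bool × ℕ => (unpair p.1).1) := hw.comp (Poly.fst Poly.id)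
  have ht' : UPoly (fun p : List Bool × ℕ => top p.1) := upoly_top.comp (Poly.fst Poly.id)
  refine Poly.append (Poly.append hx' hw') (poly_replicate ?_)
  exact UPoly.of_le (Poly.min (Poly.snd Poly.id) ht'.toPoly) ht' (fun p => min_le_right _ _)

theorem poly_H : Poly H := by
  have hw : Poly (fun y : List Bool => (unpair y).1) := Poly.fst poly_unpair
  have hx : Poly (fun y : List Bool => (unpair y).2) := Poly.snd poly_unpair
  have hx' : Poly (fun p : List Bool × List Bool => (unpair p.1).2) := hx.comp (Poly.fst Poly.id)
  have hw' : Poly (fun p : List Bool × List Bool => (unpair p.1).1) := hw.comp (Poly.fst Poly.id)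
  unfold H
  refine Poly.cons (Poly.and (Poly.decide_eq (Poly.length hw') (poly_pow hx')) ?_)
    (NPC.Poly.const [])
  exact Poly.all (p := fun (_ : List Bool × List Bool) (b : Bool) => b) (Poly.snd Poly.id)
    (Poly.snd Poly.id)

end N5

theorem hitE_ne (A : Oracle) : IsNE A (hitE A) := by
  refine ⟨fun y => N5.H (y, (N5.Q y).map A), 1, IsFP.tt N5.poly_Q N5.poly_H, fun x => ?_⟩
  have hwin : win x.length ≤ 2 ^ x.length + 6 * x.length := by
    have := Nat.one_le_two_pow (n := x.length)
    unfold win
    omega
  have key : ∀ w : List Bool, N5.H (pairBits w x, (N5.Q (pairBits w x)).map A) = [true] ↔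
      (w.length = 2 ^ x.length ∧
        ∀ i < win x.length, A (x ++ w ++ List.replicate i true) = true) := by
    intro w
    unfold N5.H N5.Q N5.num N5.top
    simp only [unpair_pairBits, List.cons.injEq, and_true, Bool.and_eq_true, decide_eq_true_eq,
      List.all_eq_true, List.mem_map, List.mem_range]
    constructor
    · rintro ⟨h1, h2⟩
      refine ⟨h1, fun i hi => ?_⟩
      rw [h1] at h2
      apply h2
      refine ⟨_, ⟨i, lt_min hi (hi.trans_le hwin), rfl⟩, ?_⟩
      rw [min_eq_left (hi.trans_le hwin).le]
    · rintro ⟨h1, h2⟩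
      refine ⟨h1, ?_⟩
      rintro b ⟨_, ⟨i, hi, rfl⟩, rfl⟩
      rw [h1] at hi ⊢
      have hi1 := (lt_min_iff.1 hi).1
      rw [min_eq_left (hi1.trans_le hwin).le]
      exact h2 i hi1
  constructor
  · rintro ⟨j, hj, h⟩
    refine ⟨bitsOf (2 ^ x.length) j, ?_, ?_⟩
    · rw [length_bitsOf]
      exact Nat.pow_le_pow_right (by norm_num) (by omega)
    · rw [key]
      exact ⟨length_bitsOf _ _, h⟩
  · rintro ⟨w, _, hw⟩
    rw [key] at hw
    obtain ⟨j, hj, h⟩ := exists_bitsOf w
    rw [hw.1] at hj h
    refine ⟨j, hj, fun i hi => ?_⟩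
    unfold witE
    rw [h]
    exact hw.2 i hi

end Pool.Agent.H752.GE
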