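import Pool.Agent.H752.GE.Base2
import Pool.Agent.H620R2.Gauge.C

set_option autoImplicit false

/-!
# Task G9: coding (helper187; after helper620's `Gauge.C`)
-/

namespace Pool.Agent.H752.GE

open Pool.Agent.NPC Finset H568R2 Pool.Agent.H620R2.Gauge

namespace G9

theorem codeS_inj (t : ℕ → ℕ → ℕ) {e e' : ℕ} {x x' : List Bool}
    (h : codeS t e x = codeS t e' x') : e = e' ∧ x = x' := by
  obtain ⟨h1, h2⟩ := CC.rep_inj _ _ _ _ h
  obtain ⟨h3, h4⟩ := CC.rep_inj _ _ _ _ h2
  exact ⟨h1, h4⟩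

theorem lt_length_codeS (t : ℕ → ℕ → ℕ) (e : ℕ) (x : List Bool) :
    t e x.length < (codeS t e x).length := by
  unfold codeS
  simp only [List.length_append, List.length_replicate, List.length_cons]
  omega

open Classical in
/-- the oracle -/
noncomputable def Phi (t : ℕ → ℕ → ℕ) (V : ℕ → Oracle → List Bool → Prop) (B : Oracle)
    (y : List Bool) : Bool :=
  if h : ∃ p : ℕ × List Bool, y = codeS t p.1 p.2 then
    decide (V h.choose.1 (fun z => if _hz : z.length < y.length then Phi t V B z else false)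
      h.choose.2)
  else B y
termination_by y.length

theorem Phi_not (t : ℕ → ℕ → ℕ) (V : ℕ → Oracle → List Bool → Prop) (B : Oracle)
    (y : List Bool) (h : ∀ e x, y ≠ codeS t e x) : Phi t V B y = B y := by
  rw [Phi, dif_neg]
  rintro ⟨p, hp⟩
  exact h _ _ hp

open Classical in
theorem Phi_code (t : ℕ → ℕ → ℕ) (V : ℕ → Oracle → List Bool → Prop) (B : Oracle)
    (hV : ∀ e A A' x, (∀ z : List Bool, z.length < (codeS t e x).length → A z = A' z) →
      (V e A x ↔ V e A' x)) (e : ℕ) (x : List Bool) :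
    Phi t V B (codeS t e x) = true ↔ V e (Phi t V B) x := by
  have h : ∃ p : ℕ × List Bool, codeS t e x = codeS t p.1 p.2 := ⟨(e, x), rfl⟩
  rw [Phi, dif_pos h, decide_eq_true_iff]
  obtain ⟨h1, h2⟩ := codeS_inj t h.choose_spec
  rw [← h1, ← h2]
  apply hV
  intro z hz
  rw [dif_pos hz]

end G9

theorem exists_codingG (V : ℕ → Oracle → List Bool → Prop) (t : ℕ → ℕ → ℕ)
    (hV : ∀ e A A' x, (∀ z : List Bool, z.length ≤ t e x.length → A z = A' z) →
      (V e A x ↔ V e A' x)) :
    ∃ Φ : Oracle → Oracle, (∀ B y, (∀ e x, y ≠ codeS t e x) → Φ B y = B y) ∧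
      ∀ B e x, (Φ B (codeS t e x) = true ↔ V e (Φ B) x) :=
  ⟨G9.Phi t V, fun B y h => G9.Phi_not t V B y h, fun B e x => G9.Phi_code t V B
    (fun e A A' x h => hV e A A' x fun z hz => h z (lt_of_le_of_lt hz (G9.lt_length_codeS t e x)))
    e x⟩

end Pool.Agent.H752.GE
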