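import Pool.Agent.H752.GE.Base

/-!
# The condition on the gauge
-/

namespace Pool.Agent.H752.GE

open Pool.Agent.NPC Finset H568R2 Pool.Agent.H620R2.Gauge

/-- the condition on the gauge needed for the proof of nullity -/
def AsymU {Θ : Type} (bd : Θ → ℕ → ℕ) (f : ℕ → ℝ) : Prop :=
  ∀ (θ : Θ) (P Q : Polynomial ℕ) (δ : ℝ), 0 < δ → ∃ a N : ℕ, 1 ≤ a ∧
    2 ^ a * (1 + 2 * P.eval (10 * a + (2 * 2 ^ bd θ (10 * a) + 1))) ≤ 2 ^ 2 ^ (10 * a) ∧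
    2 ^ (Q.eval (10 * a + (2 * 2 ^ bd θ (10 * a) + 1)) + 4 * 2 ^ (10 * a) + 1) ≤ N ∧
    16 * (1 / 2 : ℝ) ^ a * 2 ^ f N ≤ δ

end Pool.Agent.H752.GE
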