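import Pool.Agent.H752.GE.Defs
import Pool.Agent.H620R2.Gauge2.Base

/-!
# The objects of the proof
-/

namespace Pool.Agent.H752.GE

open Pool.Agent.NPC Finset H568R2 Pool.Agent.H620R2.Gauge

/-- Nondeterministic time `2 ^ bd θ n` for some parameter `θ`. -/
def IsNT {Θ : Type} (bd : Θ → ℕ → ℕ) (A : Oracle) (L : Set (List Bool)) : Prop :=
  ∃ (V : List Bool → List Bool) (θ : Θ), IsFP A V ∧
    ∀ x, x ∈ L ↔ ∃ w : List Bool, w.length ≤ 2 ^ bd θ x.length ∧ V (pairBits w x) = [true]

/-- the exponents of `NE` -/
def bdE (c m : ℕ) : ℕ := c * (m + 1)

/-- the exponents of `NEXP` -/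
noncomputable def bdX (p : Polynomial ℕ) (m : ℕ) : ℕ := p.eval m

/-- number of strings of a witness -/
def win (m : ℕ) : ℕ := 2 ^ m + 6 * (m / 10) - 2

/-- the `i`-th string of the witness number `j` of `x` -/
def witE (x : List Bool) (j i : ℕ) : List Bool :=
  x ++ bitsOf (2 ^ x.length) j ++ List.replicate i true

/-- The test language: some witness (out of `2 ^ 2 ^ |x|` ones) has all its strings in `A`. -/
def hitE (A : Oracle) : Set (List Bool) :=
  {x | ∃ j < 2 ^ 2 ^ x.length, ∀ i < win x.length, A (witE x j i) = true}

/-- set all bits of the set `S` to true -/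
def plant {I : Type*} [DecidableEq I] (S : Finset I) (a : I → Bool) : I → Bool :=
  fun i => if i ∈ S then true else a i

/-- all bits of `S` are true -/
def Full {I : Type*} (S : Finset I) (a : I → Bool) : Prop := ∀ i ∈ S, a i = true

/-- the average of `F` over the points with one random set planted -/
noncomputable def avg {I κ J : Type*} [DecidableEq I] [Fintype κ] [Fintype J]
    (W : κ → J → Finset I)
    (F : (I → Bool) → ℝ) (a : I → Bool) : ℝ :=
  (∑ u : κ × J, F (plant (W u.1 u.2) a)) / (Fintype.card κ * Fintype.card J)

open Classical in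
/-- number of full sets -/
noncomputable def nfull {I κ J : Type*} [Fintype κ] [Fintype J] (W : κ → J → Finset I)
    (a : I → Bool) : ℕ := (univ.filter (fun u : κ × J => Full (W u.1 u.2) a)).card

/-- all answers are correct and no test has two full sets -/
def Good {I κ J : Type*} (W : κ → J → Finset I) (V : κ → (I → Bool) → Bool) (a : I → Bool) :
    Prop :=
  (∀ k, (V k a = true ↔ ¬ HitF (W k) a)) ∧ ∀ k j j', Full (W k j) a → Full (W k j') a → j = j'

open Classical in
/-- the indicator function of `Good` -/
noncomputable def goodF {I κ J : Type*} (W : κ → J → Finset I) (V : κ → (I → Bool) → Bool)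
    (a : I → Bool) : ℝ := if Good W V a then 1 else 0

/-- The language of the nondeterministic algorithm `M` with witness length `2 ^ e |x|`. -/
def LV (M : Alg) (e : ℕ → ℕ) (A : Oracle) : Set (List Bool) :=
  {x | ∃ w : List Bool, w.length ≤ 2 ^ e x.length ∧ M.out A (pairBits w x) = some [true]}

open Classical in
/-- The number of strings of length less than `l` in the language `L`. -/
noncomputable def cen (L : Set (List Bool)) (l : ℕ) : ℕ := Nat.card {x : List Bool // x.length < l ∧ x ∈ L}

/-- The code string for the binary digit number `r` of the number of words of length less than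
`2 ^ k` in the language number `e`. -/
def codeC (t : ℕ → ℕ → ℕ) (e k r : ℕ) : List Bool :=
  List.replicate e true ++ false :: (List.replicate k true ++ false ::
    (List.replicate (t e k) true ++ false :: List.replicate r true))

end Pool.Agent.H752.GE
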