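import Pool.Agent.H752.GE.Base

/-!
# The objects of the proof: deterministic linear-exponential time
-/

namespace Pool.Agent.H752.GE

open Pool.Agent.NPC Finset H568R2 Pool.Agent.H620R2.Gauge

/-- The language `L` is in `E` relative to `A` with polynomial advice: some oracle algorithm
decides, within `2 ^ (c (|x| + 1))` rounds, whether `x` is in `L`, if it is given, besides `x`, a
string `h |x|` of polynomially bounded length depending on the length of `x` only. -/
def IsEpoly (A : Oracle) (L : Set (List Bool)) : Prop :=
  ∃ (M : Alg) (c : ℕ) (h : ℕ → List Bool) (p : Polynomial ℕ), (∀ n, (h n).length ≤ p.eval n) ∧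
    ∀ x, ∃ z, M.run A (pairBits x (h x.length)) (2 ^ (c * (x.length + 1))) [] = some z ∧
      (x ∈ L ↔ z = [true])

/-- The language `L` is in `NE` relative to `A` with polynomial advice. -/
def IsNEpoly (A : Oracle) (L : Set (List Bool)) : Prop :=
  ∃ (V : List Bool → List Bool) (c : ℕ) (h : ℕ → List Bool) (p : Polynomial ℕ), IsFP A V ∧
    (∀ n, (h n).length ≤ p.eval n) ∧ ∀ x, x ∈ L ↔ ∃ w : List Bool,
      w.length ≤ 2 ^ (c * (x.length + 1)) ∧ V (pairBits w (pairBits x (h x.length))) = [true]

/-- The condition on the gauge. -/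
def CondE (f : ℕ → ℝ) : Prop :=
  ∀ ε : ℝ, 0 < ε → ∃ᶠ N : ℕ in Filter.atTop, f N ≤ (Real.logb 2 N) ^ ε

/-- The first test language: some witness (out of `2 ^ 2 ^ |x|` ones) has all its `2 ^ |x|` strings
in `A`. -/
def hitD (A : Oracle) : Set (List Bool) :=
  {x | ∃ j < 2 ^ 2 ^ x.length, ∀ i < 2 ^ x.length, A (witE x j i) = true}

/-- The second test language: the number of strings `x w` in the oracle with `|w| = 2 ^ |x|` is
odd. -/
def parE (A : Oracle) : Set (List Bool) :=
  {x | Odd ((Finset.range (2 ^ 2 ^ x.length)).filter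
    (fun j => A (x ++ bitsOf (2 ^ x.length) j) = true)).card}

/-- The code string for the question whether `x` is in the language number `e`. -/
def codeS (t : ℕ → ℕ → ℕ) (e : ℕ) (x : List Bool) : List Bool :=
  List.replicate e true ++ false :: (List.replicate (t e x.length) true ++ false :: x)

end Pool.Agent.H752.GE
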