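import Pool.Agent.H620R2.Gauge2.Defs

/-!
# Linear-exponential and exponential time relative to an oracle

(Continues `Pool.Agent.H620R2.Gauge.Defs` and `Pool.Agent.H620R2.Gauge2.Defs`, helper620's
definitions of oracle algorithms, polynomial time relative to an oracle and null sets of a gauge.)
-/

namespace Pool.Agent.H752.GE

open Pool.Agent.NPC Pool.Agent.H620R2.Gauge

/-- The language `L` is in `E` (deterministic time `2 ^ O(n)`) relative to `A`: some oracle
algorithm decides it within `2 ^ (c (|x| + 1))` rounds on the input `x`, where `c` is a constant.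
(In every round the work and the length of the question are polynomially bounded in the length of
the input and the number of the former rounds, hence they are at most `2 ^ O(|x|)` too.) -/
def IsE (A : Oracle) (L : Set (List Bool)) : Prop :=
  ∃ (M : Alg) (c : ℕ), ∀ x, ∃ z,
    M.run A x (2 ^ (c * (x.length + 1))) [] = some z ∧ (x ∈ L ↔ z = [true])

/-- The language `L` is in `NE` (nondeterministic time `2 ^ O(n)`) relative to `A`: `x` is in `L`
if and only if there is a witness `w` of length at most `2 ^ (c (|x| + 1))` accepted by a
verifier that works in polynomial time (in the length of `⟨w, x⟩`) relative to `A`. -/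
def IsNE (A : Oracle) (L : Set (List Bool)) : Prop :=
  ∃ (V : List Bool → List Bool) (c : ℕ), IsFP A V ∧
    ∀ x, x ∈ L ↔ ∃ w : List Bool, w.length ≤ 2 ^ (c * (x.length + 1)) ∧
      V (pairBits w x) = [true]

/-- The language `L` is in `NEXP` (nondeterministic time `2 ^ p(n)`, `p` a polynomial) relative
to `A`. -/
def IsNEXP (A : Oracle) (L : Set (List Bool)) : Prop :=
  ∃ (V : List Bool → List Bool) (p : Polynomial ℕ), IsFP A V ∧
    ∀ x, x ∈ L ↔ ∃ w : List Bool, w.length ≤ 2 ^ p.eval x.length ∧
      V (pairBits w x) = [true]

/-- The language `L` is in `ESPACE` (space `2 ^ O(n)`) relative to `A`: some algorithm uses, on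
every input `x`, a memory of length at most `2 ^ (c (|x| + 1))`, and stops with output `[true]` if
`x` is in `L` and with another output if it is not. There is no bound on the number of rounds. -/
def IsESPACE (A : Oracle) (L : Set (List Bool)) : Prop :=
  ∃ (M : SAlg) (c : ℕ), ∀ x,
    (∀ s, M.Reach A x s → s.length ≤ 2 ^ (c * (x.length + 1))) ∧
    ∃ s z, M.Reach A x s ∧ M.act (pairBits x s) = true :: z ∧ (x ∈ L ↔ z = [true])

end Pool.Agent.H752.GE
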