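import Pool.Agent.H752.GE.Stubs2
import Pool.Agent.H620R2.GaugeR.R8
import Pool.Agent.H620R2.Gauge.C

/-! Thresholds for `E = NE`, `E = ESPACE` and `NE = ESPACE`. -/

namespace Pool.Agent.H752.GE

open Pool.Agent.NPC Finset H568R2 Pool.Agent.H676 Pool.Agent.H620R2.Gauge MeasureTheory

open Classical in
theorem not_nullE (f : ℕ → ℝ) (hf : ¬ CondE f) (O : Set Oracle)
    (hO : ∀ A : Oracle, (∀ L, IsESPACE A L → IsE A L) → A ∈ O) : ¬ Null f O := by
  unfold CondE at hf
  push Not at hf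
  obtain ⟨ε, hε, hf⟩ := hf
  obtain ⟨V, c, q, hloc, hV⟩ := exists_espace
  obtain ⟨ρ, hρ, hcount⟩ := sparseS c q ε hε
  set t : ℕ → ℕ → ℕ := fun e m => 2 ^ (ρ e * (m + 1)) with ht
  obtain ⟨Φ, h1, h2⟩ := exists_codingG V t (fun e A A' x h => hloc e A A' x fun z hz =>
    h z (hz.trans (hρ e x.length)))
  set T : Set (List Bool) := {y | ∃ e x, y = codeS t e x} with hT
  obtain ⟨N₀, hN₀⟩ := Filter.eventually_atTop.1 (hf.and hcount)
  obtain ⟨k, hk0, hk⟩ : ∃ k : ℝ, 0 ≤ k ∧ ∀ N < N₀,
      (((Finset.range N).filter (fun i => str i ∈ T)).card : ℝ) ≤ f N + k := by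
    refine ⟨∑ N ∈ Finset.range N₀, |(((Finset.range N).filter (fun i => str i ∈ T)).card : ℝ) - f N|,
      Finset.sum_nonneg fun _ _ => abs_nonneg _, fun N hN => ?_⟩
    have h3 := Finset.single_le_sum
      (f := fun N => |(((Finset.range N).filter (fun i => str i ∈ T)).card : ℝ) - f N|)
      (fun _ _ => abs_nonneg _) (Finset.mem_range.2 hN)
    linarith [le_abs_self ((((Finset.range N).filter (fun i => str i ∈ T)).card : ℝ) - f N)]
  refine not_null_of f Set.univ (by simp [ranO]) Φ T ?_ k ?_ O ?_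
  · intro B y hy
    refine h1 B y fun e x h => hy ⟨e, x, h⟩
  · intro N
    by_cases hN : N < N₀
    · exact hk N hN
    · obtain ⟨h3, h4⟩ := hN₀ N (not_lt.1 hN)
      have h5 : (((Finset.range N).filter (fun i => str i ∈ T)).card : ℝ) ≤
          (Real.logb 2 N) ^ ε := by
        refine le_trans (le_of_eq ?_) h4
        rfl
      linarith
  · intro B _
    apply hO
    intro L hL
    obtain ⟨e, he⟩ := hV (Φ B) L hL
    exact isE_of_code ρ e fun x => (he x).trans (h2 B e x).symm

/-- The threshold for deterministic linear-exponential time. -/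
theorem null_iffD (f : ℕ → ℝ) (O : Set Oracle)
    (h1 : ∀ A : Oracle, (∀ L, IsESPACE A L → IsE A L) → A ∈ O)
    (h2 : ∀ A ∈ O, ∀ L, IsNE A L → IsEpoly A L) : Null f O ↔ CondE f := by
  constructor
  · intro h
    by_contra hf
    exact not_nullE f hf O h1 h
  · intro hf
    exact nullD hf O fun A hA => h2 A hA _ (hitD_ne A)

/-- The threshold for nondeterministic linear-exponential time. -/
theorem null_iffP (f : ℕ → ℝ) (O : Set Oracle)
    (h1 : ∀ A : Oracle, (∀ L, IsESPACE A L → IsE A L) → A ∈ O)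
    (h2 : ∀ A ∈ O, ∀ L, IsESPACE A L → IsNEpoly A L) : Null f O ↔ CondE f := by
  constructor
  · intro h
    by_contra hf
    exact not_nullE f hf O h1 h
  · intro hf
    exact nullP hf O fun A hA => h2 A hA _ (parE_espace A)

theorem IsE.isESPACE {A : Oracle} {L : Set (List Bool)} (h : IsE A L) : IsESPACE A L :=
  h.isNE.isESPACE

theorem null_e_ne (f : ℕ → ℝ) : Null f {A | ∀ L, IsE A L ↔ IsNE A L} ↔ CondE f := by
  apply null_iffD
  · intro A hA L
    exact ⟨fun h => h.isNE, fun h => hA L h.isESPACE⟩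
  · intro A hA L hL
    exact ((hA L).2 hL).isEpoly

theorem null_e_espace (f : ℕ → ℝ) : Null f {A | ∀ L, IsE A L ↔ IsESPACE A L} ↔ CondE f := by
  apply null_iffD
  · intro A hA L
    exact ⟨fun h => h.isESPACE, fun h => hA L h⟩
  · intro A hA L hL
    exact ((hA L).2 hL.isESPACE).isEpoly

theorem null_ne_espace (f : ℕ → ℝ) : Null f {A | ∀ L, IsNE A L ↔ IsESPACE A L} ↔ CondE f := by
  apply null_iffP
  · intro A hA L
    exact ⟨fun h => h.isESPACE, fun h => (hA L h).isNE⟩
  · intro A hA L hL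
    exact ((hA L).2 hL).isNEpoly

end Pool.Agent.H752.GE
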