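import Pool.Agent.H752.GE.Base
import Pool.Agent.H620R2.Gauge.S

/-!
# N11: number of coded positions for NEXP
-/

namespace Pool.Agent.H752.GE

open Pool.Agent.NPC Finset H568R2 Pool.Agent.H620R2.Gauge

namespace N11

/-- A polynomial with natural coefficients is at most `D * (x + 1) ^ D`. -/
theorem poly_bound (q : Polynomial ℕ) : ∃ D : ℕ, ∀ x : ℕ, q.eval x ≤ D * (x + 1) ^ D := by
  induction q using Polynomial.induction_on' with
  | add p q hp hq =>
    obtain ⟨D, hD⟩ := hp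
    obtain ⟨E, hE⟩ := hq
    refine ⟨D + E, fun x => ?_⟩
    rw [Polynomial.eval_add, add_mul]
    refine Nat.add_le_add ((hD x).trans ?_) ((hE x).trans ?_)
    · exact Nat.mul_le_mul_left _ (Nat.pow_le_pow_right (by omega) (by omega))
    · exact Nat.mul_le_mul_left _ (Nat.pow_le_pow_right (by omega) (by omega))
  | monomial n a =>
    refine ⟨a + n, fun x => ?_⟩
    rw [Polynomial.eval_monomial]
    calc a * x ^ n ≤ (a + n) * (x + 1) ^ n :=
          Nat.mul_le_mul (by omega) (Nat.pow_le_pow_left (by omega) _)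
      _ ≤ (a + n) * (x + 1) ^ (a + n) :=
          Nat.mul_le_mul_left _ (Nat.pow_le_pow_right (by omega) (by omega))

theorem first_bound {D : ℕ} {q : Polynomial ℕ} (hD : ∀ x : ℕ, q.eval x ≤ D * (x + 1) ^ D)
    (a m : ℕ) : q.eval (2 * 2 ^ a + 1 + m) ≤ 2 ^ (D + (a + m + 3) * D) := by
  refine (hD _).trans ?_
  have h1 : 2 * 2 ^ a + 1 + m + 1 ≤ 2 ^ (a + m + 3) := by
    have h2 : m < 2 ^ m := Nat.lt_two_pow_self
    have h3 : 2 ^ (a + m + 3) = 8 * (2 ^ a * 2 ^ m) := by ring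
    have h4 : 1 ≤ 2 ^ a := Nat.one_le_two_pow
    have h5 : 1 ≤ 2 ^ m := Nat.one_le_two_pow
    rw [h3]
    nlinarith [Nat.mul_le_mul h4 h5, Nat.mul_le_mul h4 (le_refl (2 ^ m)),
      Nat.mul_le_mul (le_refl (2 ^ a)) h5]
  have h2 : D ≤ 2 ^ D := Nat.lt_two_pow_self.le
  calc D * (2 * 2 ^ a + 1 + m + 1) ^ D ≤ 2 ^ D * (2 ^ (a + m + 3)) ^ D :=
        Nat.mul_le_mul h2 (Nat.pow_le_pow_left h1 _)
    _ = 2 ^ (D + (a + m + 3) * D) := by
        rw [← pow_mul, ← pow_add]

theorem length_codeC (t : ℕ → ℕ → ℕ) (e k r : ℕ) : t e k ≤ (codeC t e k r).length := by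
  simp only [codeC, List.length_append, List.length_cons, List.length_replicate]
  omega

end N11

open Classical in
theorem sparseX (c : ℕ → Polynomial ℕ) (q : ℕ → Polynomial ℕ) (ε : ℝ) (hε : 0 < ε) :
    ∃ ρ : ℕ → Polynomial ℕ, (∀ e k, (q e).eval (2 * 2 ^ bdX (c e) (2 ^ k) + 1 + 2 ^ k) ≤
        2 ^ bdX (ρ e) (2 ^ k)) ∧
      ∀ᶠ N : ℕ in Filter.atTop, (((Finset.range N).filter (fun i => ∃ e k r, r < 2 ^ k ∧
        str i = codeC (fun e k => 2 ^ bdX (ρ e) (2 ^ k)) e k r)).card : ℝ) ≤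
        (Real.logb 2 (Real.logb 2 N)) ^ ε := by
  choose D hD using fun e => N11.poly_bound (q e)
  obtain ⟨K, hK0, hK⟩ : ∃ K : ℕ, 0 < K ∧ 3 ≤ ε * K := by
    obtain ⟨K, hK⟩ := exists_nat_ge (3 / ε)
    refine ⟨K + 1, by omega, ?_⟩
    rw [div_le_iff₀ hε] at hK
    push_cast
    nlinarith
  let ρ : ℕ → Polynomial ℕ := fun e =>
    Polynomial.C (D e) + (c e + Polynomial.X + Polynomial.C 3) * Polynomial.C (D e) +
      (Polynomial.X + Polynomial.C (e + 1)) ^ K
  have hρ : ∀ e m, (ρ e).eval m = D e + ((c e).eval m + m + 3) * D e + (m + (e + 1)) ^ K := by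
    intro e m
    simp [ρ]
  refine ⟨ρ, ?_, ?_⟩
  · intro e k
    refine (N11.first_bound (hD e) _ _).trans ?_
    refine Nat.pow_le_pow_right (by omega) ?_
    show _ ≤ (ρ e).eval (2 ^ k)
    rw [hρ]
    exact Nat.le_add_right _ _
  · filter_upwards [Filter.eventually_ge_atTop 16] with N hN
    set X₀ := Nat.log 2 (Nat.log 2 N) with hX₀
    have hlog4 : 4 ≤ Nat.log 2 N := by
      have : Nat.log 2 16 ≤ Nat.log 2 N := Nat.log_mono_right hN
      have h16 : Nat.log 2 16 = 4 := by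
        rw [show (16 : ℕ) = 2 ^ 4 by norm_num, Nat.log_pow (by norm_num)]
      omega
    have hX1 : 1 ≤ X₀ := by
      have : Nat.log 2 4 ≤ Nat.log 2 (Nat.log 2 N) := Nat.log_mono_right hlog4
      have h4 : Nat.log 2 4 = 2 := by
        rw [show (4 : ℕ) = 2 ^ 2 by norm_num, Nat.log_pow (by norm_num)]
      omega
    have hX1' : (1 : ℝ) ≤ (X₀ : ℝ) := by exact_mod_cast hX1
    -- the root
    set Y₀ := ⌊(X₀ : ℝ) ^ (1 / (K : ℝ))⌋₊ with hY₀
    have hK0' : (0 : ℝ) < K := by exact_mod_cast hK0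
    have hroot : ∀ y : ℕ, y ^ K ≤ X₀ → y ≤ Y₀ := by
      intro y hy
      apply Nat.le_floor
      have h1 : ((y : ℝ)) ^ (K : ℝ) ≤ (X₀ : ℝ) := by
        rw [Real.rpow_natCast]
        exact_mod_cast hy
      calc (y : ℝ) = ((y : ℝ) ^ (K : ℝ)) ^ (1 / (K : ℝ)) := by
            rw [← Real.rpow_mul (Nat.cast_nonneg y), mul_one_div_cancel hK0'.ne', Real.rpow_one]
        _ ≤ (X₀ : ℝ) ^ (1 / (K : ℝ)) := by
            apply Real.rpow_le_rpow _ h1 (by positivity)
            positivity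
    -- the key bound
    have key : ∀ i < N, ∀ e k r, r < 2 ^ k →
        str i = codeC (fun e k => 2 ^ bdX (ρ e) (2 ^ k)) e k r → e < Y₀ ∧ k < Y₀ ∧ r < Y₀ := by
      intro i hi e k r hr hstr
      have h1 := N11.length_codeC (fun e k => 2 ^ bdX (ρ e) (2 ^ k)) e k r
      rw [← hstr, length_str] at h1
      have h2 : Nat.log 2 (i + 1) ≤ Nat.log 2 N := Nat.log_mono_right hi
      have h3 : 2 ^ (ρ e).eval (2 ^ k) ≤ Nat.log 2 N := h1.trans h2
      have h4 : (ρ e).eval (2 ^ k) ≤ X₀ := Nat.le_log_of_pow_le (by norm_num) h3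
      rw [hρ] at h4
      have h5 : (2 ^ k + (e + 1)) ^ K ≤ X₀ := (Nat.le_add_left _ _).trans h4
      have h6 := hroot _ h5
      have h7 : k < 2 ^ k := Nat.lt_two_pow_self
      omega
    have hcard : ((Finset.range N).filter (fun i => ∃ e k r, r < 2 ^ k ∧
        str i = codeC (fun e k => 2 ^ bdX (ρ e) (2 ^ k)) e k r)).card ≤ Y₀ ^ 3 := by
      have h1 : (((Finset.range N).filter (fun i => ∃ e k r, r < 2 ^ k ∧
        str i = codeC (fun e k => 2 ^ bdX (ρ e) (2 ^ k)) e k r)).image str) ⊆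
          ((Finset.range Y₀ ×ˢ (Finset.range Y₀ ×ˢ Finset.range Y₀)).image
            (fun p : ℕ × ℕ × ℕ => codeC (fun e k => 2 ^ bdX (ρ e) (2 ^ k)) p.1 p.2.1 p.2.2)) := by
        intro y hy
        obtain ⟨i, hi, rfl⟩ := Finset.mem_image.mp hy
        obtain ⟨hi1, e, k, r, hr, hstr⟩ := Finset.mem_filter.mp hi
        obtain ⟨h1, h2, h3⟩ := key i (Finset.mem_range.mp hi1) e k r hr hstr
        rw [hstr]
        refine Finset.mem_image.mpr ⟨(e, k, r), ?_, rfl⟩
        simp only [Finset.mem_product, Finset.mem_range]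
        exact ⟨h1, h2, h3⟩
      have h2 := Finset.card_le_card h1
      rw [Finset.card_image_of_injective _ str_injective] at h2
      refine h2.trans (Finset.card_image_le.trans ?_)
      simp only [Finset.card_product, Finset.card_range]
      apply le_of_eq
      ring
    have hYle : (Y₀ : ℝ) ≤ (X₀ : ℝ) ^ (1 / (K : ℝ)) := Nat.floor_le (by positivity)
    have hXle : (X₀ : ℝ) ≤ Real.logb 2 (Real.logb 2 N) := by
      have h1 : ((Nat.log 2 N : ℕ) : ℝ) ≤ Real.logb 2 N := by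
        have := Real.natLog_le_logb N 2
        exact_mod_cast this
      have h2 : ((Nat.log 2 (Nat.log 2 N) : ℕ) : ℝ) ≤ Real.logb 2 ((Nat.log 2 N : ℕ) : ℝ) := by
        have := Real.natLog_le_logb (Nat.log 2 N) 2
        exact_mod_cast this
      refine h2.trans ?_
      apply Real.logb_le_logb_of_le (by norm_num) _ h1
      have : (4 : ℝ) ≤ ((Nat.log 2 N : ℕ) : ℝ) := by exact_mod_cast hlog4
      linarith
    calc (((Finset.range N).filter (fun i => ∃ e k r, r < 2 ^ k ∧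
        str i = codeC (fun e k => 2 ^ bdX (ρ e) (2 ^ k)) e k r)).card : ℝ)
        ≤ ((Y₀ ^ 3 : ℕ) : ℝ) := by exact_mod_cast hcard
      _ = (Y₀ : ℝ) ^ 3 := by push_cast; ring
      _ ≤ ((X₀ : ℝ) ^ (1 / (K : ℝ))) ^ 3 := by gcongr
      _ = (X₀ : ℝ) ^ (3 / (K : ℝ)) := by
          rw [← Real.rpow_natCast, ← Real.rpow_mul (Nat.cast_nonneg _)]
          congr 1
          push_cast
          ring
      _ ≤ (X₀ : ℝ) ^ ε := by
          apply Real.rpow_le_rpow_of_exponent_le hX1'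
          rw [div_le_iff₀ hK0']
          exact hK
      _ ≤ (Real.logb 2 (Real.logb 2 N)) ^ ε := by
          apply Real.rpow_le_rpow (by positivity) hXle hε.le

end Pool.Agent.H752.GE
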