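import Pool.Agent.H752.GE.N12
import Pool.Agent.H620R2.GaugeR.R2
import Pool.Agent.H620R2.Gauge.S

/-!
# Task N13: the verifier for the complement (helper467)
-/

namespace Pool.Agent.H752.GE

open Pool.Agent.NPC Finset H568R2 Pool.Agent.H620R2.Gauge

namespace N13

/-! ### Polynomial time -/

theorem poly_repl {α β : Type} [TEnc α] [TEnc β] {n : α → ℕ} (hn : UPoly n) (b : β) :
    Poly (fun a => List.replicate (n a) b) :=
  (NPC.Poly.map (F := fun _ _ => b) hn (NPC.Poly.const b)).congr fun a => by simp

theorem poly_pow2 {α : Type} [TEnc α] {n : α → ℕ} (hn : UPoly n) : Poly (fun a => 2 ^ n a) :=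
  (Poly.valBits (Poly.append (poly_repl hn false) (NPC.Poly.const [true]))).congr fun a => by
    rw [valB_replicate_false]
    simp

theorem uPoly_size {α β : Type} [TEnc α] [TEnc β] {l : α → List β} (hl : Poly l) :
    UPoly (fun a => (l a).length.size) := by
  refine (UPoly.length (Poly.natBits (Poly.length hl))).congr fun a => ?_
  simp only [Nat.size_eq_bits_len]

theorem pow_size_le (m : ℕ) : 2 ^ m.size ≤ 2 * m + 1 := by
  rcases Nat.eq_zero_or_pos m with rfl | h
  · simp
  · obtain ⟨s, hs⟩ : ∃ s, m.size = s + 1 := by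
      have h1 := Nat.size_pos.2 h
      exact ⟨m.size - 1, by omega⟩
    have h2 : 2 ^ s ≤ m := Nat.lt_size.1 (by omega)
    rw [hs, pow_succ]
    omega

/-- the type of the witnesses: the padding and the list of the words with their witnesses -/
abbrev Wt : Type := List Bool × List (List Bool × List Bool)

/-- decoding of a witness -/
def dcw (W : List Bool) : Wt := (unbits Wt W).getD ([], [])

theorem dcw_bits (s : Wt) : dcw (bits s) = s := by
  unfold dcw
  rw [unbits_bits]
  rfl

theorem poly_dcw : Poly dcw :=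
  (Poly.optCases (o := unbits Wt) (g := fun _ => (([], []) : Wt)) (h := fun _ b => b)
    poly_unbits (NPC.Poly.const _) (Poly.snd Poly.id)).congr fun s => by
      unfold dcw
      cases unbits Wt s <;> rfl

/-- number of members of the decoded list -/
theorem dcw_length (W : List Bool) : (dcw W).2.length ≤ W.length := by
  unfold dcw
  rcases h : unbits Wt W with _ | s
  · simp
  · have h1 := bits_of_unbits h
    have h2 := length_lt_sz s.2
    have h3 : W.length = sz s := by rw [← h1, bits_length]
    have h4 : sz s = sz s.1 + sz s.2 + 1 := sz_pair _ _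
    simp only [Option.getD_some]
    omega

/-- the witness part -/
def wt (y : List Bool) : Wt := dcw (unpair y).1

/-- the input part -/
def inp (y : List Bool) : List Bool := (unpair y).2

/-- the level -/
def lev (y : List Bool) : ℕ := (inp y).length.size

theorem poly_wt : Poly wt := poly_dcw.comp (Poly.fst poly_unpair)

theorem poly_inp : Poly inp := Poly.snd poly_unpair

theorem uPoly_lev : UPoly lev := uPoly_size poly_inp

theorem uPoly_powlev : UPoly (fun y => 2 ^ lev y) :=
  UPoly.of_le (poly_pow2 uPoly_lev) (((UPoly.length poly_inp).eval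
    (Polynomial.C 2 * Polynomial.X + Polynomial.C 1))) fun y => by
      simp only [Polynomial.eval_add, Polynomial.eval_mul, Polynomial.eval_C, Polynomial.eval_X]
      exact pow_size_le _

/-- the question number `r` -/
def qst (e : ℕ) (y : List Bool) (r : ℕ) : List Bool :=
  List.replicate e true ++ false :: (List.replicate (lev y) true ++ false ::
    (List.replicate (wt y).1.length true ++ false :: List.replicate (min r (2 ^ lev y)) true))

theorem poly_qst (e : ℕ) : Poly (fun p : List Bool × ℕ => qst e p.1 p.2) := by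
  have h1 : Poly (fun p : List Bool × ℕ => p.1) := Poly.fst Poly.id
  have h2 : UPoly (fun p : List Bool × ℕ => 2 ^ lev p.1) := uPoly_powlev.comp h1
  have h3 : UPoly (fun p : List Bool × ℕ => min p.2 (2 ^ lev p.1)) :=
    UPoly.of_le (Poly.min (Poly.snd Poly.id) h2.toPoly) h2 fun p => min_le_right _ _
  exact Poly.append (NPC.Poly.const _) (Poly.cons (NPC.Poly.const _)
    (Poly.append (poly_repl (uPoly_lev.comp h1) true) (Poly.cons (NPC.Poly.const _)
      (Poly.append (poly_repl (UPoly.length (Poly.fst (poly_wt.comp h1))) true)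
        (Poly.cons (NPC.Poly.const _) (poly_repl h3 true))))))

/-- all questions -/
def qsts (e : ℕ) (y : List Bool) : List (List Bool) := (List.range (2 ^ lev y)).map (qst e y)

theorem poly_qsts (e : ℕ) : Poly (qsts e) := NPC.Poly.map uPoly_powlev.range (poly_qst e)

/-- the string tested by the run number `i` -/
def tst (p : (ℕ × List Bool) × List Bool) : List Bool :=
  match (wt p.1.2).2[p.1.1]? with
  | none => []
  | some q => pairBits q.2 q.1

theorem poly_tst : Poly tst := by
  have h1 : Poly (fun p : (ℕ × List Bool) × List Bool => p.1.1) := Poly.fst (Poly.fst Poly.id)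
  have h2 : Poly (fun p : (ℕ × List Bool) × List Bool => p.1.2) := Poly.snd (Poly.fst Poly.id)
  refine (Poly.optCases (o := fun p : (ℕ × List Bool) × List Bool => (wt p.1.2).2[p.1.1]?)
    (g := fun _ => ([] : List Bool)) (h := fun _ q => pairBits q.2 q.1)
    (Poly.getElem? (Poly.snd (poly_wt.comp h2)) h1) (NPC.Poly.const _)
    (H622R2.poly_pairBits (Poly.snd (Poly.snd Poly.id))
      (Poly.fst (Poly.snd Poly.id)))).congr fun p => ?_
  unfold tst
  cases (wt p.1.2).2[p.1.1]? <;> rfl

/-- first check: the members of the list -/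
def chk1 {Θ : Type} (bd : Θ → ℕ → ℕ) (θ : Θ) (y : List Bool) : Bool :=
  (wt y).2.all (fun q => (decide (q.1.length < 2 ^ lev y) && !decide (q.1 = inp y)) &&
    decide (q.2.length ≤ 2 ^ bd θ q.1.length))

/-- second check: they are different -/
def chk2 (y : List Bool) : Bool :=
  (wt y).2.zipIdx.all (fun a => (wt y).2.zipIdx.all (fun b =>
    !decide (a.1.1 = b.1.1) || decide (a.2 = b.2)))

/-- third check: the runs accept -/
def chk3 (p : List Bool × List Bool) : Bool :=
  p.2.zipIdx.all (fun a => a.1 || decide ((wt p.1).2.length ≤ a.2))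

/-- all checks -/
def chk {Θ : Type} (bd : Θ → ℕ → ℕ) (θ ρ : Θ) (p : List Bool × List Bool × List Bool) : Bool :=
  (decide ((wt p.1).1.length = 2 ^ bd ρ (2 ^ lev p.1)) &&
    decide ((wt p.1).2.length = valB p.2.2)) &&
    (chk1 bd θ p.1 && (chk2 p.1 && chk3 (p.1, p.2.1)))

section poly

variable {Θ : Type} {bd : Θ → ℕ → ℕ} (hbd : Closed bd) (θ ρ : Θ)

include hbd

theorem poly_chk1 : Poly (chk1 bd θ) := by
  have h1 : Poly (fun p : List Bool × (List Bool × List Bool) => p.1) := Poly.fst Poly.id
  have h2 : Poly (fun p : List Bool × (List Bool × List Bool) => p.2.1) :=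
    Poly.fst (Poly.snd Poly.id)
  have h3 : Poly (fun p : List Bool × (List Bool × List Bool) => p.2.2) :=
    Poly.snd (Poly.snd Poly.id)
  have h4 : UPoly (fun p : List Bool × (List Bool × List Bool) => bd θ p.2.1.length) :=
    (hbd.upoly θ).comp h2
  exact Poly.all (Poly.snd poly_wt) (Poly.and (Poly.and (Poly.decide_lt (Poly.length h2)
    (uPoly_powlev.comp h1).toPoly) (Poly.not (Poly.decide_eq h2 (poly_inp.comp h1))))
    (Poly.decide_le (Poly.length h3) (poly_pow2 h4)))

omit hbd in
theorem poly_chk2 : Poly chk2 := by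
  have h0 : Poly (fun y => (wt y).2.zipIdx) := Poly.zipIdx (Poly.snd poly_wt)
  refine Poly.all (p := fun y a => (wt y).2.zipIdx.all (fun b =>
    !decide (a.1.1 = b.1.1) || decide (a.2 = b.2))) h0 ?_
  refine Poly.all (p := fun (p : List Bool × ((List Bool × List Bool) × ℕ)) b =>
    !decide (p.2.1.1 = b.1.1) || decide (p.2.2 = b.2)) (h0.comp (Poly.fst Poly.id)) ?_
  exact Poly.or (Poly.not (Poly.decide_eq (Poly.fst (Poly.fst (Poly.snd (Poly.fst Poly.id))))
    (Poly.fst (Poly.fst (Poly.snd Poly.id))))) (Poly.decide_eq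
      (Poly.snd (Poly.snd (Poly.fst Poly.id))) (Poly.snd (Poly.snd Poly.id)))

omit hbd in
theorem poly_chk3 : Poly chk3 := by
  refine Poly.all (p := fun (p : List Bool × List Bool) a =>
    a.1 || decide ((wt p.1).2.length ≤ a.2)) (Poly.zipIdx (Poly.snd Poly.id)) ?_
  exact Poly.or (Poly.fst (Poly.snd Poly.id)) (Poly.decide_le (Poly.length (Poly.snd
    (poly_wt.comp (Poly.fst (Poly.fst Poly.id))))) (Poly.snd (Poly.snd Poly.id)))

theorem poly_chk : Poly (chk bd θ ρ) := by
  have h1 : Poly (fun p : List Bool × List Bool × List Bool => p.1) := Poly.fst Poly.id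
  have h2 : Poly (fun p : List Bool × List Bool × List Bool => p.2.1) :=
    Poly.fst (Poly.snd Poly.id)
  have h3 : Poly (fun p : List Bool × List Bool × List Bool => p.2.2) :=
    Poly.snd (Poly.snd Poly.id)
  have h4 : UPoly (fun p : List Bool × List Bool × List Bool => bd ρ (2 ^ lev p.1)) := by
    have h5 : Poly (fun p : List Bool × List Bool × List Bool =>
        List.replicate (2 ^ lev p.1) true) := poly_repl (uPoly_powlev.comp h1) true
    have h6 : UPoly (fun p : List Bool × List Bool × List Bool =>
        bd ρ (List.replicate (2 ^ lev p.1) true).length) := (hbd.upoly ρ).comp h5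
    simpa only [List.length_replicate] using h6
  exact Poly.and (Poly.and (Poly.decide_eq (Poly.length (Poly.fst (poly_wt.comp h1)))
    (poly_pow2 h4)) (Poly.decide_eq (Poly.length (Poly.snd (poly_wt.comp h1)))
    (Poly.valBits h3))) (Poly.and ((poly_chk1 hbd θ).comp h1)
      (Poly.and (poly_chk2.comp h1) (poly_chk3.comp (Poly.pair h1 h2))))

end poly

/-! ### The checks mean what they should -/

theorem chk1_iff {Θ : Type} (bd : Θ → ℕ → ℕ) (θ : Θ) (y : List Bool) :
    chk1 bd θ y = true ↔ ∀ q ∈ (wt y).2, q.1.length < 2 ^ lev y ∧ q.1 ≠ inp y ∧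
      q.2.length ≤ 2 ^ bd θ q.1.length := by
  unfold chk1
  rw [List.all_eq_true]
  refine forall_congr' fun q => imp_congr_right fun _ => ?_
  simp only [Bool.and_eq_true, Bool.not_eq_true', decide_eq_true_eq, decide_eq_false_iff_not]
  tauto

theorem chk2_iff (y : List Bool) : chk2 y = true ↔ ((wt y).2.map Prod.fst).Nodup := by
  unfold chk2
  generalize (wt y).2 = l
  have h1 : (l.zipIdx.all (fun a => l.zipIdx.all (fun b =>
      !decide (a.1.1 = b.1.1) || decide (a.2 = b.2))) = true) ↔
      ∀ (i j : ℕ) (a b : List Bool × List Bool), l[i]? = some a → l[j]? = some b →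
        a.1 = b.1 → i = j := by
    rw [List.all_eq_true]
    constructor
    · intro h i j a b hi hj hab
      have h2 := h (a, i) (List.mem_zipIdx_iff_getElem?.2 hi)
      rw [List.all_eq_true] at h2
      have h3 := h2 (b, j) (List.mem_zipIdx_iff_getElem?.2 hj)
      simpa [hab] using h3
    · rintro h ⟨a, i⟩ hi
      rw [List.all_eq_true]
      rintro ⟨b, j⟩ hj
      have h2 := h i j a b (List.mem_zipIdx_iff_getElem?.1 hi) (List.mem_zipIdx_iff_getElem?.1 hj)
      simp only [Bool.or_eq_true, Bool.not_eq_true', decide_eq_true_eq, decide_eq_false_iff_not]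
      tauto
  rw [h1, List.nodup_iff_getElem?_ne_getElem?]
  constructor
  · intro h i j hij hj heq
    rw [List.length_map] at hj
    have hi : i < l.length := hij.trans hj
    rw [List.getElem?_map, List.getElem?_map, List.getElem?_eq_getElem hi,
      List.getElem?_eq_getElem hj] at heq
    simp only [Option.map_some, Option.some.injEq] at heq
    have := h i j l[i] l[j] (List.getElem?_eq_getElem hi) (List.getElem?_eq_getElem hj) heq
    omega
  · intro h i j a b hi hj hab
    by_contra hne
    obtain ⟨hi1, hi2⟩ := List.getElem?_eq_some_iff.1 hi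
    obtain ⟨hj1, hj2⟩ := List.getElem?_eq_some_iff.1 hj
    have e1 : (l.map Prod.fst)[i]? = some a.1 := by rw [List.getElem?_map, hi]; rfl
    have e2 : (l.map Prod.fst)[j]? = some b.1 := by rw [List.getElem?_map, hj]; rfl
    rcases Nat.lt_or_gt_of_ne hne with h3 | h3
    · exact h i j h3 (by rw [List.length_map]; exact hj1) (by rw [e1, e2, hab])
    · exact h j i h3 (by rw [List.length_map]; exact hi1) (by rw [e1, e2, hab])

/-- the votes -/
def vot (V : List Bool → List Bool) (y : List Bool) : List Bool :=
  (List.range y.length).map (fun i => decide (V (tst ((i, y), [])) = [true]))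

theorem chk3_iff (V : List Bool → List Bool) (y : List Bool)
    (hy : (wt y).2.length ≤ y.length) :
    chk3 (y, vot V y) = true ↔ ∀ q ∈ (wt y).2, V (pairBits q.2 q.1) = [true] := by
  unfold chk3
  rw [List.all_eq_true]
  constructor
  · intro h q hq
    obtain ⟨i, hi, hq2⟩ := List.getElem_of_mem hq
    have h1 := h (decide (V (tst ((i, y), [])) = [true]), i) (by
      rw [List.mem_zipIdx_iff_getElem?]
      simp only [vot, List.getElem?_map]
      rw [List.getElem?_range (by omega)]
      rfl)
    simp only [Bool.or_eq_true, decide_eq_true_eq] at h1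
    rcases h1 with h1 | h1
    · unfold tst at h1
      simp only [List.getElem?_eq_getElem hi, hq2] at h1
      exact h1
    · omega
  · rintro h ⟨b, i⟩ hb
    rw [List.mem_zipIdx_iff_getElem?] at hb
    simp only [Bool.or_eq_true, decide_eq_true_eq]
    rcases Nat.lt_or_ge i (wt y).2.length with hi | hi
    · left
      simp only [vot, List.getElem?_map] at hb
      rw [List.getElem?_range (by omega)] at hb
      simp only [Option.map_some, Option.some.injEq] at hb
      rw [← hb, decide_eq_true_eq]
      unfold tst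
      simp only [List.getElem?_eq_getElem hi]
      exact h _ (List.getElem_mem hi)
    · right
      exact hi

/-! ### The census -/

theorem valB_testBit (C n : ℕ) :
    valB ((List.range n).map (fun r => C.testBit r)) = C % 2 ^ n := by
  induction n with
  | zero => simp [Nat.mod_one]
  | succ n ih =>
    rw [List.range_succ, List.map_append, valB_append, ih, List.length_map, List.length_range,
      Nat.mod_pow_succ, List.map_cons, List.map_nil, Nat.testBit_eq_decide_div_mod_eq]
    rcases Nat.mod_two_eq_zero_or_one (C / 2 ^ n) with h | h <;> simp [h]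

theorem cen_eq (L : Set (List Bool)) (l : ℕ) : ∃ S : Finset (List Bool),
    (∀ z, z ∈ S ↔ z.length < l ∧ z ∈ L) ∧ S.card = cen L l := by
  have hfin : {z : List Bool | z.length < l ∧ z ∈ L}.Finite :=
    (List.finite_length_lt Bool l).subset fun z hz => hz.1
  refine ⟨hfin.toFinset, fun z => by simp, ?_⟩
  have h1 := Set.ncard_eq_toFinset_card _ hfin
  rw [← h1]
  exact (Nat.card_coe_set_eq _).symm

theorem cen_lt (L : Set (List Bool)) (l : ℕ) : cen L l < 2 ^ l := by
  obtain ⟨S, hS, hc⟩ := cen_eq L l
  rw [← hc]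
  have h1 : S.card ≤ (Finset.range (2 ^ l - 1)).card := by
    refine Finset.card_le_card_of_injOn idx ?_ ?_
    · intro z hz
      have h2 := (hS z).1 hz
      have h3 := idx_lt z
      have h4 : 2 ^ (z.length + 1) ≤ 2 ^ l := Nat.pow_le_pow_right (by norm_num) h2.1
      simp only [Finset.coe_range, Set.mem_Iio]
      omega
    · intro z _ z' _ h
      rw [← str_idx z, h, str_idx]
  rw [Finset.card_range] at h1
  have h2 : 0 < 2 ^ l := by positivity
  omega

theorem sound {L : Set (List Bool)} {x : List Bool} {K : ℕ} {l : List (List Bool × List Bool)}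
    (hx : x.length < K) (hl : ∀ q ∈ l, q.1.length < K ∧ q.1 ≠ x ∧ q.1 ∈ L)
    (hnd : (l.map Prod.fst).Nodup) (hlen : l.length = cen L K) : x ∉ L := by
  classical
  intro hxL
  obtain ⟨S, hS, hc⟩ := cen_eq L K
  have h1 : (x :: l.map Prod.fst).Nodup := by
    rw [List.nodup_cons]
    refine ⟨?_, hnd⟩
    intro h
    obtain ⟨q, hq, hq2⟩ := List.mem_map.1 h
    exact (hl q hq).2.1 hq2
  have h2 : (x :: l.map Prod.fst).toFinset ⊆ S := by
    intro z hz
    rw [List.mem_toFinset, List.mem_cons] at hz
    rw [hS]
    rcases hz with rfl | hz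
    · exact ⟨hx, hxL⟩
    · obtain ⟨q, hq, rfl⟩ := List.mem_map.1 hz
      exact ⟨(hl q hq).1, (hl q hq).2.2⟩
  have h3 := Finset.card_le_card h2
  rw [List.toFinset_card_of_nodup h1, List.length_cons, List.length_map] at h3
  omega

theorem complete {L : Set (List Bool)} {x : List Bool} {K : ℕ} {G : List Bool → List Bool → Prop}
    (hx : x ∉ L) (hG : ∀ z ∈ L, ∃ w, G z w) : ∃ l : List (List Bool × List Bool),
      (∀ q ∈ l, q.1.length < K ∧ q.1 ≠ x ∧ G q.1 q.2) ∧ (l.map Prod.fst).Nodup ∧
      l.length = cen L K := by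
  classical
  obtain ⟨S, hS, hc⟩ := cen_eq L K
  choose! w hw using hG
  refine ⟨S.toList.map (fun z => (z, w z)), ?_, ?_, ?_⟩
  · intro q hq
    obtain ⟨z, hz, rfl⟩ := List.mem_map.1 hq
    rw [Finset.mem_toList, hS] at hz
    refine ⟨hz.1, ?_, hw z hz.2⟩
    rintro rfl
    exact hx hz.2
  · rw [List.map_map]
    have : (Prod.fst ∘ fun z => (z, w z)) = fun z : List Bool => z := rfl
    rw [this, List.map_id']
    exact S.nodup_toList
  · rw [List.length_map, Finset.length_toList, hc]

/-! ### The size of the witness -/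

theorem size_bound {P Q K : ℕ} {pad : List Bool} {l : List (List Bool × List Bool)}
    (hpad : pad.length = 2 ^ P) (hl : l.length ≤ 2 ^ K)
    (hq : ∀ q ∈ l, q.1.length < K ∧ q.2.length ≤ 2 ^ Q) :
    (bits ((pad, l) : Wt)).length ≤ 2 ^ (P + Q + 2 * K + 5) := by
  rw [bits_length, sz_pair]
  have h1 := sz_listBool_le pad
  have h2 : sz l ≤ l.length * ((4 * K + 4 * 2 ^ Q + 3) + 1) + 1 := by
    refine sz_le_length_mul l _ fun q hq' => ?_
    obtain ⟨h3, h4⟩ := hq q hq'
    obtain ⟨z, w⟩ := q
    have h5 := sz_listBool_le z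
    have h6 := sz_listBool_le w
    rw [sz_pair]
    simp only at h3 h4
    omega
  have hK : K < 2 ^ K := Nat.lt_two_pow_self
  have a1 : 1 ≤ 2 ^ P := Nat.one_le_two_pow
  have a2 : 1 ≤ 2 ^ Q := Nat.one_le_two_pow
  have a3 : 1 ≤ 2 ^ K := Nat.one_le_two_pow
  have e : 2 ^ (P + Q + 2 * K + 5) = 32 * (2 ^ P * (2 ^ Q * (2 ^ K * 2 ^ K))) := by
    rw [pow_add, pow_add, pow_add, two_mul, pow_add]
    ring
  rw [e]
  generalize 2 ^ P = p at *
  generalize 2 ^ Q = q at *
  generalize 2 ^ K = k at *
  have h7 : l.length * ((4 * K + 4 * q + 3) + 1) ≤ k * (12 * (k * q)) := by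
    refine Nat.mul_le_mul hl ?_
    have h8 : k ≤ k * q := Nat.le_mul_of_pos_right _ a2
    have h9 : q ≤ k * q := Nat.le_mul_of_pos_left _ a3
    omega
  have h10 : k * (12 * (k * q)) = 12 * (q * (k * k)) := by ring
  have h11 : q * (k * k) ≤ p * (q * (k * k)) := Nat.le_mul_of_pos_left _ a1
  have h12 : p ≤ p * (q * (k * k)) := Nat.le_mul_of_pos_right _ (by positivity)
  omega

end N13

open N13 in
theorem verifier {Θ : Type} (bd : Θ → ℕ → ℕ) (hbd : Closed bd) (A : Oracle) (M : Alg)
    (V : List Bool → List Bool) (hV : ∀ x, M.out A x = some (V x)) (θ ρ : Θ)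
    (t : ℕ → ℕ → ℕ) (e : ℕ) (ht : ∀ k, t e k = 2 ^ bd ρ (2 ^ k))
    (hcode : ∀ k r, r < 2 ^ k → (A (codeC t e k r) = true ↔
      (cen (LV M (bd θ) A) (2 ^ k)).testBit r = true)) :
    IsNT bd A (LV M (bd θ) A)ᶜ := by
  obtain ⟨θ', hθ'⟩ := hbd.bound θ ρ
  set L : Set (List Bool) := LV M (bd θ) A with hL
  have hmem : ∀ z, z ∈ L ↔ ∃ w : List Bool, w.length ≤ 2 ^ bd θ z.length ∧
      V (pairBits w z) = [true] := by
    intro z
    rw [hL]
    change (∃ w : List Bool, w.length ≤ 2 ^ bd θ z.length ∧
      M.out A (pairBits w z) = some [true]) ↔ _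
    simp only [hV, Option.some.injEq]
  refine ⟨fun y => [chk bd θ ρ (y, vot V y, (qsts e y).map A)], θ', ?_, fun x => ?_⟩
  · have h1 : IsFP A (vot V) := by
      have h := IsFP.votes (A := A) (V := V) ⟨M, hV⟩ Polynomial.X (Q := fun _ => [])
        (NPC.Poly.const []) poly_tst (H := fun p => p.2) (Poly.snd Poly.id)
      simp only [Polynomial.eval_X, List.map_nil] at h
      exact h
    have h2 : IsFP A (fun y => (qsts e y).map A) :=
      IsFP.tt (Q := qsts e) (H := fun p => p.2) (poly_qsts e) (Poly.snd Poly.id)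
    exact IsFP.seq h1 h2 (φ := fun p => p.1) (ψ := fun p => [chk bd θ ρ p]) (Poly.fst Poly.id)
      (Poly.cons (poly_chk hbd θ ρ) (NPC.Poly.const []))
  · have key : ∀ W : List Bool,
        ([chk bd θ ρ (pairBits W x, vot V (pairBits W x), (qsts e (pairBits W x)).map A)] =
          [true]) ↔ (dcw W).1.length = 2 ^ bd ρ (2 ^ x.length.size) ∧
          (dcw W).2.length = cen L (2 ^ x.length.size) ∧
          (∀ q ∈ (dcw W).2, q.1.length < 2 ^ x.length.size ∧ q.1 ≠ x ∧
            q.2.length ≤ 2 ^ bd θ q.1.length) ∧ ((dcw W).2.map Prod.fst).Nodup ∧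
          ∀ q ∈ (dcw W).2, V (pairBits q.2 q.1) = [true] := by
      intro W
      have hwt : wt (pairBits W x) = dcw W := by unfold wt; rw [unpair_pairBits]
      have hinp : N13.inp (pairBits W x) = x := by unfold N13.inp; rw [unpair_pairBits]
      have hlev : lev (pairBits W x) = x.length.size := by unfold lev; rw [hinp]
      have hlen : (wt (pairBits W x)).2.length ≤ (pairBits W x).length := by
        rw [hwt, A2.length_pairBits]
        have := dcw_length W
        omega
      have hch : chk bd θ ρ (pairBits W x, vot V (pairBits W x),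
          (qsts e (pairBits W x)).map A) = true ↔
          ((dcw W).1.length = 2 ^ bd ρ (2 ^ x.length.size) ∧
            (dcw W).2.length = valB ((qsts e (pairBits W x)).map A)) ∧
          (∀ q ∈ (dcw W).2, q.1.length < 2 ^ x.length.size ∧ q.1 ≠ x ∧
            q.2.length ≤ 2 ^ bd θ q.1.length) ∧ ((dcw W).2.map Prod.fst).Nodup ∧
          ∀ q ∈ (dcw W).2, V (pairBits q.2 q.1) = [true] := by
        unfold chk
        simp only [Bool.and_eq_true, decide_eq_true_eq]
        rw [chk1_iff, chk2_iff, chk3_iff V _ hlen, hwt, hinp, hlev]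
      rw [List.cons.injEq, eq_self_iff_true, and_true, hch, and_assoc]
      refine and_congr_right fun hpad => ?_
      have hval : valB ((qsts e (pairBits W x)).map A) = cen L (2 ^ x.length.size) := by
        have h1 : (qsts e (pairBits W x)).map A = (List.range (2 ^ x.length.size)).map
            (fun r => (cen L (2 ^ x.length.size)).testBit r) := by
          unfold qsts
          rw [List.map_map, hlev]
          refine List.map_congr_left fun r hr => ?_
          rw [List.mem_range] at hr
          have h2 : qst e (pairBits W x) r = codeC t e x.length.size r := by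
            unfold qst codeC
            rw [hlev, hwt, hpad, ht, min_eq_left hr.le]
          change A (qst e (pairBits W x) r) = _
          rw [h2, Bool.eq_iff_iff]
          exact hcode _ r hr
        rw [h1, valB_testBit, Nat.mod_eq_of_lt (cen_lt _ _)]
      rw [hval]
    have hx : x.length < 2 ^ x.length.size := Nat.lt_size_self _
    have hK := pow_size_le x.length
    simp only [key]
    constructor
    · intro hxL
      obtain ⟨l, h1, h2, h3⟩ := complete (K := 2 ^ x.length.size)
        (G := fun z w => w.length ≤ 2 ^ bd θ z.length ∧ V (pairBits w z) = [true]) hxL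
        (fun z hz => (hmem z).1 hz)
      refine ⟨bits ((List.replicate (2 ^ bd ρ (2 ^ x.length.size)) true, l) : Wt), ?_, ?_⟩
      · refine (size_bound (P := bd ρ (2 ^ x.length.size)) (Q := bd θ (2 ^ x.length.size))
          (K := 2 ^ x.length.size) (List.length_replicate ..) (by rw [h3]; exact (cen_lt _ _).le)
          ?_).trans ?_
        · intro q hq
          obtain ⟨h4, -, h5, -⟩ := h1 q hq
          exact ⟨h4, h5.trans (Nat.pow_le_pow_right (by norm_num) (hbd.mono θ h4.le))⟩
        · refine Nat.pow_le_pow_right (by norm_num) (le_trans ?_ (hθ' x.length))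
          have h6 := hbd.mono θ hK
          have h7 := hbd.mono ρ hK
          omega
      · rw [dcw_bits]
        refine ⟨List.length_replicate .., h3, fun q hq => ?_, h2, fun q hq => (h1 q hq).2.2.2⟩
        exact ⟨(h1 q hq).1, (h1 q hq).2.1, (h1 q hq).2.2.1⟩
    · rintro ⟨W, -, h1, h2, h3, h4, h5⟩
      exact sound hx (fun q hq => ⟨(h3 q hq).1, (h3 q hq).2.1,
        (hmem _).2 ⟨q.2, (h3 q hq).2.2, h5 q hq⟩⟩) h4 h2

end Pool.Agent.H752.GE
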