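import Pool.Agent.H752.GE.N4
import Pool.Agent.H752.GE.AsymDef
import Pool.Agent.H620R2.Gauge2.CoverN

/-!
# Nullity: the event and the cover (task N6, helper508)
-/

namespace Pool.Agent.H752.GE

open Pool.Agent.NPC Finset H568R2 Pool.Agent.H676 Pool.Agent.H620R2.Gauge

namespace N6

open Classical in
/-- the positions of the strings of the witness number `j` of `x` -/
noncomputable def witS (N : ℕ) (x : List Bool) (j : ℕ) : Finset (Fin N) :=
  univ.filter (fun e => ∃ i < win x.length, str e = witE x j i)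

theorem length_witE (x : List Bool) (j i : ℕ) :
    (witE x j i).length = x.length + 2 ^ x.length + i := by
  unfold witE
  rw [List.length_append, List.length_append, length_bitsOf, List.length_replicate]

theorem witE_inj {x x' : List Bool} (hx : x.length = x'.length) {j j' i i' : ℕ}
    (hj : j < 2 ^ 2 ^ x.length) (hj' : j' < 2 ^ 2 ^ x.length) (h : witE x j i = witE x' j' i') :
    x = x' ∧ j = j' ∧ i = i' := by
  have h1 : i = i' := by
    have := congrArg List.length h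
    rw [length_witE, length_witE, hx] at this
    omega
  subst h1
  unfold witE at h
  have h2 := List.append_cancel_right h
  obtain ⟨h3, h4⟩ := List.append_inj h2 hx
  subst h3
  exact ⟨rfl, bitsOf_inj hj hj' h4, rfl⟩

theorem win_le (m : ℕ) : m + 2 ^ m + win m ≤ 4 * 2 ^ m := by
  unfold win
  have h1 : m < 2 ^ m := Nat.lt_two_pow_self
  omega

theorem idx_lt_N {N : ℕ} {x : List Bool} (hN : 2 ^ (4 * 2 ^ x.length + 1) ≤ N + 1) (j : ℕ)
    {i : ℕ} (hi : i < win x.length) : idx (witE x j i) < N := by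
  have h1 := idx_lt (witE x j i)
  rw [length_witE] at h1
  have h3 := win_le x.length
  have h2 : 2 ^ (x.length + 2 ^ x.length + i + 1) ≤ 2 ^ (4 * 2 ^ x.length + 1) :=
    Nat.pow_le_pow_right (by norm_num) (by omega)
  omega

theorem witS_card {N : ℕ} {x : List Bool} (hN : 2 ^ (4 * 2 ^ x.length + 1) ≤ N + 1) (j : ℕ) :
    (witS N x j).card = win x.length := by
  have hlt : ∀ i, i < win x.length → idx (witE x j i) < N := fun i hi => idx_lt_N hN j hi
  have h := Finset.card_bij (s := Finset.range (win x.length)) (t := witS N x j)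
    (fun i hi => ⟨idx (witE x j i), hlt i (Finset.mem_range.1 hi)⟩) (by
      intro i hi
      rw [witS, Finset.mem_filter]
      exact ⟨Finset.mem_univ _, i, Finset.mem_range.1 hi, str_idx _⟩) (by
      intro i hi i' hi' h
      have h1 : idx (witE x j i) = idx (witE x j i') := by simpa using h
      have h2 : witE x j i = witE x j i' := by
        rw [← str_idx (witE x j i), h1, str_idx]
      have := congrArg List.length h2
      rw [length_witE, length_witE] at this
      omega) (by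
      intro e he
      rw [witS, Finset.mem_filter] at he
      obtain ⟨_, i, hi, h⟩ := he
      refine ⟨i, Finset.mem_range.2 hi, ?_⟩
      apply Fin.ext
      show idx (witE x j i) = e
      rw [← h, idx_str])
  rw [← h, Finset.card_range]

theorem witS_disj {N : ℕ} {x x' : List Bool} (hx : x.length = x'.length) {j j' : ℕ}
    (hj : j < 2 ^ 2 ^ x.length) (hj' : j' < 2 ^ 2 ^ x.length) (hne : (x, j) ≠ (x', j')) :
    Disjoint (witS N x j) (witS N x' j') := by
  rw [Finset.disjoint_left]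
  intro e he he'
  rw [witS, Finset.mem_filter] at he he'
  obtain ⟨_, i, _, hi⟩ := he
  obtain ⟨_, i', _, hi'⟩ := he'
  rw [hi] at hi'
  obtain ⟨h1, h2, _⟩ := witE_inj hx hj hj' hi'
  exact hne (by rw [h1, h2])

/-- the witness sets of an input -/
noncomputable def WS (a N : ℕ) (k : Fin (2 ^ (10 * a))) (j : Fin (2 ^ 2 ^ (10 * a))) :
    Finset (Fin N) := witS N (bitsOf (10 * a) k.val) j.val

theorem hit_iff {a N : ℕ} (hN : 2 ^ (4 * 2 ^ (10 * a) + 1) ≤ N + 1) (A : Oracle)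
    (k : Fin (2 ^ (10 * a))) :
    HitF (WS a N k) (pre N A) ↔ bitsOf (10 * a) k.val ∈ hitE A := by
  have hlen : (bitsOf (10 * a) k.val).length = 10 * a := length_bitsOf _ _
  unfold HitF hitE
  rw [Set.mem_ofPred_eq, hlen]
  constructor
  · rintro ⟨j, hj⟩
    refine ⟨j.val, j.2, fun i hi => ?_⟩
    have hlt : idx (witE (bitsOf (10 * a) k.val) j.val i) < N :=
      idx_lt_N (by rw [hlen]; exact hN) _ (by rw [hlen]; exact hi)
    have h3 := hj ⟨idx (witE (bitsOf (10 * a) k.val) j.val i), hlt⟩ (by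
      rw [WS, witS, Finset.mem_filter]
      exact ⟨Finset.mem_univ _, i, by rw [hlen]; exact hi, str_idx _⟩)
    unfold pre at h3
    simp only at h3
    rwa [str_idx] at h3
  · rintro ⟨j, hj, h⟩
    refine ⟨⟨j, hj⟩, fun e he => ?_⟩
    rw [WS, witS, Finset.mem_filter] at he
    obtain ⟨_, i, hi, hei⟩ := he
    rw [hlen] at hi
    unfold pre
    rw [hei]
    exact h i hi

theorem ite_inst {p q : Prop} (h : p ↔ q) (i : Decidable p) (j : Decidable q) :
    @ite ℝ p i 1 0 = @ite ℝ q j 1 0 := by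
  by_cases hp : p
  · rw [if_pos hp, if_pos (h.1 hp)]
  · rw [if_neg hp, if_neg (fun hq => hp (h.2 hq))]

/-- The event. -/
def EvU (M : Alg) (b a N : ℕ) (x : Fin N → Bool) : Prop :=
  ∀ k : Fin (2 ^ (10 * a)),
    (QF (2 ^ b) (leaf M N) 1 true (bitsOf (10 * a) k.val) x = true ↔ ¬ HitF (WS a N k) x)

open Classical in
theorem evU_bound (M : Alg) {a b N : ℕ} (ha : 1 ≤ a)
    (hp : 2 ^ a * (1 + 2 * M.p.eval (10 * a + (2 * 2 ^ b + 1))) ≤ 2 ^ 2 ^ (10 * a))
    (hN : 2 ^ (4 * 2 ^ (10 * a) + 1) ≤ N + 1) :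
    Ex unif (fun x : Fin N → Bool => if EvU M b a N x then (1 : ℝ) else 0) ≤
      16 * (1 / 2) ^ a := by
  have hlen : ∀ k : Fin (2 ^ (10 * a)), (bitsOf (10 * a) k.val).length = 10 * a :=
    fun k => length_bitsOf _ _
  have key := ne_comb (κ := Fin (2 ^ (10 * a))) (J := Fin (2 ^ 2 ^ (10 * a)))
    (n := 2 ^ (10 * a)) (p := M.p.eval (10 * a + (2 * 2 ^ b + 1))) ha (by simp) (by simp) hp
    (WS a N) ?_ ?_ (fun k => QF (2 ^ b) (leaf M N) 1 true (bitsOf (10 * a) k.val)) ?_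
  · refine le_trans (le_of_eq ?_) key
    refine congrArg (Ex unif) (funext fun x => ?_)
    exact ite_inst Iff.rfl _ _
  · intro k j
    rw [WS, witS_card (by rw [hlen]; exact hN), hlen, win,
      Nat.mul_div_cancel_left a (by norm_num)]
  · intro k j k' j' hne
    apply witS_disj
    · rw [hlen, hlen]
    · rw [hlen]; exact j.2
    · rw [hlen]; exact j'.2
    · intro he
      apply hne
      rw [Prod.mk.injEq] at he
      rw [Prod.mk.injEq]
      exact ⟨Fin.ext (bitsOf_inj k.2 k'.2 he.1), Fin.ext he.2⟩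
  · intro k
    apply cert_QF (ℓ := 10 * a + (2 * 2 ^ b + 1))
    · intro y hy
      exact (dtr_out M N y).mono (eval_mono M.p hy)
    · rw [hlen]

/-- the oracles for which the parameters are good -/
def EasyU {Θ : Type} (bd : Θ → ℕ → ℕ) (θ : Alg × Θ) : Set Oracle :=
  {A | ∃ V : List Bool → List Bool, (∀ x, θ.1.out A x = some (V x)) ∧
    ∀ x, x ∈ (hitE A)ᶜ ↔ ∃ w : List Bool, w.length ≤ 2 ^ bd θ.2 x.length ∧
      V (pairBits w x) = [true]}

theorem evU_of_easy {Θ : Type} (bd : Θ → ℕ → ℕ) (θ : Alg × Θ) : ∃ Q : Polynomial ℕ,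
    ∀ A ∈ EasyU bd θ, ∀ a N : ℕ,
    2 ^ (Q.eval (10 * a + (2 * 2 ^ bd θ.2 (10 * a) + 1)) + 4 * 2 ^ (10 * a) + 1) ≤ N →
      EvU θ.1 (bd θ.2 (10 * a)) a N (pre N A) := by
  obtain ⟨qb, hqb⟩ := Alg.out_local θ.1
  refine ⟨qb, ?_⟩
  rintro A ⟨V, hM, hx⟩ a N hN k
  set ℓ := 10 * a + (2 * 2 ^ bd θ.2 (10 * a) + 1) with hℓ
  have hV : ∀ y : List Bool, y.length ≤ ℓ → (V y = [true] ↔ leaf θ.1 N y (pre N A) = true) := by
    intro y hy
    obtain ⟨Q, _, hQl, hQA⟩ := hqb A y
    have h1 : θ.1.out (orc N (pre N A)) y = θ.1.out A y := by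
      apply hQA
      intro q hq
      apply orc_pre
      have h2 := idx_lt q
      have h3 : q.length ≤ qb.eval ℓ := (hQl q hq).trans (eval_mono _ hy)
      have h4 : 2 ^ (q.length + 1) ≤ 2 ^ (qb.eval ℓ + 4 * 2 ^ (10 * a) + 1) :=
        Nat.pow_le_pow_right (by norm_num) (by omega)
      omega
    unfold leaf
    rw [h1, hM y, decide_eq_true_eq, Option.some.injEq]
  have hlen : (bitsOf (10 * a) k.val).length = 10 * a := length_bitsOf _ _
  have hN' : 2 ^ (4 * 2 ^ (10 * a) + 1) ≤ N + 1 := by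
    have h4 : 2 ^ (4 * 2 ^ (10 * a) + 1) ≤ 2 ^ (qb.eval ℓ + 4 * 2 ^ (10 * a) + 1) :=
      Nat.pow_le_pow_right (by norm_num) (by omega)
    omega
  have h3 := quant_iff (m := 2 ^ bd θ.2 (10 * a)) ℓ hV 1 true (bitsOf (10 * a) k.val) (by
    rw [hlen, hℓ]; omega)
  rw [hit_iff hN', ← h3]
  have h1 := hx (bitsOf (10 * a) k.val)
  rw [hlen] at h1
  exact h1.symm

theorem mem_easyU {Θ : Type} {bd : Θ → ℕ → ℕ} {A : Oracle} (h : IsNT bd A (hitE A)ᶜ) :
    ∃ θ, A ∈ EasyU bd θ := by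
  obtain ⟨V, θ, ⟨M, hM⟩, hx⟩ := h
  exact ⟨⟨M, θ⟩, V, hM, hx⟩

end N6

open N6

theorem nullU {Θ : Type} [Countable Θ] (bd : Θ → ℕ → ℕ) (f : ℕ → ℝ) (hf : AsymU bd f)
    (O : Set Oracle) (hO : ∀ A ∈ O, IsNT bd A (hitE A)ᶜ) : Null f O := by
  refine (null_iUnion (f := f) (EasyU bd) fun θ => ?_).mono fun A hA => ?_
  · intro δ hδ
    obtain ⟨Q, hQ⟩ := evU_of_easy bd θ
    obtain ⟨a, N, ha, hp, hN, hb⟩ := hf θ.2 θ.1.p Q δ hδ
    have hN2 : 2 ^ (4 * 2 ^ (10 * a) + 1) ≤ N + 1 :=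
      le_trans (Nat.pow_le_pow_right (by norm_num) (by omega)) (hN.trans (Nat.le_succ _))
    refine cover_of_event (EvU θ.1 (bd θ.2 (10 * a)) a N) (EasyU bd θ)
      (fun A hA => hQ A hA a N hN) f δ ?_
    have hev := evU_bound θ.1 (b := bd θ.2 (10 * a)) ha hp hN2
    exact (mul_le_mul_of_nonneg_right hev (by positivity)).trans hb
  · obtain ⟨θ, hθ⟩ := mem_easyU (hO A hA)
    exact Set.mem_iUnion.2 ⟨θ, hθ⟩

end Pool.Agent.H752.GE
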