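import Pool.Agent.H752.GE.AsymDef

/-! Project GAUGE-E, task N7 (helper682): asymptotics for NE -/

namespace Pool.Agent.H752.GE

namespace N7

open Filter

/-- a polynomial with natural coefficients is bounded by a power -/
theorem poly_bound (P : Polynomial ℕ) : ∃ C : ℕ, 1 ≤ C ∧ ∀ a : ℕ, P.eval a ≤ (a + 2) ^ C := by
  induction P using Polynomial.induction_on' with
  | add p q hp hq =>
    obtain ⟨C1, h1, hC1⟩ := hp
    obtain ⟨C2, h2, hC2⟩ := hq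
    refine ⟨C1 + C2 + 1, by omega, fun m => ?_⟩
    rw [Polynomial.eval_add]
    have e1 : (m + 2) ^ C1 ≤ (m + 2) ^ (C1 + C2) := Nat.pow_le_pow_right (by omega) (by omega)
    have e2 : (m + 2) ^ C2 ≤ (m + 2) ^ (C1 + C2) := Nat.pow_le_pow_right (by omega) (by omega)
    calc p.eval m + q.eval m ≤ (m + 2) ^ C1 + (m + 2) ^ C2 := add_le_add (hC1 m) (hC2 m)
      _ ≤ (m + 2) ^ (C1 + C2) * 2 := by omega
      _ ≤ (m + 2) ^ (C1 + C2) * (m + 2) := Nat.mul_le_mul_left _ (by omega)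
      _ = (m + 2) ^ (C1 + C2 + 1) := (pow_succ _ _).symm
  | monomial n c =>
    refine ⟨n + c + 1, by omega, fun m => ?_⟩
    rw [Polynomial.eval_monomial]
    have e1 : c ≤ (m + 2) ^ c :=
      (Nat.lt_two_pow_self).le.trans (Nat.pow_le_pow_left (by omega) c)
    have e2 : m ^ n ≤ (m + 2) ^ n := Nat.pow_le_pow_left (by omega) n
    calc c * m ^ n ≤ (m + 2) ^ c * (m + 2) ^ n := Nat.mul_le_mul e1 e2
      _ = (m + 2) ^ (c + n) := (pow_add _ _ _).symm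
      _ ≤ (m + 2) ^ (n + c + 1) := Nat.pow_le_pow_right (by omega) (by omega)

/-- evaluation at the length of the inputs -/
theorem eval_bound (P : Polynomial ℕ) : ∃ C : ℕ, 1 ≤ C ∧ ∀ a B : ℕ,
    P.eval (10 * a + (2 * 2 ^ B + 1)) ≤ 2 ^ (C * (B + 10 * a + 3)) := by
  obtain ⟨C, h1, hC⟩ := poly_bound P
  refine ⟨C, h1, fun a B => ?_⟩
  refine (hC _).trans ?_
  rw [mul_comm C, pow_mul]
  apply Nat.pow_le_pow_left
  have e1 : 10 * a < 2 ^ (10 * a) := Nat.lt_two_pow_self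
  have e2 : 1 ≤ 2 ^ B := Nat.one_le_two_pow
  have e3 : 1 ≤ 2 ^ (10 * a) := Nat.one_le_two_pow
  have e4 : 2 ^ (B + 10 * a + 3) = 2 ^ B * 2 ^ (10 * a) * 8 := by
    rw [pow_add, pow_add]; norm_num
  rw [e4]
  have e5 : 2 ^ B ≤ 2 ^ B * 2 ^ (10 * a) := Nat.le_mul_of_pos_right _ (by omega)
  have e6 : 2 ^ (10 * a) ≤ 2 ^ B * 2 ^ (10 * a) := Nat.le_mul_of_pos_left _ (by omega)
  omega

/-- powers are smaller than exponentials -/
theorem pow_le_exp (D : ℕ) : ∀ᶠ a : ℕ in atTop, (a + 2) ^ D ≤ 2 ^ (10 * a) := by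
  have h := (tendsto_pow_const_div_const_pow_of_one_lt D (one_lt_two (α := ℝ))).comp
    (tendsto_add_atTop_nat 2)
  have h1 := h.eventually (gt_mem_nhds (show (0 : ℝ) < 1 by norm_num))
  filter_upwards [h1, eventually_ge_atTop 1] with a ha ha1
  simp only [Function.comp] at ha
  rw [div_lt_one (by positivity)] at ha
  have h2 : (a + 2) ^ D ≤ 2 ^ (a + 2) := by
    have : (((a + 2) ^ D : ℕ) : ℝ) < ((2 ^ (a + 2) : ℕ) : ℝ) := by push_cast; push_cast at ha; exact ha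
    exact_mod_cast this.le
  exact h2.trans (Nat.pow_le_pow_right (by norm_num) (by omega))

/-- the common part of the two asymptotic statements -/
theorem core {Θ : Type} (bd : Θ → ℕ → ℕ) (f : ℕ → ℝ) (θ : Θ) (P Q : Polynomial ℕ) (δ : ℝ)
    (hδ : 0 < δ) (G : ℕ → ℕ) (hG : StrictMono G) (h : ℝ → ℝ)
    (hf : ∃ᶠ N : ℕ in atTop, f N ≤ h (Real.logb 2 (Real.logb 2 N)))
    (hh : ∀ᶠ a : ℕ in atTop, ∀ x : ℝ, (G a : ℝ) ≤ x → x < G (a + 1) → h x ≤ a / 2)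
    (hA : ∀ᶠ a : ℕ in atTop,
      Q.eval (10 * a + (2 * 2 ^ bd θ (10 * a) + 1)) + 4 * 2 ^ (10 * a) + 1 ≤ 2 ^ G a)
    (hB : ∀ᶠ a : ℕ in atTop,
      2 ^ a * (1 + 2 * P.eval (10 * a + (2 * 2 ^ bd θ (10 * a) + 1))) ≤ 2 ^ 2 ^ (10 * a)) :
    ∃ a N : ℕ, 1 ≤ a ∧
    2 ^ a * (1 + 2 * P.eval (10 * a + (2 * 2 ^ bd θ (10 * a) + 1))) ≤ 2 ^ 2 ^ (10 * a) ∧
    2 ^ (Q.eval (10 * a + (2 * 2 ^ bd θ (10 * a) + 1)) + 4 * 2 ^ (10 * a) + 1) ≤ N ∧
    16 * (1 / 2 : ℝ) ^ a * 2 ^ f N ≤ δ := by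
  have hD : ∀ᶠ a : ℕ in atTop, 16 * (1 / 2 : ℝ) ^ a * 2 ^ ((a : ℝ) / 2) ≤ δ := by
    have h1 : Tendsto (fun a : ℕ => 16 * ((2 : ℝ) ^ (-(1 : ℝ) / 2)) ^ a) atTop (nhds (16 * 0)) :=
      (tendsto_pow_atTop_nhds_zero_of_lt_one (by positivity)
        (Real.rpow_lt_one_of_one_lt_of_neg (by norm_num) (by norm_num))).const_mul 16
    rw [mul_zero] at h1
    filter_upwards [h1.eventually (gt_mem_nhds hδ)] with a ha
    refine le_trans (le_of_eq ?_) ha.le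
    rw [mul_assoc]
    congr 1
    rw [← Real.rpow_natCast ((2 : ℝ) ^ (-(1 : ℝ) / 2)), ← Real.rpow_mul (by norm_num),
      one_div, ← Real.rpow_natCast, Real.inv_rpow (by norm_num), ← Real.rpow_neg (by norm_num),
      ← Real.rpow_add (by norm_num)]
    congr 1
    ring
  obtain ⟨a0, ha0⟩ := eventually_atTop.1
    ((hh.and (hA.and (hB.and (hD.and (eventually_ge_atTop 1))))))
  have hlog : Tendsto (fun N : ℕ => Real.logb 2 (Real.logb 2 N)) atTop atTop :=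
    (Real.tendsto_logb_atTop (by norm_num)).comp
      ((Real.tendsto_logb_atTop (by norm_num)).comp tendsto_natCast_atTop_atTop)
  obtain ⟨N, hN1, hN2, hN3, hN4⟩ := (hf.and_eventually
    ((hlog.eventually_ge_atTop (G a0 : ℝ)).and ((eventually_gt_atTop 1).and
      (((Real.tendsto_logb_atTop (b := 2) (by norm_num)).comp
        tendsto_natCast_atTop_atTop).eventually_gt_atTop (0 : ℝ))))).exists
  simp only [Function.comp] at hN4
  set x := Real.logb 2 (Real.logb 2 N) with hx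
  have hex : ∃ b : ℕ, x < G b := by
    obtain ⟨m, hm⟩ := exists_nat_gt x
    exact ⟨m, hm.trans_le (by exact_mod_cast hG.id_le m)⟩
  classical
  obtain ⟨b, hb, hbmin⟩ : ∃ b : ℕ, x < G b ∧ ∀ c < b, ¬ x < G c :=
    ⟨Nat.find hex, Nat.find_spec hex, fun c hc => Nat.find_min hex hc⟩
  have hba : a0 < b := by
    by_contra hcon
    have : G b ≤ G a0 := hG.monotone (not_lt.1 hcon)
    have h2 : (G b : ℝ) ≤ G a0 := by exact_mod_cast this
    linarith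
  obtain ⟨a, rfl⟩ : ∃ a, b = a + 1 := ⟨b - 1, by omega⟩
  have hax : (G a : ℝ) ≤ x := not_lt.1 (hbmin a (by omega))
  obtain ⟨c1, c2, c3, c4, c5⟩ := ha0 a (by omega)
  refine ⟨a, N, c5, c3, ?_, ?_⟩
  · refine (Nat.pow_le_pow_right (by norm_num) c2).trans ?_
    have h1 : (2 : ℝ) ^ (G a : ℝ) ≤ Real.logb 2 N := by
      rw [hx, Real.le_logb_iff_rpow_le (by norm_num) hN4] at hax
      exact hax
    have h2 : (2 : ℝ) ^ ((2 : ℝ) ^ (G a : ℝ)) ≤ N := by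
      rw [Real.le_logb_iff_rpow_le (by norm_num) (by positivity)] at h1
      exact h1
    rw [Real.rpow_natCast] at h2
    have h3 : (2 : ℝ) ^ G a = ((2 ^ G a : ℕ) : ℝ) := by push_cast; rfl
    rw [h3, Real.rpow_natCast] at h2
    exact_mod_cast h2
  · refine le_trans ?_ c4
    apply mul_le_mul_of_nonneg_left _ (by positivity)
    apply Real.rpow_le_rpow_of_exponent_le (by norm_num)
    exact hN1.trans (c1 x hax hb)

/-- simplified conditions -/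
theorem core' {Θ : Type} (bd : Θ → ℕ → ℕ) (f : ℕ → ℝ) (θ : Θ) (P : Polynomial ℕ) (δ : ℝ)
    (C : ℕ) (Q : Polynomial ℕ) (hC : ∀ a B : ℕ,
      Q.eval (10 * a + (2 * 2 ^ B + 1)) ≤ 2 ^ (C * (B + 10 * a + 3)))
    (hδ : 0 < δ) (G : ℕ → ℕ) (hG : StrictMono G) (h : ℝ → ℝ)
    (hf : ∃ᶠ N : ℕ in atTop, f N ≤ h (Real.logb 2 (Real.logb 2 N)))
    (hh : ∀ᶠ a : ℕ in atTop, ∀ x : ℝ, (G a : ℝ) ≤ x → x < G (a + 1) → h x ≤ a / 2)
    (hA : ∀ a : ℕ, C * (bd θ (10 * a) + 10 * a + 3) + 10 * a + 4 ≤ G a)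
    (hB : ∃ D : ℕ, ∀ a : ℕ, bd θ (10 * a) ≤ (a + 2) ^ D) :
    ∃ a N : ℕ, 1 ≤ a ∧
    2 ^ a * (1 + 2 * P.eval (10 * a + (2 * 2 ^ bd θ (10 * a) + 1))) ≤ 2 ^ 2 ^ (10 * a) ∧
    2 ^ (Q.eval (10 * a + (2 * 2 ^ bd θ (10 * a) + 1)) + 4 * 2 ^ (10 * a) + 1) ≤ N ∧
    16 * (1 / 2 : ℝ) ^ a * 2 ^ f N ≤ δ := by
  refine core bd f θ P Q δ hδ G hG h hf hh (Eventually.of_forall fun a => ?_) ?_
  · refine le_trans ?_ (Nat.pow_le_pow_right (by norm_num) (hA a))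
    have h1 := hC a (bd θ (10 * a))
    generalize C * (bd θ (10 * a) + 10 * a + 3) = E at *
    have e4 : 2 ^ (E + 10 * a + 4) = 2 ^ E * 2 ^ (10 * a) * 16 := by
      rw [pow_add, pow_add]; norm_num
    have e2 : 1 ≤ 2 ^ E := Nat.one_le_two_pow
    have e3 : 1 ≤ 2 ^ (10 * a) := Nat.one_le_two_pow
    have e5 : 2 ^ E ≤ 2 ^ E * 2 ^ (10 * a) := Nat.le_mul_of_pos_right _ (by omega)
    have e6 : 2 ^ (10 * a) ≤ 2 ^ E * 2 ^ (10 * a) := Nat.le_mul_of_pos_left _ (by omega)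
    rw [e4]
    omega
  · obtain ⟨K, hK1, hK⟩ := eval_bound P
    obtain ⟨D, hD⟩ := hB
    -- a polynomial bound for the exponent
    filter_upwards [pow_le_exp (D + K + 10)] with a ha
    have h1 := hK a (bd θ (10 * a))
    have h2 := hD a
    have h3 : 2 ^ a * (1 + 2 * P.eval (10 * a + (2 * 2 ^ bd θ (10 * a) + 1))) ≤
        2 ^ (a + 2 + K * (bd θ (10 * a) + 10 * a + 3)) := by
      generalize K * (bd θ (10 * a) + 10 * a + 3) = E at *
      have e2 : 1 ≤ 2 ^ E := Nat.one_le_two_pow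
      have e4 : 2 ^ (a + 2 + E) = 2 ^ a * (2 ^ E * 4) := by
        rw [pow_add, pow_add]; ring
      rw [e4]
      apply Nat.mul_le_mul_left
      omega
    refine h3.trans (Nat.pow_le_pow_right (by norm_num) (le_trans ?_ ha))
    have g0 : 2 ≤ a + 2 := by omega
    have g1 : a + 2 ≤ (a + 2) ^ (D + K + 9) := Nat.le_self_pow (by omega) _
    have g2 : K ≤ (a + 2) ^ K :=
      (Nat.lt_two_pow_self).le.trans (Nat.pow_le_pow_left (by omega) K)
    have g3 : 10 * a + 3 ≤ (a + 2) ^ 4 * (a + 2) ^ D := by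
      have g4 : 1 ≤ (a + 2) ^ D := Nat.one_le_pow _ _ (by omega)
      have g5 : 10 * a + 3 ≤ (a + 2) ^ 4 := by
        have g6 : (a + 2) ^ 4 = a ^ 4 + 8 * a ^ 3 + 24 * a ^ 2 + 32 * a + 16 := by ring
        rw [g6]
        omega
      exact g5.trans (Nat.le_mul_of_pos_right _ (by omega))
    have g8 : bd θ (10 * a) + 10 * a + 3 ≤ (a + 2) ^ 5 * (a + 2) ^ D := by
      have g9 : (a + 2) ^ 5 = (a + 2) ^ 4 * (a + 2) := by ring
      have g10 : 1 ≤ (a + 2) ^ 4 := Nat.one_le_pow _ _ (by omega)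
      have g11 : 1 ≤ (a + 2) ^ D := Nat.one_le_pow _ _ (by omega)
      rw [g9]
      have g12 : (a + 2) ^ D ≤ (a + 2) ^ 4 * (a + 2) ^ D := Nat.le_mul_of_pos_left _ (by omega)
      have g13 : (a + 2) ^ 4 * (a + 2) * (a + 2) ^ D = (a + 2) * ((a + 2) ^ 4 * (a + 2) ^ D) := by ring
      rw [g13]
      have g14 : 2 * ((a + 2) ^ 4 * (a + 2) ^ D) ≤ (a + 2) * ((a + 2) ^ 4 * (a + 2) ^ D) :=
        Nat.mul_le_mul_right _ g0
      omega
    have g15 : K * (bd θ (10 * a) + 10 * a + 3) ≤ (a + 2) ^ (D + K + 5) := by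
      calc K * (bd θ (10 * a) + 10 * a + 3) ≤ (a + 2) ^ K * ((a + 2) ^ 5 * (a + 2) ^ D) :=
            Nat.mul_le_mul g2 g8
        _ = (a + 2) ^ (D + K + 5) := by ring
    have g16 : (a + 2) ^ (D + K + 5) ≤ (a + 2) ^ (D + K + 9) :=
      Nat.pow_le_pow_right (by omega) (by omega)
    have g17 : (a + 2) ^ (D + K + 10) = (a + 2) ^ (D + K + 9) * (a + 2) := pow_succ _ _
    rw [g17]
    have g18 : (a + 2) ^ (D + K + 9) * 2 ≤ (a + 2) ^ (D + K + 9) * (a + 2) :=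
      Nat.mul_le_mul_left _ g0
    omega

end N7

theorem asymE {f : ℕ → ℝ} (hf : ∀ ε : ℝ, 0 < ε → ∃ᶠ N : ℕ in Filter.atTop,
    f N ≤ ε * Real.logb 2 (Real.logb 2 N)) : AsymU bdE f := by
  intro c P Q δ hδ
  obtain ⟨C, hC1, hC⟩ := N7.eval_bound Q
  set κ : ℕ := C * (10 * c + 13) + 10 with hκ
  have hκ0 : (0 : ℝ) < κ := by
    have : 0 < κ := by omega
    exact_mod_cast this
  refine N7.core' bdE f c P δ C Q hC hδ (fun a => κ * (a + 1)) ?_ (fun x => 1 / (4 * κ) * x)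
    (hf _ (by positivity)) ?_ ?_ ?_
  · intro a b hab
    exact Nat.mul_lt_mul_of_pos_left (by omega) (by omega)
  · filter_upwards [Filter.eventually_ge_atTop 2] with a ha x _ hx2
    have h2 : (2 : ℝ) ≤ a := by exact_mod_cast ha
    push_cast at hx2
    have h3 : 1 / (4 * (κ : ℝ)) * x ≤ 1 / (4 * κ) * (κ * (a + 1 + 1)) :=
      mul_le_mul_of_nonneg_left hx2.le (by positivity)
    refine h3.trans ?_
    have h4 : 1 / (4 * (κ : ℝ)) * (κ * (a + 1 + 1)) = (a + 2) / 4 := by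
      field_simp
      ring
    rw [h4]
    linarith
  · intro a
    simp only [bdE, hκ]
    have h1 : c * (10 * a + 1) + 10 * a + 3 ≤ (10 * c + 13) * (a + 1) := by nlinarith
    have h2 := Nat.mul_le_mul_left C h1
    nlinarith
  · refine ⟨c + 5, fun a => ?_⟩
    simp only [bdE]
    have e1 : c ≤ (a + 2) ^ c :=
      (Nat.lt_two_pow_self).le.trans (Nat.pow_le_pow_left (by omega) c)
    have g0 : 2 ≤ a + 2 := by omega
    have g5 : 10 * a + 1 ≤ (a + 2) ^ 5 := by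
      have g6 : (a + 2) ^ 5 = (a + 2) * (a + 2) ^ 4 := by ring
      have g7 : 2 ^ 4 ≤ (a + 2) ^ 4 := Nat.pow_le_pow_left g0 4
      nlinarith
    calc c * (10 * a + 1) ≤ (a + 2) ^ c * (a + 2) ^ 5 := Nat.mul_le_mul e1 g5
      _ = (a + 2) ^ (c + 5) := (pow_add _ _ _).symm

end Pool.Agent.H752.GE
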