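import Pool.Agent.H752.GE.N7

/-! Project GAUGE-E, task N8 (helper682): asymptotics for NEXP -/

namespace Pool.Agent.H752.GE

theorem asymX {f : ℕ → ℝ} (hf : ∀ ε : ℝ, 0 < ε → ∃ᶠ N : ℕ in Filter.atTop,
    f N ≤ (Real.logb 2 (Real.logb 2 N)) ^ ε) : AsymU bdX f := by
  intro p P Q δ hδ
  obtain ⟨C, hC1, hC⟩ := N7.eval_bound Q
  obtain ⟨D, hD1, hD⟩ := N7.poly_bound (Polynomial.C C * (p.comp (Polynomial.C 10 * Polynomial.X) +
    Polynomial.C 10 * Polynomial.X + Polynomial.C 3) + Polynomial.C 10 * Polynomial.X +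
      Polynomial.C 4)
  simp only [Polynomial.eval_add, Polynomial.eval_mul, Polynomial.eval_comp, Polynomial.eval_C,
    Polynomial.eval_X] at hD
  have hD0 : (0 : ℝ) < D := by exact_mod_cast hD1
  refine N7.core' bdX f p P δ C Q hC hδ (fun a => (a + 2) ^ D) ?_ (fun x => x ^ (1 / (2 * (D : ℝ))))
    (hf _ (by positivity)) ?_ ?_ ?_
  · intro a b hab
    exact Nat.pow_lt_pow_left (by omega) (by omega)
  · filter_upwards [Filter.eventually_ge_atTop 6] with a ha x hx1 hx2
    have h2 : (6 : ℝ) ≤ a := by exact_mod_cast ha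
    push_cast at hx1 hx2
    have hx0 : 0 ≤ x := le_trans (by positivity) hx1
    have h3 : x ^ (1 / (2 * (D : ℝ))) ≤ (((a : ℝ) + 1 + 2) ^ D) ^ (1 / (2 * (D : ℝ))) :=
      Real.rpow_le_rpow hx0 hx2.le (by positivity)
    refine h3.trans ?_
    rw [← Real.rpow_natCast, ← Real.rpow_mul (by positivity)]
    have h4 : (D : ℝ) * (1 / (2 * (D : ℝ))) = 1 / 2 := by field_simp
    rw [h4, ← Real.sqrt_eq_rpow]
    rw [Real.sqrt_le_left (by positivity)]
    nlinarith
  · intro a
    exact hD a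
  · obtain ⟨D', _, hD'⟩ := N7.poly_bound (p.comp (Polynomial.C 10 * Polynomial.X))
    refine ⟨D', fun a => ?_⟩
    have := hD' a
    simp only [Polynomial.eval_comp, Polynomial.eval_mul, Polynomial.eval_C,
      Polynomial.eval_X] at this
    exact this

end Pool.Agent.H752.GE
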