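import Pool.Agent.H752.GE.Base
import Pool.Agent.H620R2.Gauge.C

/-! # Coding the census -/

set_option autoImplicit false

namespace Pool.Agent.H752.GE

open Pool.Agent.NPC Finset H568R2 Pool.Agent.H620R2.Gauge

namespace N9

theorem codeC_inj (t : ℕ → ℕ → ℕ) {e k r e' k' r' : ℕ} (h : codeC t e k r = codeC t e' k' r') :
    e = e' ∧ k = k' ∧ r = r' := by
  obtain ⟨h1, h2⟩ := CC.rep_inj _ _ _ _ h
  obtain ⟨h3, h4⟩ := CC.rep_inj _ _ _ _ h2
  obtain ⟨_, h6⟩ := CC.rep_inj _ _ _ _ h4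
  refine ⟨h1, h3, ?_⟩
  have := congrArg List.length h6
  simpa using this

theorem lt_length_codeC (t : ℕ → ℕ → ℕ) (e k r : ℕ) : t e k < (codeC t e k r).length := by
  unfold codeC
  simp only [List.length_append, List.length_replicate, List.length_cons]
  omega

open Classical in
/-- the oracle -/
noncomputable def Phi (t : ℕ → ℕ → ℕ) (V : ℕ → ℕ → ℕ → Oracle → Prop) (B : Oracle)
    (y : List Bool) : Bool :=
  if h : ∃ p : ℕ × ℕ × ℕ, p.2.2 < 2 ^ p.2.1 ∧ y = codeC t p.1 p.2.1 p.2.2 then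
    decide (V h.choose.1 h.choose.2.1 h.choose.2.2
      (fun z => if _hz : z.length < y.length then Phi t V B z else false))
  else B y
termination_by y.length

theorem Phi_not (t : ℕ → ℕ → ℕ) (V : ℕ → ℕ → ℕ → Oracle → Prop) (B : Oracle)
    (y : List Bool) (h : ∀ e k r, r < 2 ^ k → y ≠ codeC t e k r) : Phi t V B y = B y := by
  rw [Phi, dif_neg]
  rintro ⟨p, hp1, hp2⟩
  exact h _ _ _ hp1 hp2

open Classical in
theorem Phi_code (t : ℕ → ℕ → ℕ) (V : ℕ → ℕ → ℕ → Oracle → Prop) (B : Oracle)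
    (hV : ∀ e k r A A', (∀ z : List Bool, z.length < (codeC t e k r).length → A z = A' z) →
      (V e k r A ↔ V e k r A')) (e k r : ℕ) (hr : r < 2 ^ k) :
    Phi t V B (codeC t e k r) = true ↔ V e k r (Phi t V B) := by
  have h : ∃ p : ℕ × ℕ × ℕ, p.2.2 < 2 ^ p.2.1 ∧ codeC t e k r = codeC t p.1 p.2.1 p.2.2 :=
    ⟨(e, k, r), hr, rfl⟩
  rw [Phi, dif_pos h, decide_eq_true_iff]
  obtain ⟨h1, h2, h3⟩ := codeC_inj t h.choose_spec.2
  rw [← h1, ← h2, ← h3]
  apply hV
  intro z hz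
  rw [dif_pos hz]

theorem cen_congr {L L' : Set (List Bool)} {l : ℕ}
    (h : ∀ x : List Bool, x.length < l → (x ∈ L ↔ x ∈ L')) : cen L l = cen L' l := by
  unfold cen
  apply Nat.card_congr
  apply Equiv.subtypeEquivRight
  intro x
  exact and_congr_right (h x)

theorem exists_enum (Θ : Type) [Countable Θ] [Nonempty Θ] :
    ∃ g : ℕ → Alg × Θ, Function.Surjective g := by
  have h1 : Nonempty Alg := ⟨⟨_, CC.const_polyTime [], 0⟩⟩
  have h2 : Countable Alg := Alg.countable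
  exact exists_surjective_nat _

end N9

open N9 in
theorem exists_census {Θ : Type} [Countable Θ] [Nonempty Θ] (bd : Θ → ℕ → ℕ)
    (hbd : ∀ θ, Monotone (bd θ)) :
    ∃ (g : ℕ → Alg × Θ) (q : ℕ → Polynomial ℕ), Function.Surjective g ∧
      ∀ t : ℕ → ℕ → ℕ,
        (∀ e k, (q e).eval (2 * 2 ^ bd (g e).2 (2 ^ k) + 1 + 2 ^ k) ≤ t e k) →
        ∃ Φ : Oracle → Oracle,
          (∀ B y, (∀ e k r, r < 2 ^ k → y ≠ codeC t e k r) → Φ B y = B y) ∧
          ∀ B e k r, r < 2 ^ k → (Φ B (codeC t e k r) = true ↔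
            (cen (LV (g e).1 (bd (g e).2) (Φ B)) (2 ^ k)).testBit r = true) := by
  obtain ⟨g, hg⟩ := exists_enum Θ
  choose q hq using fun e : ℕ => Alg.out_local (g e).1
  refine ⟨g, q, hg, fun t ht => ?_⟩
  set V : ℕ → ℕ → ℕ → Oracle → Prop := fun e k r A =>
    (cen (LV (g e).1 (bd (g e).2) A) (2 ^ k)).testBit r = true with hV
  refine ⟨Phi t V, fun B y h => Phi_not t V B y h, fun B e k r hr => ?_⟩
  refine Phi_code t V B ?_ e k r hr
  intro e k r A A' hAA
  have hout : ∀ (x w : List Bool), x.length < 2 ^ k → w.length ≤ 2 ^ bd (g e).2 x.length →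
      (g e).1.out A (pairBits w x) = (g e).1.out A' (pairBits w x) := by
    intro x w hx hw
    obtain ⟨Q, _, hQ, hloc⟩ := hq e A' (pairBits w x)
    refine hloc A fun z hz => hAA z ?_
    refine lt_of_le_of_lt (hQ z hz) (lt_of_le_of_lt ?_ (lt_length_codeC t e k r))
    refine le_trans ?_ (ht e k)
    apply eval_mono
    rw [length_pairBits]
    have h1 : 2 ^ bd (g e).2 x.length ≤ 2 ^ bd (g e).2 (2 ^ k) :=
      Nat.pow_le_pow_right (by norm_num) (hbd _ hx.le)
    omega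
  have hcen : cen (LV (g e).1 (bd (g e).2) A) (2 ^ k) =
      cen (LV (g e).1 (bd (g e).2) A') (2 ^ k) := by
    apply cen_congr
    intro x hx
    constructor
    · rintro ⟨w, hw, h⟩
      exact ⟨w, hw, by rw [← hout x w hx hw]; exact h⟩
    · rintro ⟨w, hw, h⟩
      exact ⟨w, hw, by rw [hout x w hx hw]; exact h⟩
  simp only [hV, hcen]

end Pool.Agent.H752.GE
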