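import Pool.Agent.H752.GE.N5
import Pool.Agent.H752.GE.N6
import Pool.Agent.H752.GE.N7
import Pool.Agent.H752.GE.N8
import Pool.Agent.H752.GE.N9
import Pool.Agent.H752.GE.N10
import Pool.Agent.H752.GE.N11
import Pool.Agent.H752.GE.N13
import Pool.Agent.H620R2.GaugeR.R8
import Pool.Agent.H620R2.Gauge.C

/-! Thresholds for `NE = coNE` and `NEXP = coNEXP`. -/

namespace Pool.Agent.H752.GE

open Pool.Agent.NPC Finset H568R2 Pool.Agent.H676 Pool.Agent.H620R2.Gauge MeasureTheory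

open Classical in
theorem not_null_gen {Θ : Type} [Countable Θ] [Nonempty Θ] (bd : Θ → ℕ → ℕ) (hbd : Closed bd)
    (f bnd : ℕ → ℝ)
    (hsp : ∀ (c : ℕ → Θ) (q : ℕ → Polynomial ℕ), ∃ ρ : ℕ → Θ,
      (∀ e k, (q e).eval (2 * 2 ^ bd (c e) (2 ^ k) + 1 + 2 ^ k) ≤ 2 ^ bd (ρ e) (2 ^ k)) ∧
      ∀ᶠ N : ℕ in Filter.atTop, (((Finset.range N).filter (fun i => ∃ e k r, r < 2 ^ k ∧
        str i = codeC (fun e k => 2 ^ bd (ρ e) (2 ^ k)) e k r)).card : ℝ) ≤ bnd N)
    (hf : ∀ᶠ N : ℕ in Filter.atTop, bnd N < f N) (O : Set Oracle)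
    (hO : ∀ A : Oracle, (∀ L, IsNT bd A L → IsNT bd A Lᶜ) → A ∈ O) : ¬ Null f O := by
  obtain ⟨g, q, hg, hΦ⟩ := exists_census bd hbd.mono
  obtain ⟨ρ, hρ, hcount⟩ := hsp (fun e => (g e).2) q
  set t : ℕ → ℕ → ℕ := fun e k => 2 ^ bd (ρ e) (2 ^ k) with ht
  obtain ⟨Φ, h1, h2⟩ := hΦ t hρ
  set T : Set (List Bool) := {y | ∃ e k r, r < 2 ^ k ∧ y = codeC t e k r} with hT
  -- the constant
  obtain ⟨N₀, hN₀⟩ := Filter.eventually_atTop.1 (hf.and hcount)
  obtain ⟨c, hc0, hc⟩ : ∃ c : ℝ, 0 ≤ c ∧ ∀ N < N₀,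
      (((Finset.range N).filter (fun i => str i ∈ T)).card : ℝ) ≤ f N + c := by
    refine ⟨∑ N ∈ Finset.range N₀, |(((Finset.range N).filter (fun i => str i ∈ T)).card : ℝ) - f N|,
      Finset.sum_nonneg fun _ _ => abs_nonneg _, fun N hN => ?_⟩
    have h3 := Finset.single_le_sum
      (f := fun N => |(((Finset.range N).filter (fun i => str i ∈ T)).card : ℝ) - f N|)
      (fun _ _ => abs_nonneg _) (Finset.mem_range.2 hN)
    linarith [le_abs_self ((((Finset.range N).filter (fun i => str i ∈ T)).card : ℝ) - f N)]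
  refine not_null_of f Set.univ (by simp [ranO]) Φ T ?_ c ?_ O ?_
  · intro B y hy
    refine h1 B y fun e k r hr h => hy ⟨e, k, r, hr, h⟩
  · intro N
    by_cases hN : N < N₀
    · exact hc N hN
    · obtain ⟨h3, h4⟩ := hN₀ N (not_lt.1 hN)
      have h5 : (((Finset.range N).filter (fun i => str i ∈ T)).card : ℝ) ≤ bnd N := by
        refine le_trans (le_of_eq ?_) h4
        rfl
      linarith
  · intro B _
    apply hO
    rintro L ⟨V, θ, ⟨M, hM⟩, hL⟩
    obtain ⟨e, he⟩ := hg (M, θ)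
    have hLV : L = LV M (bd θ) (Φ B) := by
      ext x
      rw [hL x]
      unfold LV
      rw [Set.mem_ofPred_eq]
      simp only [hM, Option.some.injEq]
    rw [hLV]
    refine verifier bd hbd (Φ B) M V hM θ (ρ e) t e (fun k => rfl) ?_
    intro k r hr
    have h3 := h2 B e k r hr
    rw [he] at h3
    exact h3

theorem null_ne_iff (f : ℕ → ℝ) :
    Null f {A | ∀ L, IsNE A L ↔ IsNE A Lᶜ} ↔
      ∀ ε : ℝ, 0 < ε → ∃ᶠ N : ℕ in Filter.atTop, f N ≤ ε * Real.logb 2 (Real.logb 2 N) := by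
  constructor
  · intro hnull
    by_contra hcon
    push Not at hcon
    obtain ⟨ε, hε, h⟩ := hcon
    refine not_null_gen bdE closedE f (fun N => ε * Real.logb 2 (Real.logb 2 N))
      (fun c q => sparseE c q ε hε) h _ ?_ hnull
    intro A hA L
    refine ⟨fun h => hA L h, fun h => ?_⟩
    have h2 := hA Lᶜ h
    rw [compl_compl] at h2
    exact h2
  · intro hf
    refine nullU bdE f (asymE hf) _ fun A hA => ?_
    exact (hA (hitE A)).1 (hitE_ne A)

theorem IsNE.isNEXP {A : Oracle} {L : Set (List Bool)} (h : IsNE A L) : IsNEXP A L := by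
  obtain ⟨V, c, hV, hL⟩ := h
  refine ⟨V, Polynomial.C c * (Polynomial.X + 1), hV, fun x => ?_⟩
  rw [hL x]
  simp

theorem null_nexp_iff (f : ℕ → ℝ) :
    Null f {A | ∀ L, IsNEXP A L ↔ IsNEXP A Lᶜ} ↔
      ∀ ε : ℝ, 0 < ε → ∃ᶠ N : ℕ in Filter.atTop, f N ≤ (Real.logb 2 (Real.logb 2 N)) ^ ε := by
  have : Countable (Polynomial ℕ) := CC.poly_countable
  constructor
  · intro hnull
    by_contra hcon
    push Not at hcon
    obtain ⟨ε, hε, h⟩ := hcon
    refine not_null_gen bdX closedX f (fun N => (Real.logb 2 (Real.logb 2 N)) ^ ε)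
      (fun c q => sparseX c q ε hε) h _ ?_ hnull
    intro A hA L
    refine ⟨fun h => hA L h, fun h => ?_⟩
    have h2 := hA Lᶜ h
    rw [compl_compl] at h2
    exact h2
  · intro hf
    refine nullU bdX f (asymX hf) _ fun A hA => ?_
    exact (hA (hitE A)).1 (hitE_ne A).isNEXP

end Pool.Agent.H752.GE
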