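import Pool.Agent.H752.GE.Base2
import Pool.Agent.H620R2.Gauge2.V3
import Pool.Agent.H620R2.Gauge2.V4

/-!
# Deterministic tests with certificates that may touch all blocks (task G1)
-/

namespace Pool.Agent.H752.GE

open Pool.Agent.NPC Finset H568R2 Pool.Agent.H676 Pool.Agent.H620R2.Gauge

namespace G1

variable {I κ J : Type*} [Fintype I] [DecidableEq I] [Fintype κ] [Fintype J]

open Classical in
/-- the factor of the block `k` -/
noncomputable def term (W : κ → J → Finset I) (V : κ → (I → Bool) → Bool) (S : Finset κ) (k : κ)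
    (a : I → Bool) : ℝ :=
  if k ∈ S then (if HitF (W k) a ∨ V k a = false then 1 else 0) else
    (if (V k a = true ↔ HitF (W k) a) then (if HitF (W k) a then 1 else 3 / 2) else 0)

open Classical in
/-- the product over all blocks -/
noncomputable def Psi (W : κ → J → Finset I) (V : κ → (I → Bool) → Bool) (S : Finset κ)
    (a : I → Bool) : ℝ := ∏ k : κ, term W V S k a

open Classical in
theorem term_mix (W : κ → J → Finset I) (V : κ → (I → Bool) → Bool) (S : Finset κ) (k' : κ)
    (a x : I → Bool) (h : HitF (W k') x ↔ HitF (W k') a) :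
    term W V S k' x = (if k' ∈ S then 1 else (if HitF (W k') a then 1 else 3 / 2)) *
      (if (k' ∈ S → HitF (W k') a ∨ V k' x = false) ∧
        (k' ∉ S → (V k' x = true ↔ HitF (W k') a)) then (1 : ℝ) else 0) := by
  unfold term
  rw [h]
  by_cases hS : k' ∈ S
  · simp [hS]
  · simp [hS]

open Classical in
theorem step {n p : ℕ} (hJ : Fintype.card J = 2 ^ n)
    (hp : 2 * (Fintype.card κ * p) ≤ 2 ^ n) (W : κ → J → Finset I)
    (hW : ∀ k j, (W k j).card = n)
    (hd : ∀ k j k' j', (k, j) ≠ (k', j') → Disjoint (W k j) (W k' j'))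
    (V : κ → (I → Bool) → Bool) (hV : ∀ k b, Cert p b (V k)) (S : Finset κ) (k : κ) (hk : k ∉ S) :
    Ex unif (Psi W V S) ≤ Ex unif (Psi W V (insert k S)) := by
  set B : Finset I := univ.biUnion (fun j => W k j) with hBdef
  have hB : ∀ i, i ∈ B ↔ ∃ j, i ∈ W k j := by
    intro i
    simp [B]
  have hmix : ∀ (a b : I → Bool) (i : I), i ∉ B → mix B b a i = a i := by
    intro a b i hi
    simp [mix, hi]
  have hmix' : ∀ (a b : I → Bool) (i : I), i ∈ B → mix B b a i = b i := by
    intro a b i hi
    simp [mix, hi]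
  have hh1 : ∀ (a b : I → Bool), HitF (W k) (mix B b a) ↔ HitF (W k) b := by
    intro a b
    exact hitF_congr _ _ _ fun j i hi => hmix' a b i ((hB i).2 ⟨j, hi⟩)
  have hh2 : ∀ (a b : I → Bool) (k' : κ), k' ≠ k → (HitF (W k') (mix B b a) ↔ HitF (W k') a) := by
    intro a b k' hk'
    refine hitF_congr _ _ _ fun j i hi => hmix a b i ?_
    intro hiB
    obtain ⟨j', hj'⟩ := (hB i).1 hiB
    exact Finset.disjoint_left.1 (hd k' j k j' (fun h => hk' (Prod.ext_iff.1 h).1)) hi hj'
  -- the difference
  set R : (I → Bool) → ℝ := fun x => ∏ k' ∈ univ.erase k, term W V S k' x with hR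
  have hsplit1 : ∀ x, Psi W V S x = term W V S k x * R x := fun x =>
    (Finset.mul_prod_erase univ (fun k' => term W V S k' x) (Finset.mem_univ k)).symm
  have hsplit2 : ∀ x, Psi W V (insert k S) x = term W V (insert k S) k x * R x := by
    intro x
    have h1 := (Finset.mul_prod_erase univ (fun k' => term W V (insert k S) k' x)
      (Finset.mem_univ k)).symm
    have h2 : ∏ k' ∈ univ.erase k, term W V (insert k S) k' x = R x := by
      refine Finset.prod_congr rfl fun k' hk' => ?_
      have hne : k' ≠ k := Finset.ne_of_mem_erase hk'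
      unfold term
      simp only [Finset.mem_insert, hne, false_or]
    rw [← h2]
    exact h1
  have hdiff : ∀ x, Psi W V S x = Psi W V (insert k S) x +
      (1 / 2 * (R x * (if ¬ HitF (W k) x ∧ V k x = false then (1 : ℝ) else 0)) +
        (-1) * (R x * (if HitF (W k) x ∧ V k x = false then (1 : ℝ) else 0))) := by
    intro x
    rw [hsplit1, hsplit2]
    have h3 : term W V S k x = term W V (insert k S) k x +
        (1 / 2 * (if ¬ HitF (W k) x ∧ V k x = false then (1 : ℝ) else 0) +
        (-1) * (if HitF (W k) x ∧ V k x = false then (1 : ℝ) else 0)) := by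
      unfold term
      by_cases hh : HitF (W k) x
      · cases hv : V k x <;> simp [hk, hh]
      · cases hv : V k x
        · simp [hk, hh]; norm_num
        · simp [hk, hh]
    rw [h3]
    ring
  have hkey : Ex unif (fun x => R x * (if ¬ HitF (W k) x ∧ V k x = false then (1 : ℝ) else 0)) ≤
      2 * Ex unif (fun x => R x * (if HitF (W k) x ∧ V k x = false then (1 : ℝ) else 0)) := by
    rw [← Ex_mix B (fun x => R x * (if ¬ HitF (W k) x ∧ V k x = false then (1 : ℝ) else 0)),
      ← Ex_mix B (fun x => R x * (if HitF (W k) x ∧ V k x = false then (1 : ℝ) else 0)),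
      ← Ex_smul]
    refine Ex_mono unif_nonneg fun a => ?_
    -- the event
    obtain ⟨G, hGdef⟩ : ∃ G : (I → Bool) → Prop, ∀ b, G b ↔ ((∀ k' ∈ univ.erase k,
      ((k' ∈ S → HitF (W k') a ∨ V k' (mix B b a) = false) ∧
        (k' ∉ S → (V k' (mix B b a) = true ↔ HitF (W k') a)))) ∧ V k (mix B b a) = false) :=
      ⟨_, fun _ => Iff.rfl⟩
    let C : ℝ := ∏ k' ∈ univ.erase k, (if k' ∈ S then 1 else (if HitF (W k') a then 1 else 3 / 2))
    have hC : 0 ≤ C := by
      refine Finset.prod_nonneg fun k' _ => ?_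
      split_ifs <;> norm_num
    have hRb : ∀ b, R (mix B b a) = C * (if ∀ k' ∈ univ.erase k,
        ((k' ∈ S → HitF (W k') a ∨ V k' (mix B b a) = false) ∧
        (k' ∉ S → (V k' (mix B b a) = true ↔ HitF (W k') a))) then (1 : ℝ) else 0) := by
      intro b
      have h4 : R (mix B b a) = ∏ k' ∈ univ.erase k,
          ((if k' ∈ S then 1 else (if HitF (W k') a then 1 else 3 / 2)) *
          (if (k' ∈ S → HitF (W k') a ∨ V k' (mix B b a) = false) ∧
            (k' ∉ S → (V k' (mix B b a) = true ↔ HitF (W k') a)) then (1 : ℝ) else 0)) := by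
        refine Finset.prod_congr rfl fun k' hk' => ?_
        exact term_mix W V S k' a (mix B b a) (hh2 a b k' (Finset.ne_of_mem_erase hk'))
      rw [h4, Finset.prod_mul_distrib]
      congr 1
      by_cases hall : ∀ k' ∈ univ.erase k,
        ((k' ∈ S → HitF (W k') a ∨ V k' (mix B b a) = false) ∧
        (k' ∉ S → (V k' (mix B b a) = true ↔ HitF (W k') a)))
      · rw [if_pos hall]
        refine Finset.prod_eq_one fun k' hk' => ?_
        rw [if_pos (hall k' hk')]
      · rw [if_neg hall]
        obtain ⟨k', hk'⟩ := not_forall.1 hall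
        obtain ⟨hk1, hk2⟩ := Classical.not_imp.1 hk'
        refine Finset.prod_eq_zero hk1 ?_
        rw [if_neg hk2]
    have hG : ∀ b, G b → ∃ A : Finset I, A.card ≤ Fintype.card κ * p ∧
        ∀ y : I → Bool, (∀ i ∈ A, y i = b i) → G y := by
      intro b hGb
      have hc : ∀ k' : κ, ∃ A : Finset I, A.card ≤ p ∧
          ∀ y, (∀ i ∈ A, y i = mix B b a i) → V k' y = V k' (mix B b a) := fun k' =>
        hV k' (V k' (mix B b a)) (mix B b a) rfl
      choose A hA1 hA2 using hc
      refine ⟨univ.biUnion A, ?_, fun y hy => ?_⟩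
      · refine (Finset.card_biUnion_le_card_mul _ _ p fun k' _ => hA1 k').trans ?_
        rw [Finset.card_univ]
      · have heq : ∀ k' : κ, V k' (mix B y a) = V k' (mix B b a) := by
          intro k'
          refine hA2 k' _ fun i hi => ?_
          by_cases hiB : i ∈ B
          · rw [hmix' a y i hiB, hmix' a b i hiB]
            exact hy i (Finset.mem_biUnion.2 ⟨k', Finset.mem_univ _, hi⟩)
          · rw [hmix a y i hiB, hmix a b i hiB]
        obtain ⟨g1, g2⟩ := (hGdef b).1 hGb
        refine (hGdef y).2 ⟨fun k' hk' => ?_, ?_⟩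
        · rw [heq k']
          exact g1 k' hk'
        · rw [heq k]
          exact g2
    have hs := single_block hJ hp (W k) (hW k)
      (fun j j' hjj => hd k j k j' (fun h => hjj (Prod.ext_iff.1 h).2)) G hG
    have e1 : ∀ b, R (mix B b a) *
        (if ¬ HitF (W k) (mix B b a) ∧ V k (mix B b a) = false then (1 : ℝ) else 0) =
        C * (if ¬ HitF (W k) b ∧ G b then (1 : ℝ) else 0) := by
      intro b
      rw [hRb, mul_assoc]
      congr 1
      rw [hh1]
      by_cases h5 : ¬ HitF (W k) b ∧ V k (mix B b a) = false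
      · rw [if_pos h5, mul_one]
        by_cases h6 : ∀ k' ∈ univ.erase k,
            ((k' ∈ S → HitF (W k') a ∨ V k' (mix B b a) = false) ∧
            (k' ∉ S → (V k' (mix B b a) = true ↔ HitF (W k') a)))
        · rw [if_pos h6, if_pos ⟨h5.1, (hGdef b).2 ⟨h6, h5.2⟩⟩]
        · rw [if_neg h6, if_neg (fun h => h6 ((hGdef b).1 h.2).1)]
      · rw [if_neg h5, mul_zero, if_neg (fun h => h5 ⟨h.1, ((hGdef b).1 h.2).2⟩)]
    have e2 : ∀ b, R (mix B b a) *
        (if HitF (W k) (mix B b a) ∧ V k (mix B b a) = false then (1 : ℝ) else 0) =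
        C * (if HitF (W k) b ∧ G b then (1 : ℝ) else 0) := by
      intro b
      rw [hRb, mul_assoc]
      congr 1
      rw [hh1]
      by_cases h5 : HitF (W k) b ∧ V k (mix B b a) = false
      · rw [if_pos h5, mul_one]
        by_cases h6 : ∀ k' ∈ univ.erase k,
            ((k' ∈ S → HitF (W k') a ∨ V k' (mix B b a) = false) ∧
            (k' ∉ S → (V k' (mix B b a) = true ↔ HitF (W k') a)))
        · rw [if_pos h6, if_pos ⟨h5.1, (hGdef b).2 ⟨h6, h5.2⟩⟩]
        · rw [if_neg h6, if_neg (fun h => h6 ((hGdef b).1 h.2).1)]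
      · rw [if_neg h5, mul_zero, if_neg (fun h => h5 ⟨h.1, ((hGdef b).1 h.2).2⟩)]
    rw [funext e1, funext e2, Ex_smul, Ex_smul]
    nlinarith [mul_le_mul_of_nonneg_left hs hC]
  rw [funext hdiff, Ex_add, Ex_add, Ex_smul, Ex_smul]
  linarith

open Classical in
theorem chain {n p : ℕ} (hJ : Fintype.card J = 2 ^ n)
    (hp : 2 * (Fintype.card κ * p) ≤ 2 ^ n) (W : κ → J → Finset I)
    (hW : ∀ k j, (W k j).card = n)
    (hd : ∀ k j k' j', (k, j) ≠ (k', j') → Disjoint (W k j) (W k' j'))
    (V : κ → (I → Bool) → Bool) (hV : ∀ k b, Cert p b (V k)) (S : Finset κ) :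
    Ex unif (Psi W V ∅) ≤ Ex unif (Psi W V S) := by
  induction S using Finset.induction_on with
  | empty => exact le_rfl
  | insert k S hk ih => exact ih.trans (step hJ hp W hW hd V hV S k hk)

open Classical in
theorem sel {n p : ℕ} (hJ : Fintype.card J = 2 ^ n)
    (hp : 2 * (Fintype.card κ * p) ≤ 2 ^ n) (W : κ → J → Finset I)
    (hW : ∀ k j, (W k j).card = n)
    (hd : ∀ k j k' j', (k, j) ≠ (k', j') → Disjoint (W k j) (W k' j'))
    (V : κ → (I → Bool) → Bool) (hV : ∀ k b, Cert p b (V k)) :
    Ex unif (Psi W V ∅) ≤ 1 := by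
  refine (chain hJ hp W hW hd V hV univ).trans ?_
  have h1 : ∀ a, Psi W V univ a ≤ 1 := by
    intro a
    refine Finset.prod_le_one (fun k _ => ?_) (fun k _ => ?_)
    · unfold term
      simp only [Finset.mem_univ, if_true]
      split_ifs <;> norm_num
    · unfold term
      simp only [Finset.mem_univ, if_true]
      split_ifs <;> norm_num
  refine (Ex_mono unif_nonneg h1).trans ?_
  rw [Ex_const unif_sum]

open Classical in
theorem Psi_empty (W : κ → J → Finset I) (V : κ → (I → Bool) → Bool) (a : I → Bool)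
    (h : ∀ k, (V k a = true ↔ HitF (W k) a)) :
    Psi W V ∅ a = (3 / 2 : ℝ) ^ (univ.filter (fun k => ¬ HitF (W k) a)).card := by
  unfold Psi
  rw [← Finset.prod_const, Finset.prod_filter]
  refine Finset.prod_congr rfl fun k _ => ?_
  unfold term
  by_cases hh : HitF (W k) a
  · simp [h k, hh]
  · simp [h k, hh]

end G1

section

variable {I κ J : Type*} [Fintype I] [DecidableEq I] [Fintype κ] [Fintype J]

open Classical in
/-- deterministic tests with certificates that may touch all blocks -/
theorem det_comb {n p s : ℕ} (hn : 1 ≤ n) (hκ : Fintype.card κ = 16 * s)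
    (hJ : Fintype.card J = 2 ^ n) (hp : 2 * (Fintype.card κ * p) ≤ 2 ^ n) (W : κ → J → Finset I)
    (hW : ∀ k j, (W k j).card = n)
    (hd : ∀ k j k' j', (k, j) ≠ (k', j') → Disjoint (W k j) (W k' j'))
    (V : κ → (I → Bool) → Bool) (hV : ∀ k b, Cert p b (V k)) :
    Ex unif (fun a => if ∀ k, (V k a = true ↔ HitF (W k) a) then (1 : ℝ) else 0) ≤
      2 * (1 / 2) ^ s := by
  have hsel := G1.sel hJ hp W hW hd V hV
  have htail := no_hit_tail hn hκ hJ W hW hd
  have hpsi0 : ∀ a, 0 ≤ G1.Psi W V ∅ a := by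
    intro a
    refine Finset.prod_nonneg fun k _ => ?_
    unfold G1.term
    split_ifs <;> norm_num
  have hpt : ∀ a : I → Bool, (if ∀ k, (V k a = true ↔ HitF (W k) a) then (1 : ℝ) else 0) ≤
      (1 / 2 : ℝ) ^ s * G1.Psi W V ∅ a +
        (if (univ.filter (fun k => ¬ HitF (W k) a)).card < 2 * s then (1 : ℝ) else 0) := by
    intro a
    have hnn := mul_nonneg (pow_nonneg (by norm_num : (0 : ℝ) ≤ 1 / 2) s) (hpsi0 a)
    split_ifs with h1 h2
    · linarith
    · rw [G1.Psi_empty W V a h1, add_zero]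
      push Not at h2
      calc (1 : ℝ) ≤ (1 / 2 : ℝ) ^ s * (3 / 2) ^ (2 * s) := by
            rw [pow_mul, ← mul_pow]
            exact one_le_pow₀ (by norm_num)
        _ ≤ _ := mul_le_mul_of_nonneg_left (pow_le_pow_right₀ (by norm_num) h2) (by positivity)
    · linarith
    · linarith
  refine (Ex_mono unif_nonneg hpt).trans ?_
  rw [Ex_add, Ex_smul]
  have h3 : (0 : ℝ) ≤ (1 / 2) ^ s := by positivity
  nlinarith

end

end Pool.Agent.H752.GE
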