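import Pool.Agent.H752.GE.Base2
import Pool.Agent.H620R2.Gauge.C

/-! # Enumerating the languages in `ESPACE` (task G10, helper782; a port of `exists_coding` in
`Pool.Agent.H620R2.Gauge.C`) -/

set_option autoImplicit false

namespace Pool.Agent.H752.GE

open Pool.Agent.NPC Finset H568R2 Pool.Agent.H620R2.Gauge

namespace G10

/-- the next action has polynomially bounded length -/
theorem act_length (M : SAlg) : ∃ b : Polynomial ℕ, ∀ (x a : List Bool) (T : ℕ),
    x.length ≤ T → a.length ≤ T → (M.act (pairBits x a)).length ≤ b.eval T := by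
  obtain ⟨q, hq⟩ := (H622R2.poly_of_polyTime M.act_poly).sz_le
  refine ⟨q.comp (Polynomial.C 4 * (Polynomial.C 3 * Polynomial.X + Polynomial.C 1) +
    Polynomial.C 1), fun x a T hx ha => ?_⟩
  have h1 := length_lt_sz (M.act (pairBits x a))
  refine h1.le.trans ((hq _).trans ?_)
  rw [Polynomial.eval_comp]
  apply eval_mono
  have h2 := sz_listBool_le (pairBits x a)
  rw [length_pairBits] at h2
  simp only [Polynomial.eval_add, Polynomial.eval_mul, Polynomial.eval_C, Polynomial.eval_X]
  omega

theorem exists_enum : ∃ g : ℕ → SAlg × ℕ, Function.Surjective g := by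
  have h2 := CC.salg_countable
  exact exists_surjective_nat _

end G10

open G10 in
theorem exists_espace : ∃ (V : ℕ → Oracle → List Bool → Prop) (c : ℕ → ℕ) (q : ℕ → Polynomial ℕ),
    (∀ e A A' x, (∀ z : List Bool, z.length ≤ (q e).eval (2 ^ (c e * (x.length + 1)) + x.length) →
      A z = A' z) → (V e A x ↔ V e A' x)) ∧
    ∀ A L, IsESPACE A L → ∃ e, ∀ x, x ∈ L ↔ V e A x := by
  obtain ⟨g, hg⟩ := exists_enum
  choose b hb using fun e : ℕ => act_length (g e).1
  refine ⟨fun e A x => CC.Acc (g e).1
    (CC.cut ((b e).eval (2 ^ ((g e).2 * (x.length + 1)) + x.length)) A) x,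
    fun e => (g e).2, b, ?_, ?_⟩
  · intro e A A' x h
    have hcut : CC.cut ((b e).eval (2 ^ ((g e).2 * (x.length + 1)) + x.length)) A =
        CC.cut ((b e).eval (2 ^ ((g e).2 * (x.length + 1)) + x.length)) A' := by
      funext z
      unfold CC.cut
      split_ifs with hz
      · exact h z hz
      · rfl
    simp only [hcut]
  · rintro A L ⟨M, c, hM⟩
    obtain ⟨e, he⟩ := hg (M, c)
    refine ⟨e, fun x => ?_⟩
    have hbe := hb e
    simp only [he] at hbe ⊢
    obtain ⟨hM1, s, z, hs, hz, hL⟩ := hM x
    have hcong : ∀ s, M.Reach (CC.cut ((b e).eval (2 ^ (c * (x.length + 1)) + x.length)) A) x s ↔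
        M.Reach A x s := by
      refine CC.reach_congr (fun s => s.length ≤ 2 ^ (c * (x.length + 1))) hM1 ?_
      intro s q h1 h2
      have h3 := hbe x s (2 ^ (c * (x.length + 1)) + x.length) (by omega) (by omega)
      rw [h2, List.length_cons] at h3
      unfold CC.cut
      rw [if_pos (by omega)]
    constructor
    · intro hx
      refine ⟨s, (hcong s).2 hs, ?_⟩
      rw [hz, hL.1 hx]
    · rintro ⟨t, ht, ht2⟩
      have hst := CC.reach_unique hs ((hcong t).1 ht) ⟨_, hz⟩ ⟨_, ht2⟩
      rw [hst, ht2] at hz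
      simp only [List.cons.injEq, true_and] at hz
      exact hL.2 hz.symm

end Pool.Agent.H752.GE
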