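import Pool.Agent.H752.GE.Base2
import Pool.Agent.H752.GE.N10

/-!
# Task G11: the number of coded positions (deterministic linear-exponential time)
-/

namespace Pool.Agent.H752.GE

open Pool.Agent.NPC Finset H568R2 Pool.Agent.H620R2.Gauge

namespace G11

theorem eval_mono' (q : Polynomial ℕ) {a b : ℕ} (h : a ≤ b) : q.eval a ≤ q.eval b := by
  rw [Polynomial.eval_eq_sum_range, Polynomial.eval_eq_sum_range]
  exact Finset.sum_le_sum fun i _ => Nat.mul_le_mul le_rfl (Nat.pow_le_pow_left h i)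

theorem length_codeS (t : ℕ → ℕ → ℕ) (e : ℕ) (x : List Bool) :
    t e x.length ≤ (codeS t e x).length := by
  unfold codeS
  simp only [List.length_append, List.length_cons, List.length_replicate]
  omega

open Classical in
/-- counting -/
theorem count (ρ : ℕ → ℕ) (K : ℕ) (hK : 1 ≤ K) (h1 : ∀ e, K ≤ ρ e) (h2 : ∀ e, e + 1 ≤ ρ e)
    (N : ℕ) (hN : 2 ≤ N) :
    ((Finset.range N).filter (fun i => ∃ e x,
        str i = codeS (fun e m => 2 ^ (ρ e * (m + 1))) e x)).card ≤
      Nat.log 2 (Nat.log 2 N) * 2 ^ (Nat.log 2 (Nat.log 2 N) / K) := by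
  set Y : ℕ := Nat.log 2 (Nat.log 2 N) with hY
  have hℓ : 1 ≤ Nat.log 2 N := Nat.log_pos (by norm_num) hN
  have hsub : (Finset.range N).filter (fun i => ∃ e x,
        str i = codeS (fun e m => 2 ^ (ρ e * (m + 1))) e x) ⊆
      (range Y ×ˢ range (2 ^ (Y / K))).image fun p =>
        idx (codeS (fun e m => 2 ^ (ρ e * (m + 1))) p.1 (str p.2)) := by
    intro i hi
    rw [Finset.mem_filter, Finset.mem_range] at hi
    obtain ⟨hiN, e, x, hs⟩ := hi
    rw [Finset.mem_image]
    have hlen : (str i).length = Nat.log 2 (i + 1) := length_str i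
    have hlog : Nat.log 2 (i + 1) ≤ Nat.log 2 N := Nat.log_mono_right (by omega)
    have h3 : 2 ^ (ρ e * (x.length + 1)) ≤ Nat.log 2 N := by
      refine le_trans (length_codeS (fun e m => 2 ^ (ρ e * (m + 1))) e x) ?_
      rw [← hs, hlen]
      exact hlog
    have h4 : ρ e * (x.length + 1) ≤ Y := by
      rw [hY]
      exact Nat.le_log_of_pow_le (by norm_num) h3
    have h5 : e < Y := by
      have h6 : ρ e * 1 ≤ ρ e * (x.length + 1) := Nat.mul_le_mul le_rfl (by omega)
      have := h2 e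
      omega
    have h6 : x.length + 1 ≤ Y / K := by
      rw [Nat.le_div_iff_mul_le (by omega)]
      refine le_trans ?_ h4
      rw [Nat.mul_comm]
      exact Nat.mul_le_mul (h1 e) le_rfl
    refine ⟨(e, idx x), ?_, ?_⟩
    · rw [Finset.mem_product]
      refine ⟨Finset.mem_range.2 h5, Finset.mem_range.2 ?_⟩
      have h7 := idx_lt x
      have h8 : 2 ^ (x.length + 1) ≤ 2 ^ (Y / K) := Nat.pow_le_pow_right (by norm_num) h6
      show idx x < 2 ^ (Y / K)
      omega
    · show idx (codeS (fun e m => 2 ^ (ρ e * (m + 1))) e (str (idx x))) = i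
      rw [str_idx, ← hs, idx_str]
  refine le_trans (Finset.card_le_card hsub) (le_trans Finset.card_image_le ?_)
  rw [Finset.card_product, Finset.card_range, Finset.card_range]

end G11

open G11 in
open Classical in
theorem sparseS (c : ℕ → ℕ) (q : ℕ → Polynomial ℕ) (ε : ℝ) (hε : 0 < ε) :
    ∃ ρ : ℕ → ℕ, (∀ e m, (q e).eval (2 ^ (c e * (m + 1)) + m) ≤ 2 ^ (ρ e * (m + 1))) ∧
      ∀ᶠ N : ℕ in Filter.atTop, (((Finset.range N).filter (fun i => ∃ e x,
        str i = codeS (fun e m => 2 ^ (ρ e * (m + 1))) e x)).card : ℝ) ≤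
        (Real.logb 2 N) ^ ε := by
  choose C hC using fun e => N10.bound (q e) (c e)
  set K : ℕ := ⌈2 / ε⌉₊ + 1 with hK
  refine ⟨fun e => C e + K + e + 1, fun e m => ?_, ?_⟩
  · refine le_trans (eval_mono' (q e) ?_) (le_trans (hC e m)
      (Nat.pow_le_pow_right (by norm_num) (Nat.mul_le_mul ?_ le_rfl)))
    · omega
    · show C e ≤ C e + K + e + 1
      omega
  have hK1 : 1 ≤ K := by omega
  have hKr : 2 / ε ≤ (K : ℝ) := by
    refine le_trans (Nat.le_ceil _) ?_
    rw [hK]
    push_cast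
    linarith
  have hK0 : (0 : ℝ) < K := by exact_mod_cast hK1
  have hinv : 1 / (K : ℝ) ≤ ε / 2 := by
    rw [div_le_iff₀ hε] at hKr
    rw [div_le_iff₀ hK0]
    nlinarith
  have hlim : Filter.Tendsto (fun N : ℕ => Real.logb 2 N) Filter.atTop Filter.atTop :=
    (Real.tendsto_logb_atTop (by norm_num)).comp tendsto_natCast_atTop_atTop
  have hlog : ∀ᶠ L : ℝ in Filter.atTop, Real.logb 2 L ≤ L ^ (ε / 2) := by
    have h1 := (isLittleO_log_rpow_atTop (show 0 < ε / 2 by positivity)).bound
      (show 0 < Real.log 2 by exact Real.log_pos (by norm_num))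
    filter_upwards [h1, Filter.eventually_ge_atTop 1] with L hL hL1
    have hlog0 : 0 ≤ Real.log L := Real.log_nonneg hL1
    rw [Real.norm_of_nonneg hlog0, Real.norm_of_nonneg (Real.rpow_nonneg (by linarith) _)] at hL
    unfold Real.logb
    rw [div_le_iff₀ (Real.log_pos (by norm_num))]
    linarith
  filter_upwards [hlim.eventually hlog, hlim.eventually (Filter.eventually_ge_atTop 1),
    Filter.eventually_ge_atTop 2] with N h1 h2 hN
  set L := Real.logb 2 N with hL
  have hL0 : 0 < L := by linarith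
  have hℓ : 1 ≤ Nat.log 2 N := Nat.log_pos (by norm_num) hN
  have hlogN : ((Nat.log 2 N : ℕ) : ℝ) ≤ L := by
    have := Real.natLog_le_logb N 2
    exact_mod_cast this
  set Y : ℕ := Nat.log 2 (Nat.log 2 N) with hY
  have hYL : (Y : ℝ) ≤ L ^ (ε / 2) := by
    have h3 : (Y : ℝ) ≤ Real.logb 2 ((Nat.log 2 N : ℕ) : ℝ) := by
      have := Real.natLog_le_logb (Nat.log 2 N) 2
      exact_mod_cast this
    refine le_trans h3 (le_trans (Real.logb_le_logb_of_le (by norm_num) ?_ hlogN) h1)
    exact_mod_cast hℓ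
  have hpow : ((2 : ℝ) ^ (Y / K)) ≤ L ^ (ε / 2) := by
    have h4 : ((2 : ℝ) ^ (Y / K)) ^ K ≤ L := by
      refine le_trans ?_ hlogN
      have h5 : (2 ^ (Y / K)) ^ K ≤ Nat.log 2 N := by
        rw [← pow_mul]
        refine le_trans (Nat.pow_le_pow_right (by norm_num) (Nat.div_mul_le_self Y K)) ?_
        rw [hY]
        exact Nat.pow_log_le_self 2 (by omega)
      exact_mod_cast h5
    have h6 : (2 : ℝ) ^ (Y / K) ≤ L ^ (1 / (K : ℝ)) := by
      have h7 : (((2 : ℝ) ^ (Y / K)) ^ K) ^ (1 / (K : ℝ)) ≤ L ^ (1 / (K : ℝ)) :=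
        Real.rpow_le_rpow (by positivity) h4 (by positivity)
      rwa [one_div, Real.pow_rpow_inv_natCast (by positivity) (by omega), ← one_div] at h7
    exact le_trans h6 (Real.rpow_le_rpow_of_exponent_le h2 hinv)
  have hcount := count (fun e => C e + K + e + 1) K hK1 (fun e => by omega) (fun e => by omega)
    N hN
  calc (((Finset.range N).filter (fun i => ∃ e x,
        str i = codeS (fun e m => 2 ^ ((fun e => C e + K + e + 1) e * (m + 1))) e x)).card : ℝ)
      ≤ ((Y * 2 ^ (Y / K) : ℕ) : ℝ) := by exact_mod_cast hcount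
    _ = (Y : ℝ) * 2 ^ (Y / K) := by push_cast; ring
    _ ≤ L ^ (ε / 2) * L ^ (ε / 2) := mul_le_mul hYL hpow (by positivity) (by positivity)
    _ = L ^ ε := by
        rw [← Real.rpow_add hL0]
        congr 1
        ring

end Pool.Agent.H752.GE
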