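import Pool.Agent.H752.GE.Base2
import Pool.Agent.H622R2.Exp.A6

set_option autoImplicit false

/-!
# Task G12: reading one code bit in deterministic linear-exponential time (helper187)
-/

namespace Pool.Agent.H752.GE

open Pool.Agent.NPC Finset H568R2 Pool.Agent.H620R2.Gauge

theorem isE_of_code {A : Oracle} {L : Set (List Bool)} (ρ : ℕ → ℕ) (e : ℕ)
    (h : ∀ x, x ∈ L ↔ A (codeS (fun e m => 2 ^ (ρ e * (m + 1))) e x) = true) : IsE A L := by
  set r : Polynomial ℕ := Polynomial.C (ρ e) * (Polynomial.X + 1) with hr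
  have hr' : ∀ n : ℕ, r.eval n = ρ e * (n + 1) := fun n => by simp [hr]
  have hcode : ∀ x : List Bool, H622R2.Exp.codeE r e x =
      codeS (fun e m => 2 ^ (ρ e * (m + 1))) e x := by
    intro x
    unfold H622R2.Exp.codeE codeS
    rw [hr']
  refine ⟨H622R2.Exp.A6.alg r e, ρ e + 2, fun x => ⟨[A (H622R2.Exp.codeE r e x)], ?_, ?_⟩⟩
  · refine Alg.run_mono _ A x _ (2 ^ r.eval x.length + 2) _ [] ?_
      (H622R2.Exp.A6.run_alg r e A x _ [] (by simp))
    have h1 : (ρ e + 2) * (x.length + 1) = r.eval x.length + 2 * (x.length + 1) := by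
      rw [hr']; ring
    have h2 : 2 ^ (r.eval x.length + 2) ≤ 2 ^ (r.eval x.length + 2 * (x.length + 1)) :=
      Nat.pow_le_pow_right (by norm_num) (by omega)
    have h3 : 1 ≤ 2 ^ r.eval x.length := Nat.one_le_two_pow
    rw [h1]
    rw [pow_add] at h2
    omega
  · rw [h x, hcode]
    simp

end Pool.Agent.H752.GE
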