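import Pool.Agent.H752.GE.Base2
import Pool.Agent.H620R2.Gauge.U1

/-!
# Nondeterministic linear-exponential time is contained in linear-exponential space
-/

namespace Pool.Agent.H752.GE

open Pool.Agent.NPC Finset H568R2 Pool.Agent.H620R2.Gauge

namespace G14

open Pool.Agent.NPC Pool.Agent.H622R2 Pool.Agent.H620R2.Gauge Pool.Agent.H620R2.Gauge.U1

theorem eval_two_pow_le (p : Polynomial ℕ) : ∃ e : ℕ, ∀ t : ℕ, p.eval (2 ^ t) ≤ 2 ^ (e * (t + 1)) := by
  induction p using Polynomial.induction_on' with
  | add p q hp hq =>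
      obtain ⟨a, ha⟩ := hp
      obtain ⟨b, hb⟩ := hq
      refine ⟨a + b + 1, fun t => ?_⟩
      rw [Polynomial.eval_add]
      have h1 : 2 ^ (a * (t + 1)) ≤ 2 ^ ((a + b) * (t + 1)) :=
        Nat.pow_le_pow_right (by norm_num) (Nat.mul_le_mul_right _ (by omega))
      have h2 : 2 ^ (b * (t + 1)) ≤ 2 ^ ((a + b) * (t + 1)) :=
        Nat.pow_le_pow_right (by norm_num) (Nat.mul_le_mul_right _ (by omega))
      have h3 : 2 ^ ((a + b) * (t + 1) + 1) ≤ 2 ^ ((a + b + 1) * (t + 1)) :=
        Nat.pow_le_pow_right (by norm_num) (by nlinarith)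
      have h4 := ha t
      have h5 := hb t
      rw [pow_succ] at h3
      omega
  | monomial n a =>
      refine ⟨a + n, fun t => ?_⟩
      rw [Polynomial.eval_monomial, ← pow_mul]
      calc a * 2 ^ (t * n) ≤ 2 ^ a * 2 ^ (t * n) := Nat.mul_le_mul_right _ Nat.lt_two_pow_self.le
        _ = 2 ^ (a + t * n) := by rw [pow_add]
        _ ≤ 2 ^ ((a + n) * (t + 1)) := Nat.pow_le_pow_right (by norm_num) (by nlinarith)

/-- the test for the end of the list of candidates -/
def ovr (c : ℕ) (y : List Bool) (n : ℕ) : Prop :=
  c * (y.length + 1) < ((n + 1).bits.length - 2).bits.length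

instance (c : ℕ) (y : List Bool) (n : ℕ) : Decidable (ovr c y n) := by
  unfold ovr; infer_instance

theorem ovr_iff (c : ℕ) (y : List Bool) (n : ℕ) :
    ovr c y n ↔ 2 ^ (c * (y.length + 1)) + 1 < (n + 1).bits.length := by
  unfold ovr
  rw [Nat.size_eq_bits_len ((n + 1).bits.length - 2), Nat.lt_size]
  have : 0 < 2 ^ (c * (y.length + 1)) := by positivity
  omega

/-- what the new algorithm does next -/
def gAct (M : SAlg) (c : ℕ) (v : List Bool) : List Bool :=
  if inAct M (unpair v).1 (dst (unpair v).2) = [true, true] then [true, true]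
  else if (inAct M (unpair v).1 (dst (unpair v).2)).head? = some true then
    (if ovr c (unpair v).1 (dst (unpair v).2).1 then [true] else [false])
  else inAct M (unpair v).1 (dst (unpair v).2)

section

attribute [local fun_prop] poly_pairBits

attribute [local irreducible] unpair dst

theorem poly_ovr (c : ℕ) : Poly (fun v : List Bool =>
    decide (ovr c (unpair v).1 (dst (unpair v).2).1)) := by
  have h2 := poly_unpair
  have h3 := poly_dst
  have h5 : Poly (fun n : ℕ => n.bits) := Poly.natBits Poly.id
  have h7 : Poly (fun v : List Bool => ((dst (unpair v).2).1 + 1).bits.length) :=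
    Poly.length (h5.comp (by fun_prop))
  have h8 : Poly (fun v : List Bool => (((dst (unpair v).2).1 + 1).bits.length - 2).bits.length) :=
    Poly.length (h5.comp (by fun_prop))
  have h9 : Poly (fun v : List Bool => c * ((unpair v).1.length + 1)) := by
    have : Poly (fun v : List Bool => (unpair v).1.length) := Poly.length (by fun_prop)
    fun_prop
  exact (Poly.decide_lt h9 h8).congr fun v => rfl

theorem poly_gAct (M : SAlg) (c : ℕ) : Poly (gAct M c) := by
  have h1 := poly_inAct M
  have h2 := poly_unpair
  have h3 := poly_dst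
  have h6 : Poly (fun v : List Bool => inAct M (unpair v).1 (dst (unpair v).2)) :=
    h1.comp (f := fun v : List Bool => ((unpair v).1, dst (unpair v).2)) (by fun_prop)
  exact Poly.ite (Poly.decide_eq h6 (NPC.Poly.const _)) (NPC.Poly.const _)
    (Poly.ite (Poly.decide_eq (Poly.head? h6) (NPC.Poly.const _))
      (Poly.ite (poly_ovr c) (NPC.Poly.const _) (NPC.Poly.const _)) h6)

end

/-- what the new algorithm does next, in terms of the decoded memory -/
def gA (M : SAlg) (c : ℕ) (y : List Bool) (t : ℕ × List Bool) : List Bool :=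
  if inAct M y t = [true, true] then [true, true]
  else if (inAct M y t).head? = some true then
    (if ovr c y t.1 then [true] else [false])
  else inAct M y t

theorem gAct_pair (M : SAlg) (c : ℕ) (y s : List Bool) :
    gAct M c (pairBits y s) = gA M c y (dst s) := by
  unfold gAct gA
  rw [unpair_pairBits]

/-- Polynomial space with a quantifier over strings of linear-exponential length is contained in
linear-exponential space. -/
theorem exists_long {A : Oracle} {L : Set (List Bool)} (h : IsPSPACE A L) (c : ℕ) :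
    IsESPACE A {y | ∃ w : List Bool, w.length ≤ 2 ^ (c * (y.length + 1)) ∧ pairBits w y ∈ L} := by
  obtain ⟨M, p, hM⟩ := h
  let N : SAlg := ⟨gAct M c, polyTime_of_poly_list (poly_gAct M c),
    fun v => bits (eNext M v), polyTime_bits (poly_eNext M)⟩
  obtain ⟨e, he⟩ := eval_two_pow_le (Polynomial.C 4 * (Polynomial.X +
    Polynomial.C 1) + Polynomial.C 1 + (Polynomial.C 4 * p.comp (Polynomial.C 2 *
    Polynomial.X + Polynomial.C 1 + Polynomial.X) +
    Polynomial.C 1) + Polynomial.C 1)
  refine ⟨N, e * (c + 2), fun y => ?_⟩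
  have hact : ∀ s, N.act (pairBits y s) = gA M c y (dst s) := fun s => gAct_pair M c y s
  have hnext : ∀ b s, N.next (pairBits y (b :: s)) = bits (eN M y b (dst s)) := fun b s => by
    show bits (eNext M (pairBits y (b :: s))) = _
    rw [eNext_pair]
  obtain ⟨B, hB⟩ : ∃ B, B = 2 ^ (c * (y.length + 1)) := ⟨_, rfl⟩
  have hov : ∀ n, ovr c y n ↔ B + 1 < (n + 1).bits.length := fun n => by
    rw [ovr_iff, hB]
  -- the memory of the given algorithm occurs
  have inv : ∀ s, N.Reach A y s → 1 ≤ (dst s).1 ∧ (dst s).1.bits.length ≤ B + 1 ∧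
      M.Reach A (pairBits (cand (dst s).1) y) (dst s).2 ∧ (s = [] ∨ s = bits (dst s)) := by
    intro s hs
    induction hs with
    | start =>
        rw [dst_nil]
        exact ⟨le_rfl, by simp, SAlg.Reach.start, Or.inl rfl⟩
    | @step s r hs hr ih =>
        obtain ⟨h1, h2, h3, h4⟩ := ih
        rw [hact] at hr
        rw [hnext, dst_bits]
        unfold gA at hr
        unfold eN
        by_cases c1 : inAct M y (dst s) = [true, true]
        · rw [if_pos c1] at hr
          simp at hr
        rw [if_neg c1] at hr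
        by_cases c2 : (inAct M y (dst s)).head? = some true
        · rw [if_pos c2] at hr ⊢
          by_cases c3 : ovr c y (dst s).1
          · rw [if_pos c3] at hr
            simp at hr
          · exact ⟨by simp, not_lt.1 fun h => c3 ((hov _).2 h), SAlg.Reach.start, Or.inr rfl⟩
        · rw [if_neg c2] at hr ⊢
          exact ⟨h1, h2, SAlg.Reach.step h3 hr, Or.inr rfl⟩
  -- simulation
  have sim : ∀ n s, N.Reach A y s → dst s = (n, []) → ∀ t, M.Reach A (pairBits (cand n) y) t →
      ∃ s', N.Reach A y s' ∧ dst s' = (n, t) := by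
    intro n s hs hd t ht
    induction ht with
    | start => exact ⟨s, hs, hd⟩
    | @step t r ht hr ih =>
        obtain ⟨s', h1, h2⟩ := ih
        have hin : inAct M y (n, t) = false :: r := hr
        have h3 : N.act (pairBits y s') = false :: r := by
          rw [hact, h2]
          simp [gA, hin]
        have h4 := SAlg.Reach.step h1 h3
        refine ⟨_, h4, ?_⟩
        rw [hnext, dst_bits, h2]
        simp [eN, hin]
  have adv : ∀ n s, N.Reach A y s → dst s = (n, []) → pairBits (cand n) y ∉ L →
      (n + 1).bits.length ≤ B + 1 → ∃ s', N.Reach A y s' ∧ dst s' = (n + 1, []) := by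
    intro n s hs hd hn hlen
    obtain ⟨_, t, z, h2, h3, h4⟩ := hM (pairBits (cand n) y)
    obtain ⟨s', h5, h6⟩ := sim n s hs hd t h2
    have hz : z ≠ [true] := fun hz => hn (h4.2 hz)
    have hin : inAct M y (n, t) = true :: z := h3
    have h7 : N.act (pairBits y s') = false :: [] := by
      rw [hact, h6]
      unfold gA
      rw [hin, if_neg (by simpa using hz), if_pos (by simp),
        if_neg (fun h => absurd ((hov _).1 h) (not_lt.2 hlen))]
    have h8 := SAlg.Reach.step h5 h7
    refine ⟨_, h8, ?_⟩
    rw [hnext, dst_bits, h6]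
    simp [eN, hin]
  have reach : ∀ n, 1 ≤ n → n.bits.length ≤ B + 1 →
      (∀ m, 1 ≤ m → m < n → pairBits (cand m) y ∉ L) → ∃ s, N.Reach A y s ∧ dst s = (n, []) := by
    intro n hn
    induction n, hn using Nat.le_induction with
    | base => exact fun _ _ => ⟨[], SAlg.Reach.start, dst_nil⟩
    | succ n hn ih =>
        intro h1 h2
        obtain ⟨s, h3, h4⟩ := ih ((bits_length_mono (Nat.le_succ n)).trans h1)
          fun m hm hm' => h2 m hm (by omega)
        exact adv n s h3 h4 (h2 n hn (by omega)) h1
  have hB' : B ≤ 2 ^ ((c + 1) * (y.length + 1)) := by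
    rw [hB]
    exact Nat.pow_le_pow_right (by norm_num) (Nat.mul_le_mul_right _ (by omega))
  have hY : y.length ≤ 2 ^ ((c + 1) * (y.length + 1)) := by
    calc y.length ≤ 2 ^ y.length := Nat.lt_two_pow_self.le
      _ ≤ 2 ^ ((c + 1) * (y.length + 1)) := Nat.pow_le_pow_right (by norm_num) (by nlinarith)
  have hfin : 2 ^ (e * ((c + 1) * (y.length + 1) + 1)) ≤ 2 ^ (e * (c + 2) * (y.length + 1)) := by
    refine Nat.pow_le_pow_right (by norm_num) ?_
    rw [mul_assoc]
    exact Nat.mul_le_mul_left _ (by nlinarith)
  refine ⟨fun s hs => ?_, ?_⟩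
  · refine le_trans ?_ hfin
    refine le_trans ?_ (he _)
    obtain ⟨h1, h2, h3, h4⟩ := inv s hs
    rcases h4 with h4 | h4
    · rw [h4]
      simp
    · rw [h4, bits_length]
      generalize dst s = t at h1 h2 h3
      obtain ⟨n, t⟩ := t
      rw [sz_pair]
      have e1 := sz_nat_le n
      rw [← Nat.size_eq_bits_len] at e1
      have e2 := sz_listBool_le t
      have e3 := (hM (pairBits (cand n) y)).1 t h3
      have e4 : (pairBits (cand n) y).length ≤ (Polynomial.C 2 *
          Polynomial.X + Polynomial.C 1 +
          Polynomial.X).eval (2 ^ ((c + 1) * (y.length + 1))) := by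
        rw [length_pairBits, length_cand]
        simp only [Polynomial.eval_add, Polynomial.eval_mul, Polynomial.eval_C,
          Polynomial.eval_X]
        simp only at h2
        omega
      have e5 := eval_mono p e4
      simp only at h2
      rw [Polynomial.eval_add, Polynomial.eval_add, Polynomial.eval_add, Polynomial.eval_add,
        Polynomial.eval_mul, Polynomial.eval_add, Polynomial.eval_mul, Polynomial.eval_comp (p := p)]
      simp only [Polynomial.eval_C, Polynomial.eval_X]
      omega
  · by_cases hex : ∃ n, 1 ≤ n ∧ n.bits.length ≤ B + 1 ∧ pairBits (cand n) y ∈ L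
    · classical
      obtain ⟨h1, h2, h3⟩ := Nat.find_spec hex
      obtain ⟨s, h4, h5⟩ := reach (Nat.find hex) h1 h2 fun m hm hm' hL =>
        Nat.find_min hex hm' ⟨hm, (bits_length_mono hm'.le).trans h2, hL⟩
      obtain ⟨_, t, z, h6, h7, h8⟩ := hM (pairBits (cand (Nat.find hex)) y)
      obtain ⟨s', h9, h10⟩ := sim _ s h4 h5 t h6
      have hz : z = [true] := h8.1 h3
      have hin : inAct M y (Nat.find hex, t) = [true, true] := by rw [← hz]; exact h7
      refine ⟨s', [true], h9, ?_, ?_⟩
      · rw [hact, h10]
        simp [gA, hin]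
      · refine ⟨fun _ => rfl, fun _ => ⟨cand (Nat.find hex), ?_, h3⟩⟩
        rw [length_cand, ← hB]
        omega
    · have hlast : (2 ^ (B + 1) - 1).bits.length ≤ B + 1 := by
        rw [Nat.size_eq_bits_len, Nat.size_le]
        have : 0 < 2 ^ (B + 1) := by positivity
        omega
      have hpos : 1 ≤ 2 ^ (B + 1) - 1 := by
        have : 2 ^ 1 ≤ 2 ^ (B + 1) := Nat.pow_le_pow_right (by norm_num) (by omega)
        omega
      have hno : ∀ m, 1 ≤ m → m.bits.length ≤ B + 1 → pairBits (cand m) y ∉ L :=
        fun m h1 h2 h3 => hex ⟨m, h1, h2, h3⟩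
      obtain ⟨s, h4, h5⟩ := reach _ hpos hlast fun m hm hm' =>
        hno m hm ((bits_length_mono hm'.le).trans hlast)
      obtain ⟨_, t, z, h6, h7, h8⟩ := hM (pairBits (cand (2 ^ (B + 1) - 1)) y)
      obtain ⟨s', h9, h10⟩ := sim _ s h4 h5 t h6
      have hz : z ≠ [true] := fun hz => hno _ hpos hlast (h8.2 hz)
      have hin : inAct M y (2 ^ (B + 1) - 1, t) = true :: z := h7
      refine ⟨s', [], h9, ?_, ?_⟩
      · rw [hact, h10]
        unfold gA
        rw [hin, if_neg (by simpa using hz), if_pos (by simp), if_pos]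
        rw [hov, Nat.size_eq_bits_len]
        have : 2 ^ (B + 1) - 1 + 1 = 2 ^ (B + 1) := by omega
        simp only [this]
        exact Nat.lt_size.2 le_rfl
      · refine ⟨?_, fun h => by simp at h⟩
        rintro ⟨w, hw, hwL⟩
        obtain ⟨n, h11, h12, h13⟩ := exists_cand w
        rw [← hB] at hw
        exact absurd hwL (by rw [← h13]; exact hno n h11 (by omega))

end G14

/-- Nondeterministic linear-exponential time is contained in linear-exponential space. -/
theorem IsNE.isESPACE {A : Oracle} {L : Set (List Bool)} (h : IsNE A L) : IsESPACE A L := by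
  obtain ⟨V, c, hV, hL⟩ := h
  have h1 : IsPSPACE A {z | V z = [true]} := IsP.isPSPACE ⟨V, hV, fun x => Iff.rfl⟩
  have h2 := G14.exists_long h1 c
  have e : {y | ∃ w : List Bool, w.length ≤ 2 ^ (c * (y.length + 1)) ∧
      pairBits w y ∈ {z | V z = [true]}} = L := by
    ext x
    exact (hL x).symm
  rwa [e] at h2

end Pool.Agent.H752.GE
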