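import Pool.Agent.H752.GE.Base2
import Pool.Agent.H620R2.Gauge2.V1

/-! Task G2 (helper446): nondeterministic tests for parities. -/

namespace Pool.Agent.H752.GE

open Pool.Agent.NPC Finset H568R2 Pool.Agent.H676 Pool.Agent.H620R2.Gauge

namespace G2

variable {I κ : Type*} [Fintype I] [DecidableEq I] [Fintype κ] [DecidableEq κ]

/-- flip the bits `u k`, `k ∈ T` -/
def fl (u : κ → I) (T : Finset κ) (a : I → Bool) : I → Bool :=
  fun i => if i ∈ T.image u then !a i else a i

theorem fl_invol (u : κ → I) (T : Finset κ) : Function.Involutive (fl u T) := by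
  intro a
  funext i
  by_cases h : i ∈ T.image u <;> simp [fl, h]

theorem fl_of_notMem (u : κ → I) (T : Finset κ) (a : I → Bool) {i : I} (h : ∀ k, u k ≠ i) :
    fl u T a i = a i := by
  unfold fl
  rw [if_neg]
  intro hi
  obtain ⟨k, -, hk⟩ := Finset.mem_image.1 hi
  exact h k hk

theorem Ex_fl (u : κ → I) (T : Finset κ) (F : (I → Bool) → ℝ) :
    Ex unif (fun a => F (fl u T a)) = Ex unif F := by
  unfold Ex
  rw [← Equiv.sum_comp (Function.Involutive.toPerm (fl u T) (fl_invol u T))
    (fun ω : I → Bool => (∏ i, unif (ω i)) * F ω)]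
  refine Finset.sum_congr rfl fun ω _ => ?_
  simp [unif, Function.Involutive.toPerm]

theorem par_congr (S : Finset I) (x y : I → Bool) (h : ∀ j ∈ S, y j = x j) :
    par S y = par S x := by
  unfold par
  congr 2
  refine congrArg Finset.card (Finset.filter_congr fun j hj => ?_)
  rw [h j hj]

theorem par_flip (S : Finset I) (x y : I → Bool) (i : I) (hi : i ∈ S)
    (h : ∀ j ∈ S, j ≠ i → y j = x j) (hy : y i = !x i) : par S y = !par S x := by
  have key : ∀ z : I → Bool, (S.filter (fun j => z j = true)).card =
      ((S.erase i).filter (fun j => z j = true)).card + (z i).toNat := by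
    intro z
    conv_lhs => rw [← Finset.insert_erase hi]
    rw [Finset.filter_insert]
    cases hz : z i
    · simp
    · rw [if_pos rfl, Finset.card_insert_of_notMem]
      · rfl
      · simp
  have h2 : ((S.erase i).filter (fun j => y j = true)).card =
      ((S.erase i).filter (fun j => x j = true)).card := by
    refine congrArg Finset.card (Finset.filter_congr fun j hj => ?_)
    rw [h j (Finset.mem_of_mem_erase hj) (Finset.ne_of_mem_erase hj)]
  unfold par
  rw [key y, key x, h2, hy, ← decide_not]
  refine decide_eq_decide.2 ?_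
  cases x i <;> simp [Nat.odd_add_one]

theorem par_fl (B : κ → Finset I) (hd : ∀ k k', k ≠ k' → Disjoint (B k) (B k'))
    (u : κ → I) (hu : ∀ k, u k ∈ B k) (T : Finset κ) (a : I → Bool) (k : κ) :
    par (B k) (fl u T a) = xor (par (B k) a) (decide (k ∈ T)) := by
  have hne : ∀ k', k' ≠ k → ∀ j ∈ B k, u k' ≠ j := by
    intro k' hk' j hj he
    exact Finset.disjoint_left.1 (hd k' k hk') (hu k') (he ▸ hj)
  by_cases hk : k ∈ T
  · rw [par_flip (B k) a (fl u T a) (u k) (hu k)]
    · simp [hk]
    · intro j hj hjk
      unfold fl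
      rw [if_neg]
      intro hi
      obtain ⟨k', -, hk'⟩ := Finset.mem_image.1 hi
      by_cases hkk : k' = k
      · subst hkk
        exact hjk hk'.symm
      · exact hne k' hkk j hj hk'
    · unfold fl
      rw [if_pos (Finset.mem_image_of_mem u hk)]
  · rw [par_congr (B k) a (fl u T a)]
    · simp [hk]
    · intro j hj
      unfold fl
      rw [if_neg]
      intro hi
      obtain ⟨k', hk'T, hk'⟩ := Finset.mem_image.1 hi
      by_cases hkk : k' = k
      · subst hkk
        exact hk hk'T
      · exact hne k' hkk j hj hk'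

/-- few choices of one point in every block meet a small set -/
theorem few_bad {p : ℕ} (B : κ → Finset I)
    (hB : ∀ k, 2 * (Fintype.card κ * p) ≤ (B k).card)
    (hd : ∀ k k', k ≠ k' → Disjoint (B k) (B k'))
    (C : Finset I) (hC : C.card ≤ Fintype.card κ * p) :
    2 * ((Fintype.piFinset B).filter (fun u => ∃ k, u k ∈ C)).card ≤
      (Fintype.piFinset B).card := by
  have h1 : ∀ k, ((Fintype.piFinset B).filter (fun u => u k ∈ C)).card * (B k).card =
      (B k ∩ C).card * (Fintype.piFinset B).card := by
    intro k
    have e : (Fintype.piFinset B).filter (fun u => u k ∈ C) =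
        Fintype.piFinset (Function.update B k (B k ∩ C)) := by
      ext u
      simp only [Finset.mem_filter, Fintype.mem_piFinset]
      constructor
      · rintro ⟨h, hk⟩ k'
        by_cases hkk : k' = k
        · subst hkk
          simp [h k', hk]
        · rw [Function.update_of_ne hkk]
          exact h k'
      · intro h
        refine ⟨fun k' => ?_, ?_⟩
        · by_cases hkk : k' = k
          · subst hkk
            have := h k'
            rw [Function.update_self] at this
            exact (Finset.mem_inter.1 this).1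
          · have := h k'
            rwa [Function.update_of_ne hkk] at this
        · have := h k
          rw [Function.update_self] at this
          exact (Finset.mem_inter.1 this).2
    rw [e, Fintype.card_piFinset, Fintype.card_piFinset,
      ← Finset.mul_prod_erase univ _ (Finset.mem_univ k),
      ← Finset.mul_prod_erase univ (fun i => (B i).card) (Finset.mem_univ k)]
    rw [Function.update_self]
    have : ∏ x ∈ univ.erase k, (Function.update B k (B k ∩ C) x).card =
        ∏ x ∈ univ.erase k, (B x).card := by
      refine Finset.prod_congr rfl fun x hx => ?_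
      rw [Function.update_of_ne (Finset.ne_of_mem_erase hx)]
    rw [this]
    ring
  have h2 : ((Fintype.piFinset B).filter (fun u => ∃ k, u k ∈ C)).card ≤
      ∑ k, ((Fintype.piFinset B).filter (fun u => u k ∈ C)).card := by
    refine le_trans (Finset.card_le_card ?_) Finset.card_biUnion_le
    intro u hu
    obtain ⟨h3, k, hk⟩ := Finset.mem_filter.1 hu
    exact Finset.mem_biUnion.2 ⟨k, Finset.mem_univ k, Finset.mem_filter.2 ⟨h3, hk⟩⟩
  have h4 : ∑ k, (B k ∩ C).card ≤ C.card := by
    rw [← Finset.card_biUnion]
    · refine Finset.card_le_card ?_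
      intro i hi
      obtain ⟨k, -, hk⟩ := Finset.mem_biUnion.1 hi
      exact (Finset.mem_inter.1 hk).2
    · intro k _ k' _ hkk
      exact (hd k k' hkk).mono Finset.inter_subset_left Finset.inter_subset_left
  rcases Nat.eq_zero_or_pos (Fintype.card κ * p) with h0 | h0
  · have : C = ∅ := by
      rw [← Finset.card_eq_zero]
      omega
    subst this
    simp
  · have h5 : (∑ k, ((Fintype.piFinset B).filter (fun u => u k ∈ C)).card) *
        (2 * (Fintype.card κ * p)) ≤ (Fintype.card κ * p) * (Fintype.piFinset B).card := by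
      calc (∑ k, ((Fintype.piFinset B).filter (fun u => u k ∈ C)).card) *
            (2 * (Fintype.card κ * p))
          = ∑ k, ((Fintype.piFinset B).filter (fun u => u k ∈ C)).card *
              (2 * (Fintype.card κ * p)) := Finset.sum_mul _ _ _
        _ ≤ ∑ k, ((Fintype.piFinset B).filter (fun u => u k ∈ C)).card * (B k).card :=
            Finset.sum_le_sum fun k _ => Nat.mul_le_mul_left _ (hB k)
        _ = ∑ k, (B k ∩ C).card * (Fintype.piFinset B).card :=
            Finset.sum_congr rfl fun k _ => h1 k
        _ = (∑ k, (B k ∩ C).card) * (Fintype.piFinset B).card := (Finset.sum_mul _ _ _).symm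
        _ ≤ (Fintype.card κ * p) * (Fintype.piFinset B).card :=
            Nat.mul_le_mul_right _ (h4.trans hC)
    have h6 : (2 * ∑ k, ((Fintype.piFinset B).filter (fun u => u k ∈ C)).card) *
        (Fintype.card κ * p) ≤ (Fintype.piFinset B).card * (Fintype.card κ * p) := by
      calc (2 * ∑ k, ((Fintype.piFinset B).filter (fun u => u k ∈ C)).card) *
            (Fintype.card κ * p)
          = (∑ k, ((Fintype.piFinset B).filter (fun u => u k ∈ C)).card) *
            (2 * (Fintype.card κ * p)) := by ring
        _ ≤ _ := h5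
        _ = _ := by ring
    have h7 := Nat.le_of_mul_le_mul_right h6 h0
    omega

end G2

section

variable {I κ : Type*} [Fintype I] [DecidableEq I] [Fintype κ]

open Classical in
/-- nondeterministic tests for parities -/
theorem par_comb {p : ℕ} (B : κ → Finset I) (hB0 : ∀ k, (B k).Nonempty)
    (hB : ∀ k, 2 * (Fintype.card κ * p) ≤ (B k).card)
    (hd : ∀ k k', k ≠ k' → Disjoint (B k) (B k'))
    (V : κ → (I → Bool) → Bool) (hV : ∀ k, Cert p true (V k)) :
    Ex unif (fun a => if ∀ k, V k a = par (B k) a then (1 : ℝ) else 0) ≤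
      2 * (1 / 2) ^ Fintype.card κ := by
  classical
  -- certificates
  have hC : ∀ a : I → Bool, ∃ C : Finset I, C.card ≤ Fintype.card κ * p ∧
      ∀ k, V k a = true → ∀ y : I → Bool, (∀ i ∈ C, y i = a i) → V k y = true := by
    intro a
    have h1 : ∀ k, ∃ A : Finset I, A.card ≤ p ∧
        (V k a = true → ∀ y : I → Bool, (∀ i ∈ A, y i = a i) → V k y = true) := by
      intro k
      by_cases h : V k a = true
      · obtain ⟨A, hA, hA2⟩ := hV k a h
        exact ⟨A, hA, fun _ => hA2⟩
      · exact ⟨∅, by simp, fun h' => absurd h' h⟩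
    choose A hA hA2 using h1
    refine ⟨univ.biUnion A, ?_, ?_⟩
    · refine Finset.card_biUnion_le.trans ?_
      calc ∑ k, (A k).card ≤ ∑ _k : κ, p := Finset.sum_le_sum fun k _ => hA k
        _ = Fintype.card κ * p := by simp
    · intro k hk y hy
      exact hA2 k hk y fun i hi => hy i (Finset.mem_biUnion.2 ⟨k, Finset.mem_univ k, hi⟩)
  choose C hCcard hCert using hC
  set PP := Fintype.piFinset B with hPP
  have hPPne : PP.Nonempty := by
    rw [hPP, Fintype.piFinset_nonempty]
    exact hB0
  have hPPpos : (0 : ℝ) < PP.card := by exact_mod_cast hPPne.card_pos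
  let good : (κ → I) → (I → Bool) → ℝ := fun u a =>
    if (∀ k, V k a = par (B k) a) ∧ ∀ k, u k ∉ C a then 1 else 0
  -- step 1
  have step1 : ∀ u ∈ PP, (2 : ℝ) ^ Fintype.card κ * Ex unif (good u) ≤ 1 := by
    intro u hu
    have hu' : ∀ k, u k ∈ B k := Fintype.mem_piFinset.1 hu
    have e1 : (2 : ℝ) ^ Fintype.card κ * Ex unif (good u) =
        Ex unif (fun a => ∑ T ∈ (univ : Finset (Finset κ)), good u (G2.fl u T a)) := by
      rw [Ex_sum]
      simp only [G2.Ex_fl]
      rw [Finset.sum_const, Finset.card_univ, Fintype.card_finset, nsmul_eq_mul]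
      push_cast
      ring
    rw [e1, ← Ex_const (I := I) unif_sum (1 : ℝ)]
    refine Ex_mono unif_nonneg fun a => ?_
    have e2 : ∑ T ∈ (univ : Finset (Finset κ)), good u (G2.fl u T a) =
        (((univ : Finset (Finset κ)).filter (fun T =>
          (∀ k, V k (G2.fl u T a) = par (B k) (G2.fl u T a)) ∧
            ∀ k, u k ∉ C (G2.fl u T a))).card : ℝ) := by
      rw [Finset.card_filter]
      push_cast
      rfl
    rw [e2]
    have h3 : ((univ : Finset (Finset κ)).filter (fun T =>
          (∀ k, V k (G2.fl u T a) = par (B k) (G2.fl u T a)) ∧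
            ∀ k, u k ∉ C (G2.fl u T a))).card ≤ 1 := by
      rw [Finset.card_le_one]
      intro T hT T' hT'
      obtain ⟨h1, h2⟩ := (Finset.mem_filter.1 hT).2
      obtain ⟨h1', h2'⟩ := (Finset.mem_filter.1 hT').2
      have agree : ∀ i, (∀ k, u k ≠ i) → G2.fl u T a i = G2.fl u T' a i := by
        intro i hi
        rw [G2.fl_of_notMem u T a hi, G2.fl_of_notMem u T' a hi]
      have hVV : ∀ k, V k (G2.fl u T a) = V k (G2.fl u T' a) := by
        intro k
        rw [Bool.eq_iff_iff]
        constructor
        · intro h
          refine hCert _ k h _ fun i hi => (agree i ?_).symm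
          intro k' hk'
          exact h2 k' (hk' ▸ hi)
        · intro h
          refine hCert _ k h _ fun i hi => agree i ?_
          intro k' hk'
          exact h2' k' (hk' ▸ hi)
      ext k
      have h4 : par (B k) (G2.fl u T a) = par (B k) (G2.fl u T' a) := by
        rw [← h1 k, ← h1' k]
        exact hVV k
      rw [G2.par_fl B hd u hu', G2.par_fl B hd u hu'] at h4
      have h5 := Bool.xor_right_inj.1 h4
      exact decide_eq_decide.1 h5
    exact_mod_cast h3
  -- step 3
  have step3 : ∀ a : I → Bool, (if ∀ k, V k a = par (B k) a then (1 : ℝ) else 0) ≤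
      (2 / (PP.card : ℝ)) * ∑ u ∈ PP, good u a := by
    intro a
    by_cases hE : ∀ k, V k a = par (B k) a
    · rw [if_pos hE]
      have hbad := G2.few_bad B hB hd (C a) (hCcard a)
      rw [← hPP] at hbad
      have e3 : ∑ u ∈ PP, good u a = ((PP.filter (fun u => ¬ ∃ k, u k ∈ C a)).card : ℝ) := by
        rw [Finset.card_filter]
        push_cast
        refine Finset.sum_congr rfl fun u _ => ?_
        simp only [good]
        refine if_congr ?_ rfl rfl
        constructor
        · rintro ⟨-, h⟩ ⟨k, hk⟩
          exact h k hk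
        · intro h
          exact ⟨hE, fun k hk => h ⟨k, hk⟩⟩
      have h6 := Finset.card_filter_add_card_filter_not (s := PP) (fun u : κ → I => ∃ k, u k ∈ C a)
      rw [e3, div_mul_eq_mul_div, le_div_iff₀ hPPpos, one_mul]
      have h7 : PP.card ≤ 2 * (PP.filter (fun u => ¬ ∃ k, u k ∈ C a)).card := by omega
      exact_mod_cast h7
    · rw [if_neg hE]
      refine mul_nonneg (by positivity) (Finset.sum_nonneg fun u _ => ?_)
      simp only [good]
      split_ifs <;> norm_num
  calc Ex unif (fun a => if ∀ k, V k a = par (B k) a then (1 : ℝ) else 0)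
      ≤ Ex unif (fun a => (2 / (PP.card : ℝ)) * ∑ u ∈ PP, good u a) :=
        Ex_mono unif_nonneg step3
    _ = (2 / (PP.card : ℝ)) * ∑ u ∈ PP, Ex unif (good u) := by
        rw [Ex_smul, Ex_sum]
    _ ≤ (2 / (PP.card : ℝ)) * ∑ _u ∈ PP, (1 / 2 : ℝ) ^ Fintype.card κ := by
        refine mul_le_mul_of_nonneg_left (Finset.sum_le_sum fun u hu => ?_) (by positivity)
        have := step1 u hu
        rw [one_div, inv_pow, ← one_div, le_div_iff₀ (by positivity)]
        linarith
    _ = 2 * (1 / 2) ^ Fintype.card κ := by
        rw [Finset.sum_const, nsmul_eq_mul]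
        field_simp

end

end Pool.Agent.H752.GE
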