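import Pool.Agent.H752.GE.Base2
import Pool.Agent.H620R2.Gauge.A1

/-!
# Task G3: a run with `R` rounds depends only on short strings of the oracle
-/

namespace Pool.Agent.H752.GE

open Pool.Agent.NPC Finset H568R2 Pool.Agent.H620R2.Gauge

namespace G3

theorem next_length' (M : Alg) : ∃ b : Polynomial ℕ, ∀ (R : ℕ) (x a : List Bool),
    a.length ≤ R → (M.D (pairBits x a)).length ≤ b.eval (x.length + R) := by
  obtain ⟨q, hq⟩ := (Pool.Agent.H622R2.poly_of_polyTime M.poly).sz_le
  refine ⟨q.comp (Polynomial.C 4 * (Polynomial.C 2 * Polynomial.X + Polynomial.C 1) +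
    Polynomial.C 1), fun R x a ha => ?_⟩
  have h1 := length_lt_sz (M.D (pairBits x a))
  refine h1.le.trans ((hq _).trans ?_)
  rw [Polynomial.eval_comp]
  apply eval_mono
  have h2 := sz_listBool_le (pairBits x a)
  rw [length_pairBits] at h2
  simp only [Polynomial.eval_add, Polynomial.eval_mul, Polynomial.eval_C, Polynomial.eval_X]
  omega

end G3

theorem run_local (M : Alg) : ∃ q : Polynomial ℕ, ∀ (R : ℕ) (A A' : Oracle) (x : List Bool),
    (∀ y : List Bool, y.length ≤ q.eval (x.length + R) → A y = A' y) →
      M.run A x R [] = M.run A' x R [] := by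
  obtain ⟨b, hb⟩ := G3.next_length' M
  refine ⟨b, fun R A A' x hA => ?_⟩
  have key : ∀ (n : ℕ) (a : List Bool), a.length + n ≤ R → M.run A x n a = M.run A' x n a := by
    intro n
    induction n with
    | zero =>
      intro a _
      rfl
    | succ n ih =>
      intro a ha
      have hD := hb R x a (by omega)
      rcases hq : M.D (pairBits x a) with _ | ⟨c, q⟩
      · simp only [Alg.run, hq]
      · cases c with
        | true => simp only [Alg.run, hq]
        | false =>
          have h1 : A q = A' q := by
            apply hA
            rw [hq, List.length_cons] at hD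
            omega
          simp only [Alg.run, hq]
          rw [h1]
          exact ih (a ++ [A' q]) (by
            rw [List.length_append, List.length_singleton]; omega)
  exact key R [] (by simp)

end Pool.Agent.H752.GE
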