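import Pool.Agent.H752.GE.Base2
import Pool.Agent.H752.GE.N7

/-! Project GAUGE-E, task G4 (helper7): asymptotics for deterministic linear-exponential time -/

namespace Pool.Agent.H752.GE

namespace G4

open Filter

theorem eval_bound (P : Polynomial ℕ) (c : ℕ) : ∃ K : ℕ, ∀ n : ℕ,
    P.eval (n + 2 ^ (c * (n + 1))) ≤ 2 ^ (K * (n + 1)) := by
  obtain ⟨C, h1, hC⟩ := N7.poly_bound P
  refine ⟨(c + 2) * C, fun n => ?_⟩
  refine (hC _).trans ?_
  rw [show (c + 2) * C * (n + 1) = ((c + 2) * (n + 1)) * C by ring, pow_mul 2 ((c + 2) * (n + 1)) C]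
  apply Nat.pow_le_pow_left
  have e1 : n + 1 < 2 ^ (n + 1) := Nat.lt_two_pow_self
  have e2 : 1 ≤ 2 ^ (c * (n + 1)) := Nat.one_le_two_pow
  have e4 : 2 ^ ((c + 2) * (n + 1)) = 2 ^ (c * (n + 1)) * (2 ^ (n + 1) * 2 ^ (n + 1)) := by
    rw [← pow_add, ← pow_add]; congr 1; ring
  rw [e4]
  have e5 : 2 ^ (c * (n + 1)) * 2 ≤ 2 ^ (c * (n + 1)) * 2 ^ (n + 1) :=
    Nat.mul_le_mul_left _ (by omega)
  have e6 : 2 ^ (n + 1) ≤ 2 ^ (c * (n + 1)) * 2 ^ (n + 1) := Nat.le_mul_of_pos_left _ (by omega)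
  have e7 : 2 ^ (c * (n + 1)) * 2 ^ (n + 1) * 2 ≤
      2 ^ (c * (n + 1)) * 2 ^ (n + 1) * 2 ^ (n + 1) := Nat.mul_le_mul_left _ (by omega)
  rw [← mul_assoc]
  omega

/-- polynomials are small compared with `2 ^ n` -/
theorem poly_small (R : Polynomial ℕ) :
    Tendsto (fun n : ℕ => ((R.eval n : ℕ) : ℝ) / 2 ^ n) atTop (nhds 0) := by
  obtain ⟨C, h1, hC⟩ := N7.poly_bound R
  have h := (tendsto_pow_const_div_const_pow_of_one_lt C (one_lt_two (α := ℝ))).comp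
    (tendsto_add_atTop_nat 2)
  have h2 := h.const_mul 4
  rw [mul_zero] at h2
  refine squeeze_zero (fun n => by positivity) (fun n => ?_) h2
  simp only [Function.comp]
  have h3 : ((R.eval n : ℕ) : ℝ) ≤ ((n : ℝ) + 2) ^ C := by exact_mod_cast hC n
  rw [pow_add, div_le_iff₀ (by positivity)]
  have h4 : 4 * (((n + 2 : ℕ) : ℝ) ^ C / (2 ^ n * 2 ^ 2)) * 2 ^ n = ((n : ℝ) + 2) ^ C := by
    push_cast
    field_simp
    ring
  rw [h4]
  exact h3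

theorem half_small : Tendsto (fun n : ℕ => (2 : ℝ) ^ (((n : ℝ) + 2) / 2) / 2 ^ n) atTop (nhds 0) := by
  have h1 : Tendsto (fun a : ℕ => 2 * ((2 : ℝ) ^ (-(1 : ℝ) / 2)) ^ a) atTop (nhds (2 * 0)) :=
    (tendsto_pow_atTop_nhds_zero_of_lt_one (by positivity)
      (Real.rpow_lt_one_of_one_lt_of_neg (by norm_num) (by norm_num))).const_mul 2
  rw [mul_zero] at h1
  refine h1.congr (fun n => ?_)
  rw [← Real.rpow_natCast, ← Real.rpow_mul (by norm_num), ← Real.rpow_natCast 2 n,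
    ← Real.rpow_sub (by norm_num)]
  have : (2 : ℝ) * 2 ^ (-(1 : ℝ) / 2 * n) = 2 ^ (1 : ℝ) * 2 ^ (-(1 : ℝ) / 2 * n) := by
    rw [Real.rpow_one]
  rw [this, ← Real.rpow_add (by norm_num)]
  congr 1
  ring

theorem small (R : Polynomial ℕ) (δ : ℝ) (hδ : 0 < δ) : ∀ᶠ n : ℕ in atTop,
    2 ^ R.eval n * (2 * (1 / 2 : ℝ) ^ (2 ^ n / 16)) * 2 ^ ((2 : ℝ) ^ (((n : ℝ) + 2) / 2)) ≤ δ := by
  have h1 := ((poly_small (R + 1)).add half_small).eventually
    (gt_mem_nhds (show (0 : ℝ) + 0 < 1 / 32 by norm_num))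
  have h2 : Tendsto (fun n : ℕ => (2 : ℝ) ^ (-((2 : ℝ) ^ n / 32))) atTop (nhds 0) := by
    have h3 : Tendsto (fun n : ℕ => (2 : ℝ) ^ n / 32) atTop atTop :=
      (tendsto_pow_atTop_atTop_of_one_lt (by norm_num)).atTop_div_const (by norm_num)
    have h4 : Tendsto (fun x : ℝ => (2 : ℝ) ^ (-x)) atTop (nhds 0) := by
      have : Tendsto (fun x : ℝ => (1 / 2 : ℝ) ^ x) atTop (nhds 0) :=
        tendsto_rpow_atTop_of_base_lt_one _ (by norm_num) (by norm_num)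
      refine this.congr (fun x => ?_)
      rw [one_div, Real.inv_rpow (by norm_num), Real.rpow_neg (by norm_num)]
    exact h4.comp h3
  filter_upwards [h1, h2.eventually (gt_mem_nhds hδ), eventually_ge_atTop 4] with n hn1 hn2 hn3
  refine le_trans ?_ hn2.le
  have hs : ((2 ^ n / 16 : ℕ) : ℝ) = 2 ^ n / 16 := by
    obtain ⟨m, rfl⟩ : ∃ m, n = m + 4 := ⟨n - 4, by omega⟩
    have h7 : 2 ^ (m + 4) / 16 = 2 ^ m := by
      rw [pow_add]; omega
    rw [h7, pow_add]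
    push_cast
    norm_num
  rw [← Real.rpow_natCast 2 (R.eval n), ← Real.rpow_natCast (1 / 2) (2 ^ n / 16), hs, one_div,
    Real.inv_rpow (by norm_num), ← Real.rpow_neg (by norm_num)]
  have e : (2 : ℝ) ^ ((R.eval n : ℕ) : ℝ) * (2 * 2 ^ (-((2 : ℝ) ^ n / 16))) *
      2 ^ ((2 : ℝ) ^ (((n : ℝ) + 2) / 2)) =
      2 ^ (((R.eval n : ℕ) : ℝ) + (1 + -((2 : ℝ) ^ n / 16)) + (2 : ℝ) ^ (((n : ℝ) + 2) / 2)) := by
    rw [Real.rpow_add (by norm_num), Real.rpow_add (by norm_num), Real.rpow_add (by norm_num),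
      Real.rpow_one]
  rw [e]
  apply Real.rpow_le_rpow_of_exponent_le (by norm_num)
  rw [← add_div, div_lt_iff₀ (by positivity)] at hn1
  have h5 : (((R + 1).eval n : ℕ) : ℝ) = ((R.eval n : ℕ) : ℝ) + 1 := by
    simp
  rw [h5] at hn1
  linarith

end G4

open Filter in
theorem asymD (c : ℕ) (P Q R : Polynomial ℕ) (f : ℕ → ℝ) (hf : CondE f) (δ : ℝ) (hδ : 0 < δ) :
    ∃ n N s : ℕ, 1 ≤ n ∧ 2 ^ n = 16 * s ∧ 2 * (2 ^ n * P.eval (n + 2 ^ (c * (n + 1)))) ≤ 2 ^ 2 ^ n ∧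
      2 ^ (Q.eval (n + 2 ^ (c * (n + 1))) + 4 * 2 ^ n + 1) ≤ N ∧
      2 ^ R.eval n * (2 * (1 / 2 : ℝ) ^ s) * 2 ^ f N ≤ δ := by
  obtain ⟨KQ, hKQ⟩ := G4.eval_bound Q c
  obtain ⟨KP, hKP⟩ := G4.eval_bound P c
  set κ : ℕ := KQ + 4 with hκ
  have hκ0 : (0 : ℝ) < κ := by
    have : 0 < κ := by omega
    exact_mod_cast this
  -- (A)
  have hA : ∀ n : ℕ, Q.eval (n + 2 ^ (c * (n + 1))) + 4 * 2 ^ n + 1 ≤ 2 ^ (κ * (n + 1)) := by
    intro n
    have h1 := hKQ n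
    have e1 : 2 ^ (κ * (n + 1)) = 2 ^ (KQ * (n + 1)) * 2 ^ (4 * (n + 1)) := by
      rw [← pow_add]; congr 1; rw [hκ]; ring
    have e2 : 2 ^ (4 * (n + 1)) = 2 ^ n * 2 ^ (3 * n) * 16 := by
      rw [← pow_add, show 4 * (n + 1) = (n + 3 * n) + 4 by ring, pow_add]; norm_num
    have e3 : 1 ≤ 2 ^ (3 * n) := Nat.one_le_two_pow
    have e4 : 1 ≤ 2 ^ (KQ * (n + 1)) := Nat.one_le_two_pow
    have e5 : 1 ≤ 2 ^ n := Nat.one_le_two_pow
    have e6 : 2 ^ n ≤ 2 ^ n * 2 ^ (3 * n) := Nat.le_mul_of_pos_right _ (by omega)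
    rw [e1, e2]
    generalize 2 ^ n * 2 ^ (3 * n) = x at *
    generalize 2 ^ (KQ * (n + 1)) = y at *
    nlinarith
  -- (B)
  have hB : ∀ᶠ n : ℕ in atTop, 2 * (2 ^ n * P.eval (n + 2 ^ (c * (n + 1)))) ≤ 2 ^ 2 ^ n := by
    have h1 := (G4.poly_small (Polynomial.C (KP + 1) * (Polynomial.X + 1))).eventually
      (gt_mem_nhds (show (0 : ℝ) < 1 by norm_num))
    filter_upwards [h1] with n hn
    rw [div_lt_one (by positivity)] at hn
    have h2 : (KP + 1) * (n + 1) ≤ 2 ^ n := by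
      have : (((KP + 1) * (n + 1) : ℕ) : ℝ) < ((2 ^ n : ℕ) : ℝ) := by
        push_cast
        simpa using hn
      exact_mod_cast this.le
    calc 2 * (2 ^ n * P.eval (n + 2 ^ (c * (n + 1)))) ≤ 2 * (2 ^ n * 2 ^ (KP * (n + 1))) := by
          gcongr
          exact hKP n
      _ = 2 ^ ((KP + 1) * (n + 1)) := by
          rw [← pow_add, ← pow_succ']; congr 1; ring
      _ ≤ 2 ^ 2 ^ n := Nat.pow_le_pow_right (by norm_num) h2
  obtain ⟨a0, ha0⟩ := eventually_atTop.1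
    (hB.and ((G4.small R δ hδ).and (eventually_ge_atTop 4)))
  have hlog : Tendsto (fun N : ℕ => Real.logb 2 N) atTop atTop :=
    (Real.tendsto_logb_atTop (by norm_num)).comp tendsto_natCast_atTop_atTop
  obtain ⟨N, hN1, hN2, hN3⟩ := ((hf (1 / (2 * κ)) (by positivity)).and_eventually
    ((hlog.eventually_ge_atTop ((2 : ℝ) ^ (κ * (a0 + 1)))).and (eventually_gt_atTop 1))).exists
  set x := Real.logb 2 N with hx
  have hx0 : 0 < x := lt_of_lt_of_le (by positivity) hN2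
  have hex : ∃ b : ℕ, x < 2 ^ (κ * (b + 1)) := by
    obtain ⟨m, hm⟩ := exists_nat_gt x
    refine ⟨m, hm.trans_le ?_⟩
    have h1 : m ≤ 2 ^ (κ * (m + 1)) := by
      have h2 : m ≤ κ * (m + 1) := by nlinarith
      exact h2.trans (Nat.lt_two_pow_self).le
    exact_mod_cast h1
  classical
  obtain ⟨b, hb, hbmin⟩ : ∃ b : ℕ, x < 2 ^ (κ * (b + 1)) ∧ ∀ c < b, ¬ x < 2 ^ (κ * (c + 1)) :=
    ⟨Nat.find hex, Nat.find_spec hex, fun c hc => Nat.find_min hex hc⟩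
  have hba : a0 < b := by
    by_contra hcon
    have : (2 : ℝ) ^ (κ * (b + 1)) ≤ 2 ^ (κ * (a0 + 1)) :=
      pow_le_pow_right₀ (by norm_num) (Nat.mul_le_mul_left _ (by omega))
    linarith
  obtain ⟨n, rfl⟩ : ∃ n, b = n + 1 := ⟨b - 1, by omega⟩
  have hax : (2 : ℝ) ^ (κ * (n + 1)) ≤ x := not_lt.1 (hbmin n (by omega))
  obtain ⟨c1, c2, c3⟩ := ha0 n (by omega)
  refine ⟨n, N, 2 ^ n / 16, by omega, ?_, c1, ?_, ?_⟩
  · obtain ⟨m, rfl⟩ : ∃ m, n = m + 4 := ⟨n - 4, by omega⟩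
    rw [pow_add]
    omega
  · refine (Nat.pow_le_pow_right (by norm_num) (hA n)).trans ?_
    have h1 : (2 : ℝ) ^ ((2 ^ (κ * (n + 1)) : ℕ) : ℝ) ≤ N := by
      rw [← Real.le_logb_iff_rpow_le (by norm_num) (by positivity)]
      push_cast
      exact hax
    rw [Real.rpow_natCast] at h1
    exact_mod_cast h1
  · refine le_trans ?_ c2
    apply mul_le_mul_of_nonneg_left _ (by positivity)
    apply Real.rpow_le_rpow_of_exponent_le (by norm_num)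
    refine hN1.trans ?_
    calc x ^ (1 / (2 * (κ : ℝ))) ≤ ((2 : ℝ) ^ (κ * (n + 1 + 1))) ^ (1 / (2 * (κ : ℝ))) :=
          Real.rpow_le_rpow hx0.le hb.le (by positivity)
      _ = (2 : ℝ) ^ (((n : ℝ) + 2) / 2) := by
          rw [← Real.rpow_natCast, ← Real.rpow_mul (by norm_num)]
          congr 1
          push_cast
          field_simp
          ring

end Pool.Agent.H752.GE
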