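import Pool.Agent.H752.GE.Base2
import Pool.Agent.H752.GE.N5

/-! # The first test language is in `NE` relative to the oracle -/

set_option autoImplicit false

namespace Pool.Agent.H752.GE

open Pool.Agent.NPC Finset H568R2 Pool.Agent.H620R2.Gauge Pool.Agent.H622R2

namespace G5

/-- the questions -/
def Q (y : List Bool) : List (List Bool) :=
  (List.range (unpair y).1.length).map (fun i =>
    (unpair y).2 ++ (unpair y).1 ++ List.replicate (min i (unpair y).1.length) true)

theorem poly_Q : Poly Q := by
  have hw : Poly (fun y : List Bool => (unpair y).1) := Poly.fst poly_unpair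
  have hx : Poly (fun y : List Bool => (unpair y).2) := Poly.snd poly_unpair
  unfold Q
  refine NPC.Poly.map (F := fun (y : List Bool) (i : ℕ) =>
    (unpair y).2 ++ (unpair y).1 ++ List.replicate (min i (unpair y).1.length) true)
    (UPoly.range (UPoly.length hw)) ?_
  have hx' : Poly (fun p : List Bool × ℕ => (unpair p.1).2) := hx.comp (Poly.fst Poly.id)
  have hw' : Poly (fun p : List Bool × ℕ => (unpair p.1).1) := hw.comp (Poly.fst Poly.id)
  refine Poly.append (Poly.append hx' hw') (N5.poly_replicate ?_)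
  exact UPoly.of_le (Poly.min (Poly.snd Poly.id) (Poly.length hw')) (UPoly.length hw')
    (fun p => min_le_right _ _)

end G5

theorem hitD_ne (A : Oracle) : IsNE A (hitD A) := by
  refine ⟨fun y => N5.H (y, (G5.Q y).map A), 1, IsFP.tt G5.poly_Q N5.poly_H, fun x => ?_⟩
  have key : ∀ w : List Bool, N5.H (pairBits w x, (G5.Q (pairBits w x)).map A) = [true] ↔
      (w.length = 2 ^ x.length ∧
        ∀ i < 2 ^ x.length, A (x ++ w ++ List.replicate i true) = true) := by
    intro w
    unfold N5.H G5.Q
    simp only [unpair_pairBits, List.cons.injEq, and_true, Bool.and_eq_true, decide_eq_true_eq,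
      List.all_eq_true, List.mem_map, List.mem_range]
    constructor
    · rintro ⟨h1, h2⟩
      refine ⟨h1, fun i hi => ?_⟩
      rw [h1] at h2
      apply h2
      refine ⟨_, ⟨i, hi, rfl⟩, ?_⟩
      rw [min_eq_left hi.le]
    · rintro ⟨h1, h2⟩
      refine ⟨h1, ?_⟩
      rintro b ⟨_, ⟨i, hi, rfl⟩, rfl⟩
      rw [h1] at hi ⊢
      rw [min_eq_left hi.le]
      exact h2 i hi
  constructor
  · rintro ⟨j, hj, h⟩
    refine ⟨bitsOf (2 ^ x.length) j, ?_, ?_⟩
    · rw [length_bitsOf]
      exact Nat.pow_le_pow_right (by norm_num) (by omega)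
    · rw [key]
      exact ⟨length_bitsOf _ _, h⟩
  · rintro ⟨w, _, hw⟩
    rw [key] at hw
    obtain ⟨j, hj, h⟩ := exists_bitsOf w
    rw [hw.1] at hj h
    refine ⟨j, hj, fun i hi => ?_⟩
    unfold witE
    rw [h]
    exact hw.2 i hi

end Pool.Agent.H752.GE
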