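import Pool.Agent.H752.GE.Base2
import Pool.Agent.H620R2.Gauge.P
import Pool.Agent.H622R2.CoNP

/-!
# The parity language is in exponential space relative to the oracle
-/

namespace Pool.Agent.H752.GE

open Pool.Agent.NPC Finset H568R2 Pool.Agent.H620R2.Gauge Pool.Agent.H622R2
open Pool.Agent.H620R2.Gauge.PTask (inc inc_bitsOf len_bitsOf bitsOf_eq_zero zeros zeros_eq
  poly_inc poly_zeros poly_fst poly_snd poly_headD)

namespace G6

/-- the first element -/
def hd (s : List Bool) : Bool := (s.head?).getD false

@[simp] theorem hd_cons (b : Bool) (s : List Bool) : hd (b :: s) = b := rfl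

/-- the next content in the first stage, when `u` is the counter and `z` the list of zeros -/
def stage1 (x u z : List Bool) : List Bool :=
  if zeros u = zeros x then true :: true :: false :: z
  else true :: false :: pairBits (true :: u) (z ++ z)

/-- the next content in the second stage -/
def upd (b : Bool) (w : List Bool) : List Bool :=
  if inc w = zeros w then [false, b] else true :: true :: b :: inc w

/-- the next action, as a function of the input and of the content -/
def act0 (x s : List Bool) : List Bool :=
  if s = [] then [false]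
  else bif hd s then (bif hd s.tail then false :: (x ++ s.tail.tail.tail) else [false])
    else true :: s.tail

/-- the next content, as a function of the input, the answer and the content -/
def next0 (x : List Bool) (b : Bool) (s : List Bool) : List Bool :=
  if s = [] then stage1 x [] [false]
  else bif hd s.tail then upd (b ^^ hd s.tail.tail) s.tail.tail.tail
    else stage1 x (unpair s.tail.tail).1 (unpair s.tail.tail).2

def act (y : List Bool) : List Bool := act0 (unpair y).1 (unpair y).2

def next (y : List Bool) : List Bool :=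
  next0 (unpair y).1 (hd (unpair y).2) (unpair y).2.tail

theorem act_pair (x s : List Bool) : act (pairBits x s) = act0 x s := by
  unfold act
  rw [unpair_pairBits]

theorem next_pair (x s : List Bool) (b : Bool) :
    next (pairBits x (b :: s)) = next0 x b s := by
  unfold next
  rw [unpair_pairBits]
  rfl

theorem poly_hd {α : Type} [TEnc α] {l : α → List Bool} (hl : Poly l) :
    Poly (fun a => hd (l a)) := poly_headD hl

theorem poly_act : Poly act := by
  have hs : Poly (fun y => (unpair y).2) := poly_snd
  have hx : Poly (fun y => (unpair y).1) := poly_fst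
  exact Poly.ite (Poly.decide_eq hs (NPC.Poly.const [])) (NPC.Poly.const [false])
    (Poly.cond (poly_hd hs)
      (Poly.cond (poly_hd (Poly.tail hs))
        (Poly.cons (NPC.Poly.const false)
          (Poly.append hx (Poly.tail (Poly.tail (Poly.tail hs)))))
        (NPC.Poly.const [false]))
      (Poly.cons (NPC.Poly.const true) (Poly.tail hs)))

theorem poly_stage1 {α : Type} [TEnc α] {x u z : α → List Bool} (hx : Poly x)
    (hu : Poly u) (hz : Poly z) : Poly (fun a => stage1 (x a) (u a) (z a)) := by
  exact Poly.ite (Poly.decide_eq (poly_zeros.comp hu) (poly_zeros.comp hx))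
    (Poly.cons (NPC.Poly.const true) (Poly.cons (NPC.Poly.const true)
      (Poly.cons (NPC.Poly.const false) hz)))
    (Poly.cons (NPC.Poly.const true) (Poly.cons (NPC.Poly.const false)
      (poly_pairBits (Poly.cons (NPC.Poly.const true) hu) (Poly.append hz hz))))

theorem poly_upd {α : Type} [TEnc α] {w : α → List Bool} {b : α → Bool}
    (hb : Poly b) (hw : Poly w) : Poly (fun a => upd (b a) (w a)) := by
  have hi : Poly (fun a => inc (w a)) := poly_inc.comp hw
  exact Poly.ite (Poly.decide_eq hi (poly_zeros.comp hw))
    (Poly.cons (NPC.Poly.const false) (Poly.cons hb (NPC.Poly.const [])))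
    (Poly.cons (NPC.Poly.const true) (Poly.cons (NPC.Poly.const true) (Poly.cons hb hi)))

theorem poly_next : Poly next := by
  have hm : Poly (fun y => (unpair y).2) := poly_snd
  have hx : Poly (fun y => (unpair y).1) := poly_fst
  have hs : Poly (fun y => (unpair y).2.tail) := Poly.tail hm
  have ht : Poly (fun y => (unpair y).2.tail.tail.tail) := Poly.tail (Poly.tail hs)
  exact Poly.ite (Poly.decide_eq hs (NPC.Poly.const []))
    (poly_stage1 hx (NPC.Poly.const []) (NPC.Poly.const [false]))
    (Poly.cond (poly_hd (Poly.tail hs))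
      (poly_upd (Poly.xor (poly_hd hm) (poly_hd ht)) (Poly.tail ht))
      (poly_stage1 hx (Poly.fst (poly_unpair.comp ht)) (Poly.snd (poly_unpair.comp ht))))

/-- the algorithm -/
def alg : SAlg where
  act := act
  act_poly := polyTime_of_poly_list poly_act
  next := next
  next_poly := polyTime_of_poly_list poly_next

/-! ### The contents of the memory -/

/-- the parity of the first `j` answers -/
def parity (A : Oracle) (x : List Bool) (j : ℕ) : Bool :=
  decide (Odd ((Finset.range j).filter
    (fun i => A (x ++ bitsOf (2 ^ x.length) i) = true)).card)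

theorem parity_zero (A : Oracle) (x : List Bool) : parity A x 0 = false := by
  simp [parity]

theorem parity_succ (A : Oracle) (x : List Bool) (j : ℕ) :
    parity A x (j + 1) = (A (x ++ bitsOf (2 ^ x.length) j) ^^ parity A x j) := by
  unfold parity
  rw [Finset.range_add_one, Finset.filter_insert]
  cases h : A (x ++ bitsOf (2 ^ x.length) j)
  · simp
  · rw [if_pos rfl, Finset.card_insert_of_notMem (by simp), Bool.true_xor, ← decide_not,
      decide_eq_decide, Nat.odd_add_one]

/-- the content of the memory after `k` rounds, first stage -/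
def c1 (k : ℕ) : List Bool :=
  if k = 0 then [] else
    true :: false :: pairBits (List.replicate k true) (List.replicate (2 ^ k) false)

/-- the content of the memory in the second stage -/
def c2 (A : Oracle) (x : List Bool) (j : ℕ) : List Bool :=
  if j < 2 ^ 2 ^ x.length then true :: true :: parity A x j :: bitsOf (2 ^ x.length) j
  else [false, parity A x j]

theorem c2_zero (A : Oracle) (x : List Bool) :
    c2 A x 0 = true :: true :: false :: List.replicate (2 ^ x.length) false := by
  unfold c2
  rw [if_pos (by positivity), parity_zero, (bitsOf_eq_zero _ 0).2 (Nat.zero_mod _)]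

theorem stage1_eq (A : Oracle) (x : List Bool) (k : ℕ) :
    stage1 x (List.replicate k true) (List.replicate (2 ^ k) false) =
      if k = x.length then c2 A x 0 else c1 (k + 1) := by
  unfold stage1
  have h1 : (zeros (List.replicate k true) = zeros x) ↔ k = x.length := by
    rw [zeros_eq, zeros_eq, List.length_replicate]
    constructor
    · intro h
      have := congrArg List.length h
      simpa using this
    · intro h
      rw [h]
  by_cases h : k = x.length
  · rw [if_pos (h1.2 h), if_pos h, c2_zero, h]
  · rw [if_neg (fun h2 => h (h1.1 h2)), if_neg h, c1, if_neg (Nat.succ_ne_zero k),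
      List.replicate_succ]
    have h3 : List.replicate (2 ^ k) false ++ List.replicate (2 ^ k) false =
        List.replicate (2 ^ (k + 1)) false := by
      rw [← List.replicate_add]
      congr 1
      rw [pow_succ]; omega
    rw [h3]

theorem next_c1 (A : Oracle) (x : List Bool) (k : ℕ) (b : Bool) :
    next0 x b (c1 k) = if k = x.length then c2 A x 0 else c1 (k + 1) := by
  rw [← stage1_eq A x k]
  unfold next0 c1
  by_cases h : k = 0
  · subst h
    simp
  · rw [if_neg h, if_neg (by simp)]
    simp only [List.tail_cons, hd_cons, cond_false]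
    rw [unpair_pairBits]

theorem act_c1 (x : List Bool) (k : ℕ) : act0 x (c1 k) = [false] := by
  unfold act0 c1
  by_cases h : k = 0
  · rw [if_pos h, if_pos rfl]
  · rw [if_neg h, if_neg (by simp)]
    simp

theorem act_c2 (A : Oracle) (x : List Bool) {j : ℕ} (hj : j < 2 ^ 2 ^ x.length) :
    act0 x (c2 A x j) = false :: (x ++ bitsOf (2 ^ x.length) j) := by
  unfold act0 c2
  rw [if_pos hj, if_neg (by simp)]
  simp

theorem next_c2 (A : Oracle) (x : List Bool) {j : ℕ} (hj : j < 2 ^ 2 ^ x.length) :
    next0 x (A (x ++ bitsOf (2 ^ x.length) j)) (c2 A x j) = c2 A x (j + 1) := by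
  have h0 : next0 x (A (x ++ bitsOf (2 ^ x.length) j)) (c2 A x j) =
      upd (A (x ++ bitsOf (2 ^ x.length) j) ^^ parity A x j) (bitsOf (2 ^ x.length) j) := by
    unfold next0 c2
    rw [if_pos hj, if_neg (by simp)]
    simp
  rw [h0]
  unfold upd
  rw [inc_bitsOf, zeros_eq, len_bitsOf, ← parity_succ]
  simp only [bitsOf_eq_zero]
  unfold c2
  by_cases h : j + 1 < 2 ^ 2 ^ x.length
  · rw [if_pos h, if_neg]
    rw [Nat.mod_eq_of_lt h]
    omega
  · have h1 : j + 1 = 2 ^ 2 ^ x.length := by omega
    rw [if_neg h, if_pos]
    rw [h1, Nat.mod_self]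

theorem act_last (A : Oracle) (x : List Bool) :
    act0 x (c2 A x (2 ^ 2 ^ x.length)) = [true, parity A x (2 ^ 2 ^ x.length)] := by
  unfold act0 c2
  rw [if_neg (lt_irrefl _), if_neg (by simp)]
  simp

theorem reach_c1 (A : Oracle) (x : List Bool) : ∀ k, k ≤ x.length → alg.Reach A x (c1 k)
  | 0, _ => by
    have h : c1 0 = [] := if_pos rfl
    rw [h]
    exact SAlg.Reach.start
  | k + 1, h => by
    have h1 := reach_c1 A x k (by omega)
    have h2 : alg.act (pairBits x (c1 k)) = false :: [] := by
      change act _ = _
      rw [act_pair, act_c1]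
    have h3 := SAlg.Reach.step h1 h2
    have h4 : alg.next (pairBits x (A [] :: c1 k)) = c1 (k + 1) := by
      change next _ = _
      rw [next_pair, next_c1 A x, if_neg (by omega)]
    rw [h4] at h3
    exact h3

theorem reach_c2 (A : Oracle) (x : List Bool) : ∀ j, j ≤ 2 ^ 2 ^ x.length →
    alg.Reach A x (c2 A x j)
  | 0, _ => by
    have h1 := reach_c1 A x x.length le_rfl
    have h2 : alg.act (pairBits x (c1 x.length)) = false :: [] := by
      change act _ = _
      rw [act_pair, act_c1]
    have h3 := SAlg.Reach.step h1 h2
    have h4 : alg.next (pairBits x (A [] :: c1 x.length)) = c2 A x 0 := by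
      change next _ = _
      rw [next_pair, next_c1 A x, if_pos rfl]
    rw [h4] at h3
    exact h3
  | j + 1, h => by
    have h1 := reach_c2 A x j (by omega)
    have h2 : alg.act (pairBits x (c2 A x j)) = false :: (x ++ bitsOf (2 ^ x.length) j) := by
      change act _ = _
      rw [act_pair, act_c2 A x (Nat.lt_of_succ_le h)]
    have h3 := SAlg.Reach.step h1 h2
    have h4 : alg.next (pairBits x (A (x ++ bitsOf (2 ^ x.length) j) :: c2 A x j)) =
        c2 A x (j + 1) := by
      change next _ = _
      rw [next_pair, next_c2 A x (Nat.lt_of_succ_le h)]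
    rw [h4] at h3
    exact h3

theorem of_reach (A : Oracle) (x : List Bool) {s : List Bool} (h : alg.Reach A x s) :
    (∃ k, k ≤ x.length ∧ s = c1 k) ∨ ∃ j, j ≤ 2 ^ 2 ^ x.length ∧ s = c2 A x j := by
  induction h with
  | start => exact Or.inl ⟨0, Nat.zero_le _, (if_pos rfl).symm⟩
  | @step s q h1 h2 ih =>
    rcases ih with ⟨k, hk, rfl⟩ | ⟨j, hj, rfl⟩
    · have h3 : alg.next (pairBits x (A q :: c1 k)) =
          if k = x.length then c2 A x 0 else c1 (k + 1) := by
        change next _ = _
        rw [next_pair, next_c1 A x]
      rw [h3]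
      by_cases h : k = x.length
      · rw [if_pos h]
        exact Or.inr ⟨0, Nat.zero_le _, rfl⟩
      · rw [if_neg h]
        exact Or.inl ⟨k + 1, by omega, rfl⟩
    · change act (pairBits x (c2 A x j)) = _ at h2
      rw [act_pair] at h2
      rcases Nat.lt_or_ge j (2 ^ 2 ^ x.length) with h | h
      · rw [act_c2 A x h, List.cons.injEq] at h2
        refine Or.inr ⟨j + 1, h, ?_⟩
        change next _ = _
        rw [next_pair, ← h2.2, next_c2 A x h]
      · have h3 : j = 2 ^ 2 ^ x.length := le_antisymm hj h
        rw [h3, act_last] at h2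
        simp at h2

theorem length_pair (x a : List Bool) : (pairBits x a).length = 2 * x.length + a.length + 1 :=
  Pool.Agent.H620R2.Gauge.A2.length_pairBits x a

theorem bound_aux (n k : ℕ) (hk : k ≤ n) : 2 * k + 2 ^ k + 3 ≤ 2 ^ (3 * (n + 1)) := by
  have h1 : k < 2 ^ k := Nat.lt_two_pow_self
  have h2 : 2 ^ k ≤ 2 ^ n := Nat.pow_le_pow_right (by norm_num) hk
  have h3 : 1 ≤ 2 ^ n := Nat.one_le_two_pow
  have h4 : 2 ^ (3 * (n + 1)) = 8 * 2 ^ n * 2 ^ (2 * n) := by
    rw [show 3 * (n + 1) = 3 + n + 2 * n by ring, pow_add, pow_add]
    norm_num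
  have h5 : 1 ≤ 2 ^ (2 * n) := Nat.one_le_two_pow
  have h6 : 8 * 2 ^ n * 1 ≤ 8 * 2 ^ n * 2 ^ (2 * n) := Nat.mul_le_mul_left _ h5
  omega

theorem length_c1 {n k : ℕ} (hk : k ≤ n) : (c1 k).length ≤ 2 ^ (3 * (n + 1)) := by
  have h0 := bound_aux n k hk
  unfold c1
  split_ifs
  · simp
  · rw [List.length_cons, List.length_cons, length_pair, List.length_replicate,
      List.length_replicate]
    omega

theorem length_c2 (A : Oracle) (x : List Bool) (j : ℕ) :
    (c2 A x j).length ≤ 2 ^ (3 * (x.length + 1)) := by
  have h0 := bound_aux x.length x.length le_rfl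
  unfold c2
  split_ifs
  · rw [List.length_cons, List.length_cons, List.length_cons, len_bitsOf]
    omega
  · rw [List.length_cons, List.length_cons, List.length_nil]
    have h1 : 0 < 2 ^ x.length := by positivity
    omega

end G6

theorem parE_espace (A : Oracle) : IsESPACE A (parE A) := by
  refine ⟨G6.alg, 3, fun x => ⟨fun s hs => ?_, ?_⟩⟩
  · rcases G6.of_reach A x hs with ⟨k, hk, rfl⟩ | ⟨j, -, rfl⟩
    · exact G6.length_c1 hk
    · exact G6.length_c2 A x j
  · refine ⟨G6.c2 A x (2 ^ 2 ^ x.length), [G6.parity A x (2 ^ 2 ^ x.length)],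
      G6.reach_c2 A x _ le_rfl, ?_, ?_⟩
    · change G6.act _ = _
      rw [G6.act_pair, G6.act_last]
    · simp [parE, G6.parity]

end Pool.Agent.H752.GE
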