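import Pool.Agent.H752.GE.Base2
import Pool.Agent.H752.GE.G2
import Pool.Agent.H752.GE.G4
import Pool.Agent.H620R2.Gauge2.EventN
import Pool.Agent.H620R2.Gauge2.Null

/-! Nondeterministic linear-exponential time with polynomial advice does not contain the parity
language, except for a null set of oracles. -/

namespace Pool.Agent.H752.GE

open Pool.Agent.NPC Finset H568R2 Pool.Agent.H676 Pool.Agent.H620R2.Gauge

open Classical in
/-- the positions of the strings `x w` with `|w| = m` -/
noncomputable def G8_blk (N m : ℕ) (x : List Bool) : Finset (Fin N) :=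
  univ.filter (fun i => ∃ j < 2 ^ m, str i = x ++ bitsOf m j)

theorem G8_card_filter (N m : ℕ) (x : List Bool) (hN : 2 ^ (x.length + m + 1) ≤ N + 1)
    (P : List Bool → Prop) [DecidablePred P] :
    ((G8_blk N m x).filter (fun i : Fin N => P (str i))).card =
      ((Finset.range (2 ^ m)).filter (fun j => P (x ++ bitsOf m j))).card := by
  symm
  have hlen : ∀ j, (x ++ bitsOf m j).length = x.length + m := by
    intro j
    rw [List.length_append, length_bitsOf]
  have hlt : ∀ j, idx (x ++ bitsOf m j) < N := by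
    intro j
    have h1 := idx_lt (x ++ bitsOf m j)
    rw [hlen] at h1
    omega
  refine Finset.card_bij (fun j _ => ⟨idx (x ++ bitsOf m j), hlt j⟩) ?_ ?_ ?_
  · intro j hj
    rw [Finset.mem_filter, Finset.mem_range] at hj
    rw [Finset.mem_filter, G8_blk, Finset.mem_filter]
    refine ⟨⟨Finset.mem_univ _, j, hj.1, ?_⟩, ?_⟩
    · exact str_idx _
    · show P (str (idx (x ++ bitsOf m j)))
      rw [str_idx]; exact hj.2
  · intro j hj j' hj' h
    rw [Finset.mem_filter, Finset.mem_range] at hj hj'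
    have h1 : idx (x ++ bitsOf m j) = idx (x ++ bitsOf m j') := by
      simpa using h
    have h2 : x ++ bitsOf m j = x ++ bitsOf m j' := by
      rw [← str_idx (x ++ bitsOf m j), h1, str_idx]
    exact bitsOf_inj hj.1 hj'.1 (List.append_cancel_left h2)
  · intro i hi
    rw [Finset.mem_filter, G8_blk, Finset.mem_filter] at hi
    obtain ⟨⟨_, j, hj, hij⟩, hP⟩ := hi
    refine ⟨j, ?_, ?_⟩
    · rw [Finset.mem_filter, Finset.mem_range]
      exact ⟨hj, by rw [← hij]; exact hP⟩
    · apply Fin.ext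
      show idx (x ++ bitsOf m j) = i
      rw [← hij, idx_str]

theorem G8_card (N m : ℕ) (x : List Bool) (hN : 2 ^ (x.length + m + 1) ≤ N + 1) :
    (G8_blk N m x).card = 2 ^ m := by
  have h := G8_card_filter N m x hN (fun _ => True)
  simpa using h

theorem G8_par (N : ℕ) (A : Oracle) (x : List Bool)
    (hN : 2 ^ (x.length + 2 ^ x.length + 1) ≤ N + 1) :
    par (G8_blk N (2 ^ x.length) x) (pre N A) = true ↔ x ∈ parE A := by
  have h := G8_card_filter N (2 ^ x.length) x hN (fun y => A y = true)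
  unfold par pre parE
  rw [decide_eq_true_eq, Set.mem_ofPred_eq, ← h]

theorem G8_disj (N m : ℕ) (x x' : List Bool) (hl : x.length = x'.length) (hne : x ≠ x') :
    Disjoint (G8_blk N m x) (G8_blk N m x') := by
  rw [Finset.disjoint_left]
  intro i hi hi'
  rw [G8_blk, Finset.mem_filter] at hi hi'
  obtain ⟨_, j, _, hj⟩ := hi
  obtain ⟨_, j', _, hj'⟩ := hi'
  apply hne
  rw [hj] at hj'
  exact (List.append_inj hj' hl).1

/-- the bound for the length of all strings that occur -/
def G8_len (c n q : ℕ) : ℕ := 2 * n + 1 + q + (2 * 2 ^ (c * (n + 1)) + 1)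

/-- the verifier on the input number `k` with advice `h` -/
noncomputable def G8_V (M : Alg) (c n N : ℕ) (h : List Bool) (k : Fin (2 ^ n))
    (a : Fin N → Bool) : Bool :=
  QF (2 ^ (c * (n + 1))) (leaf M N) 1 true (pairBits (bitsOf n k) h) a

/-- The event. -/
def G8_Ev (M : Alg) (c : ℕ) (p : Polynomial ℕ) (n N : ℕ) (a : Fin N → Bool) : Prop :=
  ∃ l ≤ p.eval n, ∃ h : List Bool, h.length = l ∧ ∀ k : Fin (2 ^ n),
    G8_V M c n N h k a = par (G8_blk N (2 ^ n) (bitsOf n k)) a

open Classical in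
theorem G8_bound (M : Alg) (c : ℕ) (p : Polynomial ℕ) {n N : ℕ}
    (hp : 2 * (2 ^ n * M.p.eval (G8_len c n (p.eval n))) ≤ 2 ^ 2 ^ n)
    (hN : 2 ^ (n + 2 ^ n + 1) ≤ N + 1) :
    Ex unif (fun a : Fin N → Bool => if G8_Ev M c p n N a then (1 : ℝ) else 0) ≤
      2 ^ (2 * p.eval n) * (2 * (1 / 2 : ℝ) ^ 2 ^ n) := by
  have h1 : ∀ l ∈ Finset.range (p.eval n + 1), ∀ h ∈ strsOf l,
      Ex unif (fun a : Fin N → Bool => if ∀ k : Fin (2 ^ n),
        G8_V M c n N h k a = par (G8_blk N (2 ^ n) (bitsOf n k)) a then (1 : ℝ) else 0) ≤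
        2 * (1 / 2 : ℝ) ^ 2 ^ n := by
    intro l hl h hh
    rw [Finset.mem_range, Nat.lt_succ_iff] at hl
    have hhl : h.length = l := by
      obtain ⟨i, _, rfl⟩ := Finset.mem_image.1 hh
      rw [length_bitsOf]
    have hcard : ∀ k : Fin (2 ^ n), (G8_blk N (2 ^ n) (bitsOf n k)).card = 2 ^ 2 ^ n := by
      intro k
      exact G8_card N (2 ^ n) _ (by rw [length_bitsOf]; exact hN)
    have := par_comb (I := Fin N) (κ := Fin (2 ^ n))
      (p := M.p.eval (G8_len c n (p.eval n)))
      (fun k => G8_blk N (2 ^ n) (bitsOf n k)) ?_ ?_ ?_ (G8_V M c n N h) ?_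
    · rw [Fintype.card_fin] at this
      refine (Ex_mono unif_nonneg (fun a => ?_)).trans this
      by_cases hk : ∀ k : Fin (2 ^ n),
          G8_V M c n N h k a = par (G8_blk N (2 ^ n) (bitsOf n k)) a
      · rw [if_pos hk, if_pos hk]
      · rw [if_neg hk, if_neg hk]
    · intro k
      rw [← Finset.card_pos, hcard]
      positivity
    · intro k
      rw [hcard, Fintype.card_fin]
      exact hp
    · intro k k' hne
      apply G8_disj
      · rw [length_bitsOf, length_bitsOf]
      · intro he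
        exact hne (Fin.ext (bitsOf_inj k.2 k'.2 he))
    · intro k
      apply cert_QF (ℓ := G8_len c n (p.eval n))
      · intro y hy
        exact (dtr_out M N y).mono (eval_mono M.p hy)
      · rw [length_pairBits, length_bitsOf, hhl]
        unfold G8_len
        omega
  have hU : Ex unif (fun a : Fin N → Bool => if G8_Ev M c p n N a then (1 : ℝ) else 0) ≤
      ∑ l ∈ Finset.range (p.eval n + 1), ∑ h ∈ strsOf l, Ex unif (fun a : Fin N → Bool =>
        if ∀ k : Fin (2 ^ n),
        G8_V M c n N h k a = par (G8_blk N (2 ^ n) (bitsOf n k)) a then (1 : ℝ) else 0) := by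
    simp only [← Ex_sum]
    apply Ex_mono unif_nonneg
    intro a
    by_cases hE : G8_Ev M c p n N a
    · rw [if_pos hE]
      obtain ⟨l, hl, h, hh, hk⟩ := hE
      refine le_trans ?_ (Finset.single_le_sum (f := fun l => ∑ h ∈ strsOf l,
        if ∀ k : Fin (2 ^ n),
        G8_V M c n N h k a = par (G8_blk N (2 ^ n) (bitsOf n k)) a then (1 : ℝ) else 0)
        (fun l _ => Finset.sum_nonneg fun h _ => by positivity)
        (Finset.mem_range.2 (Nat.lt_succ_of_le hl)))
      refine le_trans ?_ (Finset.single_le_sum (f := fun h =>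
        if ∀ k : Fin (2 ^ n),
        G8_V M c n N h k a = par (G8_blk N (2 ^ n) (bitsOf n k)) a then (1 : ℝ) else 0)
        (fun h _ => by positivity) (by rw [← hh]; exact mem_strsOf h))
      rw [if_pos hk]
    · rw [if_neg hE]
      exact Finset.sum_nonneg fun l _ => Finset.sum_nonneg fun h _ => by positivity
  refine hU.trans ((Finset.sum_le_sum fun l hl => Finset.sum_le_sum (h1 l hl)).trans ?_)
  have hB : (0 : ℝ) ≤ 2 * (1 / 2 : ℝ) ^ 2 ^ n := by positivity
  have h2 : ∀ l ∈ Finset.range (p.eval n + 1), ∑ _h ∈ strsOf l, 2 * (1 / 2 : ℝ) ^ 2 ^ n ≤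
      2 ^ p.eval n * (2 * (1 / 2 : ℝ) ^ 2 ^ n) := by
    intro l hl
    rw [Finset.mem_range, Nat.lt_succ_iff] at hl
    rw [Finset.sum_const, nsmul_eq_mul]
    apply mul_le_mul_of_nonneg_right _ hB
    have h5 : (strsOf l).card ≤ 2 ^ p.eval n :=
      (card_strsOf l).trans (Nat.pow_le_pow_right (by norm_num) hl)
    exact_mod_cast h5
  refine (Finset.sum_le_sum h2).trans ?_
  rw [Finset.sum_const, Finset.card_range, nsmul_eq_mul, ← mul_assoc]
  apply mul_le_mul_of_nonneg_right _ hB
  have hp1 : ((p.eval n + 1 : ℕ) : ℝ) ≤ 2 ^ p.eval n := by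
    have : p.eval n + 1 ≤ 2 ^ p.eval n := Nat.lt_two_pow_self
    exact_mod_cast this
  calc ((p.eval n + 1 : ℕ) : ℝ) * 2 ^ p.eval n ≤ 2 ^ p.eval n * 2 ^ p.eval n := by
        gcongr
    _ = 2 ^ (2 * p.eval n) := by rw [← pow_add]; congr 1; ring

/-- the oracles for which the parameters are good -/
def G8_Easy (θ : Alg × ℕ × Polynomial ℕ) : Set Oracle :=
  {A | ∃ (V : List Bool → List Bool) (h : ℕ → List Bool),
    (∀ x, θ.1.out A x = some (V x)) ∧ (∀ n, (h n).length ≤ θ.2.2.eval n) ∧
    ∀ x, x ∈ parE A ↔ ∃ w : List Bool, w.length ≤ 2 ^ (θ.2.1 * (x.length + 1)) ∧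
      V (pairBits w (pairBits x (h x.length))) = [true]}

theorem G8_mem_easy {A : Oracle} (h : IsNEpoly A (parE A)) : ∃ θ, A ∈ G8_Easy θ := by
  obtain ⟨V, c, h, p, ⟨M, hM⟩, hh, hx⟩ := h
  exact ⟨⟨M, c, p⟩, V, h, hM, hh, hx⟩

theorem G8_ev_of_easy (M : Alg) (c : ℕ) (p : Polynomial ℕ) : ∃ qb : Polynomial ℕ,
    ∀ A ∈ G8_Easy (M, c, p), ∀ n N : ℕ,
    2 ^ (qb.eval (G8_len c n (p.eval n)) + 1) ≤ N → 2 ^ (n + 2 ^ n + 1) ≤ N + 1 →
      G8_Ev M c p n N (pre N A) := by
  obtain ⟨qb, hqb⟩ := Alg.out_local M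
  refine ⟨qb, ?_⟩
  rintro A ⟨V, h, hM, hh, hx⟩ n N hN hN'
  have hV : ∀ y : List Bool, y.length ≤ G8_len c n (p.eval n) →
      (V y = [true] ↔ leaf M N y (pre N A) = true) := by
    intro y hy
    obtain ⟨Q, _, hQl, hQA⟩ := hqb A y
    have h1 : M.out (orc N (pre N A)) y = M.out A y := by
      apply hQA
      intro q hq
      apply orc_pre
      have h2 := idx_lt q
      have h3 : q.length ≤ qb.eval (G8_len c n (p.eval n)) :=
        (hQl q hq).trans (eval_mono _ hy)
      have h4 : 2 ^ (q.length + 1) ≤ 2 ^ (qb.eval (G8_len c n (p.eval n)) + 1) :=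
        Nat.pow_le_pow_right (by norm_num) (by omega)
      omega
    unfold leaf
    have h5 := hM y
    simp only at h5
    rw [h1, h5, decide_eq_true_eq, Option.some.injEq]
  refine ⟨(h n).length, hh n, h n, rfl, ?_⟩
  intro k
  have hlen := length_bitsOf n k.val
  have h1 := hx (bitsOf n k)
  rw [hlen] at h1
  have h3 := quant_iff (m := 2 ^ (c * (n + 1))) (G8_len c n (p.eval n)) hV 1 true
    (pairBits (bitsOf n k) (h n)) (by
      rw [length_pairBits, hlen]
      have := hh n
      simp only at this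
      unfold G8_len
      omega)
  have h4 := G8_par N A (bitsOf n k) (by rw [hlen]; exact hN')
  rw [hlen] at h4
  have h5 : (G8_V M c n N (h n) k (pre N A) = true ↔
      par (G8_blk N (2 ^ n) (bitsOf n k)) (pre N A) = true) := by
    rw [h4, h1]
    exact h3.symm
  exact Bool.eq_iff_iff.2 h5

theorem nullP {f : ℕ → ℝ} (hf : CondE f) (O : Set Oracle)
    (hO : ∀ A ∈ O, IsNEpoly A (parE A)) : Null f O := by
  have : Countable (Polynomial ℕ) := by
    have : Function.Injective (fun p : Polynomial ℕ => (p.toFinsupp.coeff : ℕ →₀ ℕ)) := by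
      intro p q h
      ext n
      exact DFunLike.congr_fun h n
    exact this.countable
  refine (null_iUnion (f := f) G8_Easy fun θ => ?_).mono fun A hA => ?_
  · obtain ⟨M, c, p⟩ := θ
    intro δ hδ
    obtain ⟨qb, hQ⟩ := G8_ev_of_easy M c p
    obtain ⟨n, N, s, hn, hs, hp, hN, hb⟩ := asymD c
      (M.p.comp (2 * Polynomial.X + 2 + p)) (qb.comp (2 * Polynomial.X + 2 + p)) (2 * p) f hf δ hδ
    have hlen : G8_len c n (p.eval n) ≤
        (2 * Polynomial.X + 2 + p).eval (n + 2 ^ (c * (n + 1))) := by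
      simp only [Polynomial.eval_add, Polynomial.eval_mul, Polynomial.eval_X,
        Polynomial.eval_ofNat]
      have := eval_mono p (Nat.le_add_right n (2 ^ (c * (n + 1))))
      unfold G8_len
      omega
    have e1 : M.p.eval (G8_len c n (p.eval n)) ≤
        (M.p.comp (2 * Polynomial.X + 2 + p)).eval (n + 2 ^ (c * (n + 1))) := by
      rw [Polynomial.eval_comp]
      exact eval_mono _ hlen
    have e2 : qb.eval (G8_len c n (p.eval n)) ≤
        (qb.comp (2 * Polynomial.X + 2 + p)).eval (n + 2 ^ (c * (n + 1))) := by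
      rw [Polynomial.eval_comp]
      exact eval_mono _ hlen
    have hN1 : 2 ^ (qb.eval (G8_len c n (p.eval n)) + 1) ≤ N :=
      le_trans (Nat.pow_le_pow_right (by norm_num) (by omega)) hN
    have hn2 : n < 2 ^ n := Nat.lt_two_pow_self
    have hN2 : 2 ^ (n + 2 ^ n + 1) ≤ N + 1 :=
      le_trans (Nat.pow_le_pow_right (by norm_num) (by omega)) (hN.trans (Nat.le_succ _))
    refine cover_of_event (G8_Ev M c p n N) (G8_Easy (M, c, p))
      (fun A hA => hQ A hA n N hN1 hN2) f δ ?_
    have hev := G8_bound M c p (n := n) (N := N)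
      (le_trans (Nat.mul_le_mul_left _ (Nat.mul_le_mul_left _ e1)) hp) hN2
    have e3 : (2 * p).eval n = 2 * p.eval n := by simp
    rw [e3] at hb
    refine (mul_le_mul_of_nonneg_right (hev.trans ?_) (by positivity)).trans hb
    have hsn : s ≤ 2 ^ n := by omega
    have e4 : (1 / 2 : ℝ) ^ 2 ^ n ≤ (1 / 2 : ℝ) ^ s :=
      pow_le_pow_of_le_one (by norm_num) (by norm_num) hsn
    gcongr
  · obtain ⟨θ, hθ⟩ := G8_mem_easy (hO A hA)
    exact Set.mem_iUnion.2 ⟨θ, hθ⟩

end Pool.Agent.H752.GE
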