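import Pool.Agent.H752.GE.Base
import Pool.Agent.H676.DT

/-! The expected number of visits of the good set. -/

set_option linter.unusedSectionVars false

namespace Pool.Agent.H752.GE

open Pool.Agent.NPC Finset H568R2 Pool.Agent.H676 Pool.Agent.H620R2.Gauge

namespace N1

variable {I κ J : Type*} [DecidableEq I] [Fintype κ] [Fintype J]

theorem full_plant {S S' : Finset I} {a : I → Bool} (h : Full S a) : Full S (plant S' a) := by
  intro i hi
  unfold plant
  split_ifs
  · rfl
  · exact h i hi

theorem full_self (S : Finset I) (a : I → Bool) : Full S (plant S a) := by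
  intro i hi
  unfold plant
  rw [if_pos hi]

theorem goodF_le_one (W : κ → J → Finset I) (V : κ → (I → Bool) → Bool) (a : I → Bool) :
    goodF W V a ≤ 1 := by
  unfold goodF
  split_ifs <;> norm_num

theorem goodF_nonneg (W : κ → J → Finset I) (V : κ → (I → Bool) → Bool) (a : I → Bool) :
    0 ≤ goodF W V a := by
  unfold goodF
  split_ifs <;> norm_num

theorem avg_mono (W : κ → J → Finset I) {F G : (I → Bool) → ℝ} (h : ∀ a, F a ≤ G a)
    (a : I → Bool) : avg W F a ≤ avg W G a := by
  unfold avg
  exact div_le_div_of_nonneg_right (Finset.sum_le_sum fun u _ => h _) (by positivity)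

theorem avg_nonneg (W : κ → J → Finset I) {F : (I → Bool) → ℝ} (h : ∀ a, 0 ≤ F a)
    (a : I → Bool) : 0 ≤ avg W F a := by
  unfold avg
  exact div_nonneg (Finset.sum_nonneg fun u _ => h _) (by positivity)

theorem avg_le_const (W : κ → J → Finset I) {F : (I → Bool) → ℝ} {c : ℝ} (hc : 0 ≤ c)
    {a : I → Bool} (h : ∀ u : κ × J, F (plant (W u.1 u.2) a) ≤ c) : avg W F a ≤ c := by
  unfold avg
  have h1 : ∑ u : κ × J, F (plant (W u.1 u.2) a) ≤ ∑ _u : κ × J, c :=
    Finset.sum_le_sum fun u _ => h u
  rw [Finset.sum_const, Finset.card_univ, Fintype.card_prod, nsmul_eq_mul] at h1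
  push_cast at h1
  rcases eq_or_lt_of_le (show (0 : ℝ) ≤ (Fintype.card κ : ℝ) * Fintype.card J by positivity) with
    h2 | h2
  · rw [← h2, div_zero]
    exact hc
  · rw [div_le_iff₀ h2]
    calc _ ≤ _ := h1
      _ = c * (Fintype.card κ * Fintype.card J) := by ring

theorem iter_le_one (W : κ → J → Finset I) (V : κ → (I → Bool) → Bool) (i : ℕ) (a : I → Bool) :
    (avg W)^[i] (goodF W V) a ≤ 1 := by
  induction i generalizing a with
  | zero => exact goodF_le_one W V a
  | succ i ih =>
    rw [Function.iterate_succ_apply']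
    exact avg_le_const W zero_le_one fun u => ih _

theorem iter_nonneg (W : κ → J → Finset I) (V : κ → (I → Bool) → Bool) (i : ℕ) (a : I → Bool) :
    0 ≤ (avg W)^[i] (goodF W V) a := by
  induction i generalizing a with
  | zero => exact goodF_nonneg W V a
  | succ i ih =>
    rw [Function.iterate_succ_apply']
    exact avg_nonneg W (fun a => ih a) a

/-- two full sets of one test persist -/
theorem iter_two (W : κ → J → Finset I) (V : κ → (I → Bool) → Bool) (i : ℕ) (a : I → Bool)
    (h : ∃ k j j', j ≠ j' ∧ Full (W k j) a ∧ Full (W k j') a) :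
    (avg W)^[i] (goodF W V) a ≤ 0 := by
  induction i generalizing a with
  | zero =>
    obtain ⟨k, j, j', hne, h1, h2⟩ := h
    show goodF W V a ≤ 0
    unfold goodF
    rw [if_neg]
    intro hg
    exact hne (hg.2 k j j' h1 h2)
  | succ i ih =>
    rw [Function.iterate_succ_apply']
    refine avg_le_const W le_rfl fun u => ih _ ?_
    obtain ⟨k, j, j', hne, h1, h2⟩ := h
    exact ⟨k, j, j', hne, full_plant h1, full_plant h2⟩

open Classical in
/-- the number of sets meeting a small set -/
theorem card_meet (W : κ → J → Finset I)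
    (hd : ∀ k j k' j', (k, j) ≠ (k', j') → Disjoint (W k j) (W k' j')) (C : Finset I) :
    (univ.filter (fun u : κ × J => ¬ Disjoint (W u.1 u.2) C)).card ≤ C.card := by
  have h1 : ∀ u ∈ univ.filter (fun u : κ × J => ¬ Disjoint (W u.1 u.2) C),
      ∃ i, i ∈ W u.1 u.2 ∧ i ∈ C := by
    intro u hu
    rw [Finset.mem_filter] at hu
    obtain ⟨i, h1, h2⟩ := Finset.not_disjoint_iff.1 hu.2
    exact ⟨i, h1, h2⟩
  rcases isEmpty_or_nonempty I with hI | hI
  · rw [Finset.filter_eq_empty_iff.2 (fun u _ => ?_)]
    · simp
    · rw [not_not, Finset.disjoint_left]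
      intro i
      exact isEmptyElim i
  choose! g hg using h1
  refine Finset.card_le_card_of_injOn g (fun u hu => (hg u hu).2) ?_
  intro u hu u' hu' he
  by_contra hne
  have h2 := (hg u hu).1
  have h3 := (hg u' hu').1
  rw [← he] at h3
  exact Finset.disjoint_left.1 (hd u.1 u.2 u'.1 u'.2 (fun h => hne (Prod.ext
    (congrArg Prod.fst h) (congrArg Prod.snd h)))) h2 h3

open Classical in
theorem card_meet_one (W : κ → J → Finset I)
    (hd : ∀ k j k' j', (k, j) ≠ (k', j') → Disjoint (W k j) (W k' j')) (k : κ) (C : Finset I) :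
    (univ.filter (fun j : J => ¬ Disjoint (W k j) C)).card ≤ C.card := by
  have h1 : ∀ j ∈ univ.filter (fun j : J => ¬ Disjoint (W k j) C), ∃ i, i ∈ W k j ∧ i ∈ C := by
    intro u hu
    rw [Finset.mem_filter] at hu
    obtain ⟨i, h1, h2⟩ := Finset.not_disjoint_iff.1 hu.2
    exact ⟨i, h1, h2⟩
  rcases isEmpty_or_nonempty I with hI | hI
  · rw [Finset.filter_eq_empty_iff.2 (fun u _ => ?_)]
    · simp
    · rw [not_not, Finset.disjoint_left]
      intro i
      exact isEmptyElim i
  choose! g hg using h1
  refine Finset.card_le_card_of_injOn g (fun u hu => (hg u hu).2) ?_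
  intro u hu u' hu' he
  by_contra hne
  have h2 := (hg u hu).1
  have h3 := (hg u' hu').1
  rw [← he] at h3
  exact Finset.disjoint_left.1 (hd k u k u' (fun h => hne (congrArg Prod.snd h))) h2 h3

theorem plant_agree {S C : Finset I} (h : Disjoint S C) (a : I → Bool) :
    ∀ i ∈ C, plant S a i = a i := by
  intro i hi
  unfold plant
  rw [if_neg (fun h' => Finset.disjoint_left.1 h h' hi)]

open Classical in
/-- once a positive certificate and a full set are there, coming back is unlikely -/
theorem iter_cert {p : ℕ} (W : κ → J → Finset I)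
    (hd : ∀ k j k' j', (k, j) ≠ (k', j') → Disjoint (W k j) (W k' j'))
    (V : κ → (I → Bool) → Bool) (k : κ) (C : Finset I) (hC : C.card ≤ p) (a₀ : I → Bool)
    (hV : ∀ y : I → Bool, (∀ i ∈ C, y i = a₀ i) → V k y = true) (i : ℕ) (a : I → Bool)
    (ha : ∀ i ∈ C, a i = a₀ i) (hf : ∃ j, Full (W k j) a) :
    (avg W)^[i] (goodF W V) a ≤ i * (p / (Fintype.card κ * Fintype.card J)) := by
  induction i generalizing a with
  | zero =>
    show goodF W V a ≤ _
    unfold goodF
    rw [if_neg]
    · simp
    · intro hg
      have h1 := hV a ha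
      exact (hg.1 k).1 h1 hf
  | succ i ih =>
    rw [Function.iterate_succ_apply']
    set q : ℝ := p / (Fintype.card κ * Fintype.card J) with hq
    have hq0 : 0 ≤ q := by positivity
    have h1 : ∀ u : κ × J, (avg W)^[i] (goodF W V) (plant (W u.1 u.2) a) ≤
        (if ¬ Disjoint (W u.1 u.2) C then 1 else 0) + i * q := by
      intro u
      by_cases hu : Disjoint (W u.1 u.2) C
      · rw [if_neg (not_not.2 hu), zero_add]
        apply ih
        · intro i' hi'
          rw [plant_agree hu a i' hi']
          exact ha i' hi'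
        · obtain ⟨j, hj⟩ := hf
          exact ⟨j, full_plant hj⟩
      · rw [if_pos hu]
        have h2 := iter_le_one W V i (plant (W u.1 u.2) a)
        have h3 : 0 ≤ (i : ℝ) * q := by positivity
        linarith
    unfold avg
    have h2 := Finset.sum_le_sum (s := (univ : Finset (κ × J))) fun u _ => h1 u
    rw [Finset.sum_add_distrib, Finset.sum_const, Finset.card_univ, Fintype.card_prod,
      nsmul_eq_mul, ← Finset.sum_filter] at h2
    rw [Finset.sum_const, nsmul_eq_mul, mul_one] at h2
    have h3 : ((univ.filter (fun u : κ × J => ¬ Disjoint (W u.1 u.2) C)).card : ℝ) ≤ p := by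
      exact_mod_cast (card_meet W hd C).trans hC
    push_cast at h2 ⊢
    rcases eq_or_lt_of_le (show (0 : ℝ) ≤ (Fintype.card κ : ℝ) * Fintype.card J by positivity)
      with h4 | h4
    · rw [← h4, div_zero]
      positivity
    · rw [div_le_iff₀ h4]
      have h5 : q * (Fintype.card κ * Fintype.card J) = p := by
        rw [hq, div_mul_cancel₀ _ h4.ne']
      calc _ ≤ _ := h2
        _ ≤ (p : ℝ) + Fintype.card κ * Fintype.card J * (i * q) := by linarith
        _ = (i + 1) * q * (Fintype.card κ * Fintype.card J) := by rw [← h5]; ring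

open Classical in
/-- coming back to the good set is unlikely -/
theorem ret {p : ℕ} (hκ : 0 < Fintype.card κ) (hJ : 0 < Fintype.card J) (W : κ → J → Finset I)
    (hd : ∀ k j k' j', (k, j) ≠ (k', j') → Disjoint (W k j) (W k' j'))
    (V : κ → (I → Bool) → Bool) (hV : ∀ k, ∀ x, V k x = true → ∃ A : Finset I, A.card ≤ p ∧
      ∀ y, (∀ i ∈ A, y i = x i) → V k y = true) (a : I → Bool) (ha : Good W V a) (r : ℕ) :
    (avg W)^[r + 1] (goodF W V) a ≤ (1 + p) / Fintype.card J +
      r * (p / (Fintype.card κ * Fintype.card J)) := by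
  rw [Function.iterate_succ_apply']
  have hK : (0 : ℝ) < Fintype.card κ := by exact_mod_cast hκ
  have hJ' : (0 : ℝ) < Fintype.card J := by exact_mod_cast hJ
  set q : ℝ := p / (Fintype.card κ * Fintype.card J) with hq
  have hq0 : 0 ≤ q := by positivity
  -- certificates
  have hcert : ∀ k, ∃ C : Finset I, C.card ≤ p ∧ (¬ HitF (W k) a →
      ∀ y : I → Bool, (∀ i ∈ C, y i = a i) → V k y = true) := by
    intro k
    by_cases h : HitF (W k) a
    · exact ⟨∅, by simp, fun h' => absurd h h'⟩
    · obtain ⟨C, h1, h2⟩ := hV k a ((ha.1 k).2 h)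
      exact ⟨C, h1, fun _ => h2⟩
  choose C hCp hC using hcert
  have h1 : ∀ k : κ, ∑ j : J, (avg W)^[r] (goodF W V) (plant (W k j) a) ≤
      1 + p + Fintype.card J * (r * q) := by
    intro k
    have h2 : ∀ j : J, (avg W)^[r] (goodF W V) (plant (W k j) a) ≤
        ((if Full (W k j) a then 1 else 0) + (if ¬ Disjoint (W k j) (C k) then 1 else 0)) +
          r * q := by
      intro j
      have h0 : 0 ≤ (r : ℝ) * q := by positivity
      have hle := iter_le_one W V r (plant (W k j) a)
      by_cases hF : Full (W k j) a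
      · rw [if_pos hF]
        have : (0 : ℝ) ≤ if ¬ Disjoint (W k j) (C k) then 1 else 0 := by positivity
        linarith
      · rw [if_neg hF, zero_add]
        by_cases hH : HitF (W k) a
        · obtain ⟨j', hj'⟩ := hH
          have hjj : j' ≠ j := by
            rintro rfl
            exact hF hj'
          have h3 := iter_two W V r (plant (W k j) a)
            ⟨k, j', j, hjj, full_plant hj', full_self _ _⟩
          have : (0 : ℝ) ≤ if ¬ Disjoint (W k j) (C k) then 1 else 0 := by positivity
          linarith
        · by_cases hD : Disjoint (W k j) (C k)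
          · rw [if_neg (not_not.2 hD), zero_add]
            exact iter_cert W hd V k (C k) (hCp k) a (hC k hH) r (plant (W k j) a)
              (plant_agree hD a) ⟨j, full_self _ _⟩
          · rw [if_pos hD]
            linarith
    have h3 := Finset.sum_le_sum (s := (univ : Finset J)) fun j _ => h2 j
    rw [Finset.sum_add_distrib, Finset.sum_add_distrib, ← Finset.sum_filter,
      ← Finset.sum_filter, Finset.sum_const, Finset.sum_const, Finset.sum_const,
      Finset.card_univ, nsmul_eq_mul, nsmul_eq_mul, nsmul_eq_mul, mul_one, mul_one] at h3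
    have h4 : ((univ.filter (fun j : J => Full (W k j) a)).card : ℝ) ≤ 1 := by
      have : (univ.filter (fun j : J => Full (W k j) a)).card ≤ 1 := by
        rw [Finset.card_le_one]
        intro j hj j' hj'
        rw [Finset.mem_filter] at hj hj'
        exact ha.2 k j j' hj.2 hj'.2
      exact_mod_cast this
    have h5 : ((univ.filter (fun j : J => ¬ Disjoint (W k j) (C k))).card : ℝ) ≤ p := by
      exact_mod_cast (card_meet_one W hd k (C k)).trans (hCp k)
    linarith
  unfold avg
  rw [Fintype.sum_prod_type]
  have h2 := Finset.sum_le_sum (s := (univ : Finset κ)) fun k _ => h1 k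
  rw [Finset.sum_const, Finset.card_univ, nsmul_eq_mul] at h2
  rw [div_le_iff₀ (by positivity)]
  calc _ ≤ _ := h2
    _ = ((1 + p) / Fintype.card J + r * q) * (Fintype.card κ * Fintype.card J) := by
      field_simp

end N1

section

variable {I κ J : Type*} [Fintype I] [DecidableEq I] [Fintype κ] [Fintype J]

open N1 in
open Classical in
/-- the expected number of visits of the set of good points -/
theorem visits {p T n : ℕ} (hκ : 0 < Fintype.card κ) (hT : T ≤ Fintype.card κ)
    (hJ : Fintype.card J = 2 ^ n) (hp : T * (1 + 2 * p) ≤ 2 ^ n) (W : κ → J → Finset I)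
    (hd : ∀ k j k' j', (k, j) ≠ (k', j') → Disjoint (W k j) (W k' j'))
    (V : κ → (I → Bool) → Bool) (hV : ∀ k, Cert p true (V k)) (a : I → Bool) :
    ∑ i ∈ range T, (avg W)^[i] (goodF W V) a ≤ 2 := by
  have hJ0 : 0 < Fintype.card J := by rw [hJ]; positivity
  have hK : (0 : ℝ) < Fintype.card κ := by exact_mod_cast hκ
  have hJ' : (0 : ℝ) < Fintype.card J := by exact_mod_cast hJ0
  set β : ℝ := (1 + 2 * p) / Fintype.card J with hβ
  have hβ0 : 0 ≤ β := by positivity
  have hTβ : T * β ≤ 1 := by
    rw [hβ, ← mul_div_assoc, div_le_one hJ', hJ]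
    exact_mod_cast hp
  have hret : ∀ (b : I → Bool), Good W V b → ∀ r < T, (avg W)^[r + 1] (goodF W V) b ≤ β := by
    intro b hb r hr
    refine (ret hκ hJ0 W hd V (fun k x hx => hV k x hx) b hb r).trans ?_
    have h1 : (r : ℝ) ≤ Fintype.card κ := by exact_mod_cast (hr.le.trans hT)
    have h2 : (r : ℝ) * (p / (Fintype.card κ * Fintype.card J)) ≤ p / Fintype.card J := by
      rw [← mul_div_assoc, div_le_div_iff₀ (by positivity) hJ']
      have : (r : ℝ) * p ≤ Fintype.card κ * p := mul_le_mul_of_nonneg_right h1 (by positivity)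
      nlinarith
    calc _ ≤ (1 + (p : ℝ)) / Fintype.card J + p / Fintype.card J := by linarith
      _ = β := by rw [hβ]; ring
  have key : ∀ T' ≤ T, ∀ b : I → Bool,
      ∑ i ∈ range T', (avg W)^[i] (goodF W V) b ≤ 1 + T' * β := by
    intro T' hT'
    induction T' with
    | zero => intro b; simp
    | succ T' ih =>
      intro b
      rw [Finset.sum_range_succ']
      have h0 : (avg W)^[0] (goodF W V) b = goodF W V b := rfl
      rw [h0]
      by_cases hb : Good W V b
      · have h1 : ∑ i ∈ range T', (avg W)^[i + 1] (goodF W V) b ≤ ∑ _i ∈ range T', β :=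
          Finset.sum_le_sum fun i hi => hret b hb i (by
            have := Finset.mem_range.1 hi
            omega)
        rw [Finset.sum_const, Finset.card_range, nsmul_eq_mul] at h1
        have h2 := goodF_le_one W V b
        push_cast
        linarith
      · have h2 : goodF W V b = 0 := by
          unfold goodF
          rw [if_neg hb]
        rw [h2, add_zero]
        have h3 : ∑ i ∈ range T', (avg W)^[i + 1] (goodF W V) b =
            avg W (fun c => ∑ i ∈ range T', (avg W)^[i] (goodF W V) c) b := by
          simp only [Function.iterate_succ_apply']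
          unfold avg
          rw [← Finset.sum_div, Finset.sum_comm]
        rw [h3]
        have h4 : avg W (fun c => ∑ i ∈ range T', (avg W)^[i] (goodF W V) c) b ≤ 1 + T' * β :=
          avg_le_const W (by positivity) fun u => ih (by omega) _
        push_cast
        linarith
  have := key T le_rfl a
  linarith

end

end Pool.Agent.H752.GE
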