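import Pool.Agent.H752.GE.Base
import Pool.Agent.NPC.Num

/-!
# Closure properties of the bounds
-/

set_option autoImplicit false

namespace Pool.Agent.H752.GE

open Pool.Agent.NPC Finset H568R2 Pool.Agent.H620R2.Gauge

/-- what is needed of the bounds -/
structure Closed {Θ : Type} (bd : Θ → ℕ → ℕ) : Prop where
  mono : ∀ θ, Monotone (bd θ)
  upoly : ∀ θ, UPoly (fun x : List Bool => bd θ x.length)
  bound : ∀ θ ρ : Θ, ∃ θ' : Θ, ∀ m, bd θ (2 * m + 1) + bd ρ (2 * m + 1) + 4 * m + 30 ≤ bd θ' m

namespace N12

theorem eval_mono (p : Polynomial ℕ) : Monotone (fun m => p.eval m) := by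
  intro a b hab
  simp only [Polynomial.eval_eq_sum, Polynomial.sum]
  apply Finset.sum_le_sum
  intro i _
  exact Nat.mul_le_mul le_rfl (Nat.pow_le_pow_left hab i)

end N12

theorem closedE : Closed bdE where
  mono := by
    intro θ a b hab
    simp only [bdE]
    exact Nat.mul_le_mul le_rfl (by omega)
  upoly := by
    intro θ
    exact (UPoly.const θ).mul ((UPoly.length Poly.id).add (UPoly.const 1))
  bound := by
    intro θ ρ
    refine ⟨2 * θ + 2 * ρ + 34, fun m => ?_⟩
    simp only [bdE]
    nlinarith

theorem closedX : Closed bdX where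
  mono := N12.eval_mono
  upoly := by
    intro θ
    exact (UPoly.length Poly.id).eval θ
  bound := by
    intro θ ρ
    refine ⟨θ.comp (2 * Polynomial.X + 1) + ρ.comp (2 * Polynomial.X + 1) +
      4 * Polynomial.X + 30, fun m => ?_⟩
    simp only [bdX]
    simp

end Pool.Agent.H752.GE
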