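import Pool.Agent.H752.GE.Base

/-! # Task N2: comparison of the planted distribution with the uniform one -/

set_option linter.unusedSectionVars false

namespace Pool.Agent.H752.GE

open Pool.Agent.NPC Finset H568R2 Pool.Agent.H620R2.Gauge

namespace N2

section

variable {I : Type*} [Fintype I] [DecidableEq I]

theorem unif_sum' : ∑ a, unif a = 1 := by
  unfold unif
  simp

theorem unif_nonneg' (a : Bool) : 0 ≤ unif a := by
  unfold unif
  norm_num

theorem plant_single (x : I) (a : I → Bool) : plant {x} a = Function.update a x true := by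
  funext i
  by_cases h : i = x
  · subst h; simp [plant]
  · simp [plant, h]

theorem plant_insert (x : I) (S : Finset I) (a : I → Bool) :
    plant (insert x S) a = plant {x} (plant S a) := by
  funext i
  by_cases h : i = x
  · subst h; simp [plant]
  · simp [plant, h]

theorem ex_plant_one (x : I) (H : (I → Bool) → ℝ) :
    Ex unif (fun a => H (plant {x} a)) =
      2 * Ex unif (fun a => if a x = true then H a else 0) := by
  rw [Ex_resample unif_sum' (fun a : I → Bool => if a x = true then H a else 0) x, ← Ex_smul]
  refine congrArg (Ex unif) (funext fun a => ?_)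
  rw [Fintype.sum_bool]
  simp only [Function.update_self, if_true, plant_single, unif]
  simp

open Classical in
theorem ex_plant (S : Finset I) (G : (I → Bool) → ℝ) :
    Ex unif (fun a => G (plant S a)) =
      2 ^ S.card * Ex unif (fun a => if Full S a then G a else 0) := by
  induction S using Finset.induction_on generalizing G with
  | empty =>
    have h : ∀ a : I → Bool, plant (∅ : Finset I) a = a := by
      intro a
      funext i
      simp [plant]
    have h2 : ∀ a : I → Bool, Full (∅ : Finset I) a := by
      intro a i hi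
      simp at hi
    simp only [h, h2, if_true, Finset.card_empty, pow_zero, one_mul]
  | insert x S hx ih =>
    have h1 : (fun a : I → Bool => G (plant (insert x S) a)) =
        fun a => G (plant {x} (plant S a)) := by
      funext a
      rw [plant_insert]
    rw [h1, ih (fun b => G (plant {x} b))]
    have h2 : (fun a : I → Bool => if Full S a then G (plant {x} a) else 0) =
        fun a => if Full S (plant {x} a) then G (plant {x} a) else 0 := by
      funext a
      have h3 : Full S (plant {x} a) ↔ Full S a := by
        unfold Full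
        refine forall₂_congr fun i hi => ?_
        have : i ≠ x := fun h => hx (h ▸ hi)
        simp [plant, this]
      simp only [h3]
    rw [h2, ex_plant_one x (fun b => if Full S b then G b else 0),
      Finset.card_insert_of_notMem hx, pow_succ, mul_assoc]
    congr 2
    refine congrArg (Ex unif) (funext fun a => ?_)
    by_cases h3 : a x = true
    · by_cases h4 : Full S a
      · rw [if_pos h3, if_pos h4, if_pos]
        intro i hi
        rcases Finset.mem_insert.mp hi with h | h
        · rw [h, h3]
        · exact h4 i h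
      · rw [if_pos h3, if_neg h4, if_neg]
        intro h
        exact h4 fun i hi => h i (Finset.mem_insert_of_mem hi)
    · rw [if_neg h3, if_neg]
      intro h
      exact h3 (h x (Finset.mem_insert_self x S))

variable {κ J : Type*} [Fintype κ] [Fintype J]

theorem nfull_plant (W : κ → J → Finset I)
    (hd : ∀ k j k' j', (k, j) ≠ (k', j') → Disjoint (W k j) (W k' j')) (u : κ × J)
    (a : I → Bool) : nfull W (plant (W u.1 u.2) a) ≤ nfull W a + 1 := by
  classical
  unfold nfull
  refine le_trans (Finset.card_le_card (t := insert u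
    (univ.filter (fun v : κ × J => Full (W v.1 v.2) a))) ?_) (Finset.card_insert_le _ _)
  intro v hv
  rw [Finset.mem_filter] at hv
  rw [Finset.mem_insert, Finset.mem_filter]
  by_cases h : v = u
  · exact Or.inl h
  · right
    refine ⟨Finset.mem_univ _, fun i hi => ?_⟩
    have h1 := hv.2 i hi
    have h2 : i ∉ W u.1 u.2 := Finset.disjoint_left.mp (hd v.1 v.2 u.1 u.2 h) hi
    simp only [plant, if_neg h2] at h1
    exact h1

theorem avg_nonneg' (W : κ → J → Finset I) {F : (I → Bool) → ℝ} (hF : ∀ a, 0 ≤ F a)
    (a : I → Bool) : 0 ≤ avg W F a := by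
  unfold avg
  exact div_nonneg (Finset.sum_nonneg fun u _ => hF _) (by positivity)

theorem iter_nonneg' (W : κ → J → Finset I) {F : (I → Bool) → ℝ} (hF : ∀ a, 0 ≤ F a) (i : ℕ)
    (a : I → Bool) : 0 ≤ (avg W)^[i] F a := by
  induction i generalizing a with
  | zero => exact hF a
  | succ i ih =>
    rw [Function.iterate_succ_apply']
    exact avg_nonneg' W ih a

theorem one_step {w : ℕ} (hκ : 0 < Fintype.card κ) (hJ : 0 < Fintype.card J)
    (W : κ → J → Finset I) (hW : ∀ k j, (W k j).card = w)
    (hd : ∀ k j k' j', (k, j) ≠ (k', j') → Disjoint (W k j) (W k' j'))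
    (F : (I → Bool) → ℝ) (hF : ∀ a, 0 ≤ F a) (g : ℕ → ℝ)
    (hgm : Monotone g) :
    Ex unif (fun a => F a * ((nfull W a : ℝ) / (Fintype.card κ * Fintype.card J / 2 ^ w)) *
      g (nfull W a - 1)) ≤ Ex unif (fun a => g (nfull W a) * avg W F a) := by
  classical
  have h1 : (0 : ℝ) < Fintype.card κ := by exact_mod_cast hκ
  have h2 : (0 : ℝ) < Fintype.card J := by exact_mod_cast hJ
  have e1 : Ex unif (fun a => g (nfull W a) * avg W F a) =
      (Fintype.card κ * Fintype.card J : ℝ)⁻¹ *
        ∑ u : κ × J, Ex unif (fun a => g (nfull W a) * F (plant (W u.1 u.2) a)) := by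
    rw [← Ex_sum, ← Ex_smul]
    refine congrArg (Ex unif) (funext fun a => ?_)
    unfold avg
    rw [← Finset.mul_sum]
    ring
  have e2 : ∀ u : κ × J, 2 ^ w * Ex unif (fun a => if Full (W u.1 u.2) a then
      g (nfull W a - 1) * F a else 0) ≤
      Ex unif (fun a => g (nfull W a) * F (plant (W u.1 u.2) a)) := by
    intro u
    have h3 := ex_plant (W u.1 u.2) (fun a => g (nfull W a - 1) * F a)
    rw [hW] at h3
    rw [← h3]
    refine Ex_mono unif_nonneg' fun a => mul_le_mul_of_nonneg_right (hgm ?_) (hF _)
    have := nfull_plant W hd u a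
    omega
  have e3 : Ex unif (fun a => F a * ((nfull W a : ℝ) /
      (Fintype.card κ * Fintype.card J / 2 ^ w)) * g (nfull W a - 1)) =
      (Fintype.card κ * Fintype.card J : ℝ)⁻¹ *
        ∑ u : κ × J, 2 ^ w * Ex unif (fun a => if Full (W u.1 u.2) a then
      g (nfull W a - 1) * F a else 0) := by
    rw [← Finset.mul_sum, ← Ex_sum, ← Ex_smul, ← Ex_smul]
    refine congrArg (Ex unif) (funext fun a => ?_)
    rw [← Finset.sum_filter, Finset.sum_const, nsmul_eq_mul]
    show F a * ((nfull W a : ℝ) / _) * _ = _ * (_ * ((nfull W a : ℝ) * _))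
    field_simp
  rw [e3, e1]
  refine mul_le_mul_of_nonneg_left (Finset.sum_le_sum fun u _ => e2 u) (by positivity)

theorem many_steps {w : ℕ} (hκ : 0 < Fintype.card κ) (hJ : 0 < Fintype.card J)
    (W : κ → J → Finset I) (hW : ∀ k j, (W k j).card = w)
    (hd : ∀ k j k' j', (k, j) ≠ (k', j') → Disjoint (W k j) (W k' j'))
    (F : (I → Bool) → ℝ) (hF : ∀ a, 0 ≤ F a) (i : ℕ) (g : ℕ → ℝ) (hg : ∀ n, 0 ≤ g n)
    (hgm : Monotone g) :
    Ex unif (fun a => F a * (∏ r ∈ range i, (((nfull W a - r : ℕ) : ℝ) /
      (Fintype.card κ * Fintype.card J / 2 ^ w))) * g (nfull W a - i)) ≤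
      Ex unif (fun a => g (nfull W a) * (avg W)^[i] F a) := by
  induction i generalizing g with
  | zero =>
    apply le_of_eq
    refine congrArg (Ex unif) (funext fun a => ?_)
    simp [mul_comm]
  | succ i ih =>
    simp only [Function.iterate_succ_apply']
    refine le_trans ?_ (one_step hκ hJ W hW hd _ (iter_nonneg' W hF i) g hgm)
    set μ : ℝ := Fintype.card κ * Fintype.card J / 2 ^ w with hμ
    have hμ0 : 0 ≤ μ := by positivity
    have h3 := ih (fun n => (n : ℝ) / μ * g (n - 1)) (fun n => mul_nonneg (by positivity) (hg _))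
      (by
        intro m n hmn
        refine mul_le_mul (div_le_div_of_nonneg_right (by exact_mod_cast hmn) hμ0)
          (hgm (by omega)) (hg _) (by positivity))
    refine le_trans (le_of_eq ?_) (h3.trans (le_of_eq ?_))
    · refine congrArg (Ex unif) (funext fun a => ?_)
      rw [Finset.prod_range_succ, Nat.sub_sub]
      ring
    · refine congrArg (Ex unif) (funext fun a => ?_)
      ring

end

end N2

section

variable {I κ J : Type*} [Fintype I] [DecidableEq I] [Fintype κ] [Fintype J]

/-- comparison of the planted distribution with the uniform one -/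
theorem density {w : ℕ} (hκ : 0 < Fintype.card κ) (hJ : 0 < Fintype.card J)
    (W : κ → J → Finset I) (hW : ∀ k j, (W k j).card = w)
    (hd : ∀ k j k' j', (k, j) ≠ (k', j') → Disjoint (W k j) (W k' j'))
    (F : (I → Bool) → ℝ) (hF : ∀ a, 0 ≤ F a) (i : ℕ) :
    Ex unif (fun a => F a * ∏ r ∈ range i, (((nfull W a - r : ℕ) : ℝ) /
      (Fintype.card κ * Fintype.card J / 2 ^ w))) ≤ Ex unif (fun a => (avg W)^[i] F a) := by
  have h := N2.many_steps hκ hJ W hW hd F hF i (fun _ => 1) (fun _ => zero_le_one)
    monotone_const
  simpa using h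

end

end Pool.Agent.H752.GE
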