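import Pool.Agent.H752.GE.Base
import Pool.Agent.H620R2.Gauge2.V1

/-!
# The number of full sets: second moment
-/

namespace Pool.Agent.H752.GE

open Pool.Agent.NPC Finset H568R2 Pool.Agent.H676 Pool.Agent.H620R2.Gauge

set_option linter.unusedSectionVars false

section

variable {I κ J : Type*} [Fintype I] [DecidableEq I] [Fintype κ] [Fintype J]

open Classical in
/-- the probability that all bits of a set are true -/
theorem Ex_full (S : Finset I) :
    Ex unif (fun a : I → Bool => if Full S a then (1 : ℝ) else 0) = (1 / 2) ^ S.card := by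
  have h1 : ∀ a : I → Bool, (∏ i, unif (a i)) * (if Full S a then (1 : ℝ) else 0) =
      ∏ i, (if i ∈ S then (if a i = true then (1 / 2 : ℝ) else 0) else 1 / 2) := by
    intro a
    by_cases h : Full S a
    · rw [if_pos h, mul_one]
      refine Finset.prod_congr rfl fun i _ => ?_
      by_cases hi : i ∈ S
      · rw [if_pos hi, if_pos (h i hi)]; rfl
      · rw [if_neg hi]; rfl
    · rw [if_neg h, mul_zero]
      unfold Full at h
      push Not at h
      obtain ⟨i, hi, hi'⟩ := h
      refine (Finset.prod_eq_zero (Finset.mem_univ i) ?_).symm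
      rw [if_pos hi, if_neg hi']
  unfold Ex
  rw [Finset.sum_congr rfl fun a _ => h1 a]
  have h2 : ∏ i : I, ∑ b : Bool,
      (if i ∈ S then (if b = true then (1 / 2 : ℝ) else 0) else 1 / 2) =
      ∑ a : I → Bool, ∏ i, (if i ∈ S then (if a i = true then (1 / 2 : ℝ) else 0) else 1 / 2) := by
    rw [Finset.prod_univ_sum, Fintype.piFinset_univ]
  rw [← h2]
  have h3 : ∀ i : I, ∑ b : Bool,
      (if i ∈ S then (if b = true then (1 / 2 : ℝ) else 0) else 1 / 2) =
      if i ∈ S then (1 / 2 : ℝ) else 1 := by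
    intro i
    rw [Fintype.sum_bool]
    by_cases hi : i ∈ S
    · simp [hi]
    · simp [hi]; norm_num
  rw [Finset.prod_congr rfl fun i _ => h3 i, Finset.prod_ite, Finset.prod_const,
    Finset.prod_const_one, mul_one]
  congr 2
  ext i
  simp

open Classical in
theorem Ex_two (S S' : Finset I) (h : Disjoint S S') :
    Ex unif (fun a : I → Bool => (if Full S a then (1 : ℝ) else 0) *
      (if Full S' a then (1 : ℝ) else 0)) = (1 / 2) ^ (S.card + S'.card) := by
  rw [← Finset.card_union_of_disjoint h, ← Ex_full]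
  refine congrArg (Ex unif) (funext fun a => ?_)
  have h1 : Full (S ∪ S') a ↔ Full S a ∧ Full S' a := by
    constructor
    · intro h
      exact ⟨fun i hi => h i (Finset.mem_union_left _ hi),
        fun i hi => h i (Finset.mem_union_right _ hi)⟩
    · rintro ⟨h1, h2⟩ i hi
      rcases Finset.mem_union.1 hi with hi | hi
      · exact h1 i hi
      · exact h2 i hi
  by_cases ha : Full S a <;> by_cases hb : Full S' a <;> simp [h1, ha, hb]

open Classical in
theorem nfull_eq (W : κ → J → Finset I) (a : I → Bool) :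
    (nfull W a : ℝ) = ∑ u : κ × J, if Full (W u.1 u.2) a then (1 : ℝ) else 0 := by
  unfold nfull
  rw [Finset.card_filter]
  push_cast
  rfl

open Classical in
theorem few_full {w : ℕ} (W : κ → J → Finset I) (hW : ∀ k j, (W k j).card = w)
    (hd : ∀ k j k' j', (k, j) ≠ (k', j') → Disjoint (W k j) (W k' j')) (t : ℝ) (ht : 0 < t) :
    Ex unif (fun a => if (nfull W a : ℝ) < Fintype.card κ * Fintype.card J / 2 ^ w - t
      then (1 : ℝ) else 0) ≤ Fintype.card κ * Fintype.card J / 2 ^ w / t ^ 2 := by
  set mu : ℝ := Fintype.card κ * Fintype.card J / 2 ^ w with hmu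
  have hcard : (Fintype.card (κ × J) : ℝ) = Fintype.card κ * Fintype.card J := by
    rw [Fintype.card_prod]; push_cast; rfl
  -- first moment
  have e1 : Ex unif (fun a => (nfull W a : ℝ)) = mu := by
    rw [funext (nfull_eq W), Ex_sum]
    rw [Finset.sum_congr rfl fun u _ => Ex_full (W u.1 u.2)]
    rw [Finset.sum_congr rfl fun u _ => by rw [hW]]
    rw [Finset.sum_const, Finset.card_univ, nsmul_eq_mul, hcard, hmu, one_div, inv_pow]
    rfl
  -- second moment
  have e2 : Ex unif (fun a => (nfull W a : ℝ) * (nfull W a : ℝ)) ≤ mu + mu ^ 2 := by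
    have h1 : ∀ a, (nfull W a : ℝ) * (nfull W a : ℝ) = ∑ u : κ × J, ∑ u' : κ × J,
        (if Full (W u.1 u.2) a then (1 : ℝ) else 0) *
          (if Full (W u'.1 u'.2) a then (1 : ℝ) else 0) := by
      intro a
      rw [nfull_eq, Finset.sum_mul_sum]
    rw [funext h1, Ex_sum]
    have h2 : ∀ u : κ × J, Ex unif (fun a => ∑ u' : κ × J,
        (if Full (W u.1 u.2) a then (1 : ℝ) else 0) *
          (if Full (W u'.1 u'.2) a then (1 : ℝ) else 0)) ≤
        (1 / 2) ^ w + Fintype.card (κ × J) * (1 / 2) ^ (w + w) := by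
      intro u
      rw [Ex_sum, ← Finset.add_sum_erase _ _ (Finset.mem_univ u)]
      refine add_le_add ?_ ?_
      · have h3 : ∀ a : I → Bool, (if Full (W u.1 u.2) a then (1 : ℝ) else 0) *
          (if Full (W u.1 u.2) a then (1 : ℝ) else 0) =
            if Full (W u.1 u.2) a then (1 : ℝ) else 0 := by
          intro a
          split_ifs <;> simp
        rw [funext h3, Ex_full, hW]
      · rw [Finset.sum_congr rfl (g := fun _ => ((1 / 2 : ℝ)) ^ (w + w))]
        · rw [Finset.sum_const, nsmul_eq_mul]
          refine mul_le_mul_of_nonneg_right ?_ (by positivity)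
          exact_mod_cast (Finset.card_erase_le).trans Finset.card_univ.le
        · intro u' hu'
          have hne : u ≠ u' := fun h => (Finset.mem_erase.1 hu').1 h.symm
          rw [Ex_two _ _ (hd u.1 u.2 u'.1 u'.2 (by simpa using hne)), hW, hW]
    refine (Finset.sum_le_sum fun u _ => h2 u).trans (le_of_eq ?_)
    rw [Finset.sum_const, Finset.card_univ, nsmul_eq_mul, hcard, hmu, pow_add, one_div, inv_pow]
    field_simp
    try ring
  have e3 : Ex unif (fun a => ((nfull W a : ℝ) - mu) ^ 2) ≤ mu := by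
    have h1 : ∀ a, ((nfull W a : ℝ) - mu) ^ 2 =
        ((nfull W a : ℝ) * (nfull W a : ℝ) + (-2 * mu) * (nfull W a : ℝ)) + mu ^ 2 := by
      intro a; ring
    rw [funext h1, Ex_add, Ex_add, Ex_smul, e1, Ex_const unif_sum]
    nlinarith
  have e4 : Ex unif (fun a => if (nfull W a : ℝ) < mu - t then (1 : ℝ) else 0) ≤
      Ex unif (fun a => (1 / t ^ 2) * ((nfull W a : ℝ) - mu) ^ 2) := by
    refine Ex_mono unif_nonneg fun a => ?_
    split_ifs with h
    · have h1 : t ^ 2 ≤ ((nfull W a : ℝ) - mu) ^ 2 := by nlinarith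
      rw [div_mul_eq_mul_div, one_mul, le_div_iff₀ (by positivity)]
      linarith
    · positivity
  refine e4.trans ?_
  rw [Ex_smul, div_mul_eq_mul_div, one_mul]
  exact div_le_div_of_nonneg_right e3 (by positivity)

open Classical in
theorem two_full {w : ℕ} (W : κ → J → Finset I) (hW : ∀ k j, (W k j).card = w)
    (hd : ∀ k j k' j', (k, j) ≠ (k', j') → Disjoint (W k j) (W k' j')) :
    Ex unif (fun a => if ∃ k j j', j ≠ j' ∧ Full (W k j) a ∧ Full (W k j') a
      then (1 : ℝ) else 0) ≤ Fintype.card κ * (Fintype.card J : ℝ) ^ 2 / 2 ^ (2 * w) := by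
  have h1 : Ex unif (fun a => if ∃ k j j', j ≠ j' ∧ Full (W k j) a ∧ Full (W k j') a
      then (1 : ℝ) else 0) ≤ Ex unif (fun a => ∑ k : κ, ∑ j : J, ∑ j' : J,
        if j ≠ j' then (if Full (W k j) a then (1 : ℝ) else 0) *
          (if Full (W k j') a then (1 : ℝ) else 0) else 0) := by
    refine Ex_mono unif_nonneg fun a => ?_
    obtain ⟨T, hT⟩ : ∃ T : κ → J → J → ℝ, T = fun k j j' =>
        (if j ≠ j' then (if Full (W k j) a then (1 : ℝ) else 0) *
          (if Full (W k j') a then (1 : ℝ) else 0) else 0) := ⟨_, rfl⟩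
    have hnn : ∀ (k : κ) (j j' : J), 0 ≤ T k j j' := by
      intro k j j'
      rw [hT]
      dsimp only
      split_ifs <;> simp
    have hgoal : (if ∃ k j j', j ≠ j' ∧ Full (W k j) a ∧ Full (W k j') a then (1 : ℝ) else 0) ≤
        ∑ k : κ, ∑ j : J, ∑ j' : J, T k j j' := by
      split_ifs with h
      · obtain ⟨k, j, j', hne, h2, h3⟩ := h
        have h4 : T k j j' = 1 := by
          rw [hT]
          simp [hne, h2, h3]
        have h5 : T k j j' ≤ ∑ j' : J, T k j j' :=
          Finset.single_le_sum (f := fun j' => T k j j') (fun j' _ => hnn k j j')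
            (Finset.mem_univ j')
        have h6 : ∑ j' : J, T k j j' ≤ ∑ j : J, ∑ j' : J, T k j j' :=
          Finset.single_le_sum (f := fun j => ∑ j' : J, T k j j')
            (fun j _ => Finset.sum_nonneg fun j' _ => hnn k j j') (Finset.mem_univ j)
        have h7 : ∑ j : J, ∑ j' : J, T k j j' ≤ ∑ k : κ, ∑ j : J, ∑ j' : J, T k j j' :=
          Finset.single_le_sum (f := fun k => ∑ j : J, ∑ j' : J, T k j j')
            (fun k _ => Finset.sum_nonneg fun j _ => Finset.sum_nonneg fun j' _ => hnn k j j')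
            (Finset.mem_univ k)
        linarith
      · exact Finset.sum_nonneg fun k _ => Finset.sum_nonneg fun j _ =>
          Finset.sum_nonneg fun j' _ => hnn k j j'
    rw [hT] at hgoal
    exact hgoal
  refine h1.trans ?_
  rw [Ex_sum]
  have h2 : ∀ k : κ, Ex unif (fun a => ∑ j : J, ∑ j' : J,
        if j ≠ j' then (if Full (W k j) a then (1 : ℝ) else 0) *
          (if Full (W k j') a then (1 : ℝ) else 0) else 0) ≤
      ∑ j : J, ∑ j' : J, (1 / 2 : ℝ) ^ (2 * w) := by
    intro k
    rw [Ex_sum]
    refine Finset.sum_le_sum fun j _ => ?_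
    rw [Ex_sum]
    refine Finset.sum_le_sum fun j' _ => ?_
    by_cases hne : j = j'
    · simp only [hne, ne_eq, not_true_eq_false, if_false]
      rw [Ex_const unif_sum]
      positivity
    · simp only [ne_eq, hne, not_false_eq_true, if_true]
      rw [Ex_two _ _ (hd k j k j' (by simpa using hne)), hW, hW, two_mul]
  refine (Finset.sum_le_sum fun k _ => h2 k).trans (le_of_eq ?_)
  simp only [Finset.sum_const, Finset.card_univ, nsmul_eq_mul, one_div, inv_pow]
  rw [div_eq_mul_inv]
  ring

end

end Pool.Agent.H752.GE
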