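import Pool.Agent.H752.GE.N1
import Pool.Agent.H752.GE.N2
import Pool.Agent.H752.GE.N3

/-!
# Assembly of the combinatorial part (task N4, helper508)
-/

namespace Pool.Agent.H752.GE

open Pool.Agent.NPC Finset H568R2 Pool.Agent.H676 Pool.Agent.H620R2.Gauge

namespace N4

variable {I κ J : Type*} [Fintype I] [DecidableEq I] [Fintype κ] [Fintype J]

theorem usum : ∑ b : Bool, unif b = 1 := by
  unfold unif
  rw [Fintype.sum_bool]
  norm_num

theorem unn (b : Bool) : 0 ≤ unif b := by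
  unfold unif
  norm_num

theorem goodF_nn (W : κ → J → Finset I) (V : κ → (I → Bool) → Bool) (a : I → Bool) :
    0 ≤ goodF W V a := by
  unfold goodF
  split_ifs <;> norm_num

/-- the product of the factors is at least one half -/
theorem prod_ge {x s : ℝ} (hx : 2 ≤ x) (hs : 4 * x ^ 4 - x ^ 3 ≤ s) {S : ℕ} (hS : (S : ℝ) = s)
    {i : ℕ} (hi : (i : ℝ) ≤ x) :
    1 / 2 ≤ ∏ r ∈ range i, (((S - r : ℕ) : ℝ) / (4 * x ^ 4)) := by
  have hx0 : 0 < x := by linarith
  have hx4 : 0 < 4 * x ^ 4 := by positivity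
  have hβ : (x ^ 3 + x) / (4 * x ^ 4) ≤ 1 := by
    rw [div_le_one hx4]
    nlinarith [pow_pos hx0 3, pow_pos hx0 2, mul_le_mul_of_nonneg_right hx (pow_pos hx0 3).le,
      mul_le_mul_of_nonneg_right hx (pow_pos hx0 2).le, mul_le_mul_of_nonneg_right hx hx0.le]
  have h1 : ∀ r ∈ range i, 1 - (x ^ 3 + x) / (4 * x ^ 4) ≤ ((S - r : ℕ) : ℝ) / (4 * x ^ 4) := by
    intro r hr
    have hr' : (r : ℝ) ≤ x := by
      have : (r : ℝ) ≤ i := by exact_mod_cast (Finset.mem_range.1 hr).le
      linarith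
    have h2 : (S : ℝ) - r ≤ ((S - r : ℕ) : ℝ) := by
      rcases le_total r S with h | h
      · rw [Nat.cast_sub h]
      · rw [Nat.sub_eq_zero_of_le h]
        have : (S : ℝ) ≤ r := by exact_mod_cast h
        push_cast
        linarith
    rw [sub_le_iff_le_add, ← add_div, le_div_iff₀ hx4]
    linarith
  have h3 : (1 - (x ^ 3 + x) / (4 * x ^ 4)) ^ i ≤
      ∏ r ∈ range i, (((S - r : ℕ) : ℝ) / (4 * x ^ 4)) := by
    rw [← Finset.card_range i, ← Finset.prod_const, Finset.card_range]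
    apply Finset.prod_le_prod
    · intro r _
      linarith
    · exact h1
  refine le_trans ?_ h3
  have h4 := one_add_mul_le_pow (a := -((x ^ 3 + x) / (4 * x ^ 4))) (by linarith) i
  have h5 : (1 : ℝ) + -((x ^ 3 + x) / (4 * x ^ 4)) = 1 - (x ^ 3 + x) / (4 * x ^ 4) := by ring
  rw [h5] at h4
  refine le_trans ?_ h4
  have h6 : (i : ℝ) * ((x ^ 3 + x) / (4 * x ^ 4)) ≤ 1 / 2 := by
    calc (i : ℝ) * ((x ^ 3 + x) / (4 * x ^ 4)) ≤ x * ((x ^ 3 + x) / (4 * x ^ 4)) := by
          apply mul_le_mul_of_nonneg_right hi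
          positivity
      _ = (x ^ 4 + x ^ 2) / (4 * x ^ 4) := by ring
      _ ≤ 1 / 2 := by
          rw [div_le_div_iff₀ hx4 (by norm_num)]
          nlinarith [pow_pos hx0 2, mul_le_mul_of_nonneg_right
            (mul_le_mul hx hx (by norm_num) hx0.le) (pow_pos hx0 2).le]
  linarith

end N4

open N4

variable {I κ J : Type*} [Fintype I] [DecidableEq I] [Fintype κ] [Fintype J]

open Classical in
theorem ne_comb {a n p : ℕ} (ha : 1 ≤ a) (hκ : Fintype.card κ = 2 ^ (10 * a))
    (hJ : Fintype.card J = 2 ^ n) (hp : 2 ^ a * (1 + 2 * p) ≤ 2 ^ n) (W : κ → J → Finset I)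
    (hW : ∀ k j, (W k j).card = n + 6 * a - 2)
    (hd : ∀ k j k' j', (k, j) ≠ (k', j') → Disjoint (W k j) (W k' j'))
    (V : κ → (I → Bool) → Bool) (hV : ∀ k, Cert p true (V k)) :
    Ex unif (fun x => if ∀ k, (V k x = true ↔ ¬ HitF (W k) x) then (1 : ℝ) else 0) ≤
      16 * (1 / 2) ^ a := by
  have hκ0 : 0 < Fintype.card κ := by rw [hκ]; positivity
  have hJ0 : 0 < Fintype.card J := by rw [hJ]; positivity
  set x : ℝ := 2 ^ a with hx
  have hx2 : 2 ≤ x := by
    calc (2 : ℝ) = 2 ^ 1 := by norm_num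
      _ ≤ 2 ^ a := pow_le_pow_right₀ (by norm_num) ha
  have hx0 : 0 < x := by linarith
  set y : ℝ := 2 ^ n with hy
  have hy0 : 0 < y := by positivity
  have hw : (2 : ℝ) ^ (n + 6 * a - 2) = y * x ^ 6 / 4 := by
    have h1 : (2 : ℝ) ^ (n + 6 * a - 2) * 2 ^ 2 = 2 ^ n * (2 ^ a) ^ 6 := by
      rw [← pow_add, ← pow_mul, ← pow_add]
      congr 1
      omega
    rw [hx, hy, ← h1]
    norm_num
  have hK : (Fintype.card κ : ℝ) = x ^ 10 := by
    rw [hκ, hx]
    push_cast
    rw [← pow_mul, mul_comm]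
  have hJr : (Fintype.card J : ℝ) = y := by
    rw [hJ, hy]
    push_cast
    rfl
  have hmu : (Fintype.card κ : ℝ) * Fintype.card J / 2 ^ (n + 6 * a - 2) = 4 * x ^ 4 := by
    rw [hK, hJr, hw]
    field_simp
  -- the two bad events
  have hfew := few_full W hW hd (x ^ 3) (by positivity)
  have htwo := two_full W hW hd
  rw [hmu] at hfew
  have htwo' : (Fintype.card κ : ℝ) * (Fintype.card J : ℝ) ^ 2 / 2 ^ (2 * (n + 6 * a - 2)) =
      16 / x ^ 2 := by
    rw [mul_comm 2, pow_mul, hK, hJr, hw]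
    field_simp
    norm_num
  rw [htwo'] at htwo
  have hfew' : 4 * x ^ 4 / (x ^ 3) ^ 2 = 4 / x ^ 2 := by
    field_simp
  rw [hfew'] at hfew
  -- the main part
  set G : (I → Bool) → ℝ := fun b => if Good W V b ∧ ¬ ((nfull W b : ℝ) < 4 * x ^ 4 - x ^ 3)
    then (1 : ℝ) else 0 with hG
  have hmain : ∀ i ∈ range (2 ^ a), 1 / 2 * Ex unif G ≤ Ex unif (fun b => (avg W)^[i] (goodF W V) b) := by
    intro i hi
    rw [Finset.mem_range] at hi
    have hi' : (i : ℝ) ≤ x := by
      rw [hx]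
      exact_mod_cast hi.le
    refine le_trans ?_ (density hκ0 hJ0 W hW hd (goodF W V) (goodF_nn W V) i)
    rw [← Ex_smul]
    apply Ex_mono unn
    intro b
    rw [hmu]
    simp only [hG]
    split_ifs with h
    · have h1 : goodF W V b = 1 := by
        unfold goodF
        rw [if_pos h.1]
      rw [h1, one_mul, mul_one]
      exact prod_ge hx2 (not_lt.1 h.2) rfl hi'
    · rw [mul_zero]
      apply mul_nonneg (goodF_nn W V b)
      exact Finset.prod_nonneg fun r _ => by positivity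
  have hsum : ∑ i ∈ range (2 ^ a), Ex unif (fun b => (avg W)^[i] (goodF W V) b) ≤ 2 := by
    rw [← Ex_sum]
    calc Ex unif (fun b => ∑ i ∈ range (2 ^ a), (avg W)^[i] (goodF W V) b)
        ≤ Ex unif (fun _ : I → Bool => (2 : ℝ)) := by
          apply Ex_mono unn
          intro b
          exact visits hκ0 (by
            rw [hκ]
            exact Nat.pow_le_pow_right (by norm_num) (by omega)) hJ hp W hd V hV b
      _ = 2 := Ex_const usum 2
  have hGx : Ex unif G ≤ 4 / x := by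
    have h1 := Finset.sum_le_sum hmain
    rw [Finset.sum_const, Finset.card_range, nsmul_eq_mul] at h1
    have h2 : ((2 ^ a : ℕ) : ℝ) = x := by
      rw [hx]
      push_cast
      rfl
    rw [h2] at h1
    rw [le_div_iff₀ hx0]
    nlinarith
  -- the union
  have hU : Ex unif (fun b => if ∀ k, (V k b = true ↔ ¬ HitF (W k) b) then (1 : ℝ) else 0) ≤
      Ex unif (fun b => G b + ((if (nfull W b : ℝ) < 4 * x ^ 4 - x ^ 3 then (1 : ℝ) else 0) +
        (if ∃ k j j', j ≠ j' ∧ Full (W k j) b ∧ Full (W k j') b then (1 : ℝ) else 0))) := by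
    apply Ex_mono unn
    intro b
    have n1 : (0 : ℝ) ≤ if (nfull W b : ℝ) < 4 * x ^ 4 - x ^ 3 then (1 : ℝ) else 0 := by
      split_ifs <;> norm_num
    have n2 : (0 : ℝ) ≤ if ∃ k j j', j ≠ j' ∧ Full (W k j) b ∧ Full (W k j') b
        then (1 : ℝ) else 0 := by
      split_ifs <;> norm_num
    have n3 : 0 ≤ G b := by
      simp only [hG]
      split_ifs <;> norm_num
    by_cases hE : ∀ k, (V k b = true ↔ ¬ HitF (W k) b)
    · rw [if_pos hE]
      by_cases h1 : (nfull W b : ℝ) < 4 * x ^ 4 - x ^ 3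
      · rw [if_pos h1]
        linarith
      · by_cases h2 : ∃ k j j', j ≠ j' ∧ Full (W k j) b ∧ Full (W k j') b
        · rw [if_pos h2]
          linarith
        · have h3 : G b = 1 := by
            simp only [hG]
            rw [if_pos]
            refine ⟨⟨hE, ?_⟩, h1⟩
            intro k j j' hj hj'
            by_contra hne
            exact h2 ⟨k, j, j', hne, hj, hj'⟩
          linarith
    · rw [if_neg hE]
      linarith
  refine hU.trans ?_
  rw [Ex_add, Ex_add]
  have h4 : (1 / 2 : ℝ) ^ a = 1 / x := by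
    rw [hx, one_div, inv_pow, one_div]
  rw [h4]
  have h5 : 1 / x ^ 2 ≤ 1 / (2 * x) := by
    apply one_div_le_one_div_of_le (by positivity)
    nlinarith
  have h6 : 1 / (2 * x) = 1 / 2 * (1 / x) := by
    field_simp
  have h7 : 0 < 1 / x := by positivity
  have e1 : 4 / x = 4 * (1 / x) := by ring
  have e2 : 4 / x ^ 2 = 4 * (1 / x ^ 2) := by ring
  have e3 : 16 / x ^ 2 = 16 * (1 / x ^ 2) := by ring
  rw [e1] at hGx
  rw [e2] at hfew
  rw [e3] at htwo
  rw [h6] at h5
  linarith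

end Pool.Agent.H752.GE
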