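import Pool.Agent.H752.GE.FinalN
import Pool.Agent.H622R2.Exp.FinalE
import Pool.Agent.H622R2.Exp.FinalP
import Pool.Agent.H622R2.Exp.FinalNEXP

/-! Thresholds for `NE = coNE` and `NEXP = coNEXP` when the other classes are different. -/

namespace Pool.Agent.H752.GE

open Pool.Agent.NPC Pool.Agent.H620R2.Gauge Pool.Agent.H622R2.Exp Filter

theorem isNE_iff (A : Oracle) (L : Set (List Bool)) : IsNE A L ↔ InNTime Lin A L := by
  constructor
  · rintro ⟨V, c, hV, hL⟩
    exact ⟨V, hV, Polynomial.C c * (Polynomial.X + 1), ⟨c, rfl⟩, fun x => by simpa using hL x⟩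
  · rintro ⟨V, hV, q, ⟨c, rfl⟩, hL⟩
    exact ⟨V, c, hV, fun x => by simpa using hL x⟩

theorem isNEXP_iff (A : Oracle) (L : Set (List Bool)) : IsNEXP A L ↔ InNTime Pol A L := by
  constructor
  · rintro ⟨V, p, hV, hL⟩
    exact ⟨V, hV, p, Set.mem_univ _, hL⟩
  · rintro ⟨V, hV, p, -, hL⟩
    exact ⟨V, p, hV, hL⟩

theorem null_ne_iff' (f : ℕ → ℝ) :
    Null f {A | ∀ L, InNTime Lin A L ↔ InNTime Lin A Lᶜ} ↔
      ∀ ε : ℝ, 0 < ε → ∃ᶠ N : ℕ in atTop, f N ≤ ε * Real.logb 2 (Real.logb 2 N) := by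
  have h := null_ne_iff f
  simp only [isNE_iff] at h
  exact h

theorem null_nexp_iff' (f : ℕ → ℝ) :
    Null f {A | ∀ L, InNTime Pol A L ↔ InNTime Pol A Lᶜ} ↔
      ∀ ε : ℝ, 0 < ε → ∃ᶠ N : ℕ in atTop, f N ≤ (Real.logb 2 (Real.logb 2 N)) ^ ε := by
  have h := null_nexp_iff f
  simp only [isNEXP_iff] at h
  exact h

theorem strong_ne (f : ℕ → ℝ) (O : Set Oracle)
    (h1 : ∀ A : Oracle, (∀ L, InNTime Lin A L ↔ InNTime Lin A Lᶜ) →
      (¬ ∀ L, InTime Lin A L ↔ InNTime Lin A L) →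
      (¬ ∀ L, InNTime Lin A L ↔ InSpace Lin A L) → A ∈ O)
    (h2 : ∀ A ∈ O, ∀ L, InNTime Lin A L → InNTime Lin A Lᶜ) :
    Null f O ↔
      ∀ ε : ℝ, 0 < ε → ∃ᶠ N : ℕ in atTop, f N ≤ ε * Real.logb 2 (Real.logb 2 N) := by
  constructor
  · intro hn
    by_contra hcon
    push Not at hcon
    obtain ⟨ε, hε, hcon⟩ := hcon
    set g : ℕ → ℝ := fun N => min (f N) (Real.logb 2 (Real.logb 2 N)) with hg
    have hgE : Null g {A : Oracle | ∀ L, InTime Lin A L ↔ InNTime Lin A L} := by
      refine (resE g).2.1.2 fun ε' hε' => ?_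
      exact ((loglog_le hε').mono fun N h => (min_le_right _ _).trans h).frequently
    have hgP : Null g {A : Oracle | ∀ L, InNTime Lin A L ↔ InSpace Lin A L} := by
      refine (resNES g).2.1.2 fun ε' hε' => ?_
      exact ((loglog_le hε').mono fun N h => (min_le_right _ _).trans h).frequently
    have hgN : Null g O := hn.anti fun N => min_le_left _ _
    have h3 : Null g {A : Oracle | ∀ L, InNTime Lin A L ↔ InNTime Lin A Lᶜ} := by
      refine (null_union (null_union hgE hgP) hgN).mono fun A hA => ?_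
      by_cases h : ∀ L, InTime Lin A L ↔ InNTime Lin A L
      · exact Or.inl (Or.inl h)
      · by_cases h' : ∀ L, InNTime Lin A L ↔ InSpace Lin A L
        · exact Or.inl (Or.inr h')
        · exact Or.inr (h1 A hA h h')
    have h4 := (null_ne_iff' g).1 h3 (min ε (1 / 2)) (by positivity)
    apply h4
    have h5 : ∀ᶠ N : ℕ in atTop, ε * Real.logb 2 (Real.logb 2 N) < f N := hcon
    filter_upwards [h5, loglog_tendsto.eventually_gt_atTop 0] with N h6 h7
    rw [not_le, hg]
    apply lt_min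
    · exact lt_of_le_of_lt (mul_le_mul_of_nonneg_right (min_le_left _ _) h7.le) h6
    · have : min ε (1 / 2) * Real.logb 2 (Real.logb 2 N) ≤ 1 / 2 * Real.logb 2 (Real.logb 2 N) :=
        mul_le_mul_of_nonneg_right (min_le_right _ _) h7.le
      linarith
  · intro hf
    refine ((null_ne_iff' f).2 hf).mono fun A hA L => ⟨h2 A hA L, fun h => ?_⟩
    have := h2 A hA _ h
    rwa [compl_compl] at this

theorem strong_nexp (f : ℕ → ℝ) (O : Set Oracle)
    (h1 : ∀ A : Oracle, (∀ L, InNTime Pol A L ↔ InNTime Pol A Lᶜ) →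
      (¬ ∀ L, InTime Pol A L ↔ InNTime Pol A L) →
      (¬ ∀ L, InNTime Pol A L ↔ InSpace Pol A L) → A ∈ O)
    (h2 : ∀ A ∈ O, ∀ L, InNTime Pol A L → InNTime Pol A Lᶜ) :
    Null f O ↔
      ∀ ε : ℝ, 0 < ε → ∃ᶠ N : ℕ in atTop, f N ≤ (Real.logb 2 (Real.logb 2 N)) ^ ε := by
  constructor
  · intro hn
    by_contra hcon
    push Not at hcon
    obtain ⟨ε, hε, hcon⟩ := hcon
    set g : ℕ → ℝ := fun N => min (f N) (Real.logb 2 (Real.logb 2 N)) with hg
    have hgE : Null g {A : Oracle | ∀ L, InTime Pol A L ↔ InNTime Pol A L} := by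
      refine (resE g).2.2.2 fun ε' hε' => ?_
      exact ((loglog_le_pow hε').mono fun N h => (min_le_right _ _).trans h).frequently
    have hgP : Null g {A : Oracle | ∀ L, InNTime Pol A L ↔ InSpace Pol A L} := by
      refine (resNES g).2.2.2 fun ε' hε' => ?_
      exact ((loglog_le_pow hε').mono fun N h => (min_le_right _ _).trans h).frequently
    have hgN : Null g O := hn.anti fun N => min_le_left _ _
    have h3 : Null g {A : Oracle | ∀ L, InNTime Pol A L ↔ InNTime Pol A Lᶜ} := by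
      refine (null_union (null_union hgE hgP) hgN).mono fun A hA => ?_
      by_cases h : ∀ L, InTime Pol A L ↔ InNTime Pol A L
      · exact Or.inl (Or.inl h)
      · by_cases h' : ∀ L, InNTime Pol A L ↔ InSpace Pol A L
        · exact Or.inl (Or.inr h')
        · exact Or.inr (h1 A hA h h')
    have h4 := (null_nexp_iff' g).1 h3 (min ε (1 / 2)) (by positivity)
    apply h4
    have h5 : ∀ᶠ N : ℕ in atTop, (Real.logb 2 (Real.logb 2 N)) ^ ε < f N := hcon
    filter_upwards [h5, loglog_tendsto.eventually_gt_atTop 1] with N h6 h7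
    rw [not_le, hg]
    apply lt_min
    · exact lt_of_le_of_lt (Real.rpow_le_rpow_of_exponent_le h7.le (min_le_left _ _)) h6
    · have h8 := Real.rpow_lt_rpow_of_exponent_lt h7 (show min ε (1 / 2) < 1 from
        lt_of_le_of_lt (min_le_right _ _) (by norm_num))
      rwa [Real.rpow_one] at h8
  · intro hf
    refine ((null_nexp_iff' f).2 hf).mono fun A hA L => ⟨h2 A hA L, fun h => ?_⟩
    have := h2 A hA _ h
    rwa [compl_compl] at this

end Pool.Agent.H752.GE
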