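import Pool.Agent.H752.GE.Base
import Pool.Agent.H676.DT
import Pool.Agent.H620R2.GaugeR.Base
import Pool.Agent.H620R2.Gauge.A1

/-! Stubs. Never import this file in a finished file. -/

namespace Pool.Agent.H752.GE

open Pool.Agent.NPC Finset H568R2 Pool.Agent.H676 Pool.Agent.H620R2.Gauge

section

variable {I κ J : Type*} [Fintype I] [DecidableEq I] [Fintype κ] [Fintype J]

/-! ### Task N1: file `GE/N1.lean` -/

/-- the expected number of visits of the set of good points -/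
theorem visits {p T n : ℕ} (hκ : 0 < Fintype.card κ) (hT : T ≤ Fintype.card κ)
    (hJ : Fintype.card J = 2 ^ n) (hp : T * (1 + 2 * p) ≤ 2 ^ n) (W : κ → J → Finset I)
    (hd : ∀ k j k' j', (k, j) ≠ (k', j') → Disjoint (W k j) (W k' j'))
    (V : κ → (I → Bool) → Bool) (hV : ∀ k, Cert p true (V k)) (a : I → Bool) :
    ∑ i ∈ range T, (avg W)^[i] (goodF W V) a ≤ 2 := by sorry

/-! ### Task N2: file `GE/N2.lean` -/

/-- comparison of the planted distribution with the uniform one -/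
theorem density {w : ℕ} (hκ : 0 < Fintype.card κ) (hJ : 0 < Fintype.card J)
    (W : κ → J → Finset I) (hW : ∀ k j, (W k j).card = w)
    (hd : ∀ k j k' j', (k, j) ≠ (k', j') → Disjoint (W k j) (W k' j'))
    (F : (I → Bool) → ℝ) (hF : ∀ a, 0 ≤ F a) (i : ℕ) :
    Ex unif (fun a => F a * ∏ r ∈ range i, (((nfull W a - r : ℕ) : ℝ) /
      (Fintype.card κ * Fintype.card J / 2 ^ w))) ≤ Ex unif (fun a => (avg W)^[i] F a) := by sorry

/-! ### Task N3: file `GE/N3.lean` -/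

open Classical in
theorem few_full {w : ℕ} (W : κ → J → Finset I) (hW : ∀ k j, (W k j).card = w)
    (hd : ∀ k j k' j', (k, j) ≠ (k', j') → Disjoint (W k j) (W k' j')) (t : ℝ) (ht : 0 < t) :
    Ex unif (fun a => if (nfull W a : ℝ) < Fintype.card κ * Fintype.card J / 2 ^ w - t
      then (1 : ℝ) else 0) ≤ Fintype.card κ * Fintype.card J / 2 ^ w / t ^ 2 := by sorry

open Classical in
theorem two_full {w : ℕ} (W : κ → J → Finset I) (hW : ∀ k j, (W k j).card = w)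
    (hd : ∀ k j k' j', (k, j) ≠ (k', j') → Disjoint (W k j) (W k' j')) :
    Ex unif (fun a => if ∃ k j j', j ≠ j' ∧ Full (W k j) a ∧ Full (W k j') a
      then (1 : ℝ) else 0) ≤ Fintype.card κ * (Fintype.card J : ℝ) ^ 2 / 2 ^ (2 * w) := by sorry

/-! ### Task N4: file `GE/N4.lean` (uses N1, N2, N3) -/

open Classical in
theorem ne_comb {a n p : ℕ} (ha : 1 ≤ a) (hκ : Fintype.card κ = 2 ^ (10 * a))
    (hJ : Fintype.card J = 2 ^ n) (hp : 2 ^ a * (1 + 2 * p) ≤ 2 ^ n) (W : κ → J → Finset I)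
    (hW : ∀ k j, (W k j).card = n + 6 * a - 2)
    (hd : ∀ k j k' j', (k, j) ≠ (k', j') → Disjoint (W k j) (W k' j'))
    (V : κ → (I → Bool) → Bool) (hV : ∀ k, Cert p true (V k)) :
    Ex unif (fun x => if ∀ k, (V k x = true ↔ ¬ HitF (W k) x) then (1 : ℝ) else 0) ≤
      16 * (1 / 2) ^ a := by sorry

end

/-! ### Task N5: file `GE/N5.lean` -/

theorem hitE_ne (A : Oracle) : IsNE A (hitE A) := by sorry

/-! ### Task N6: file `GE/N6.lean` (uses N4) -/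

/-- the condition on the gauge needed for the proof of nullity -/
def AsymU {Θ : Type} (bd : Θ → ℕ → ℕ) (f : ℕ → ℝ) : Prop :=
  ∀ (θ : Θ) (P Q : Polynomial ℕ) (δ : ℝ), 0 < δ → ∃ a N : ℕ, 1 ≤ a ∧
    2 ^ a * (1 + 2 * P.eval (10 * a + (2 * 2 ^ bd θ (10 * a) + 1))) ≤ 2 ^ 2 ^ (10 * a) ∧
    2 ^ (Q.eval (10 * a + (2 * 2 ^ bd θ (10 * a) + 1)) + 4 * 2 ^ (10 * a) + 1) ≤ N ∧
    16 * (1 / 2 : ℝ) ^ a * 2 ^ f N ≤ δ

theorem nullU {Θ : Type} [Countable Θ] (bd : Θ → ℕ → ℕ) (f : ℕ → ℝ) (hf : AsymU bd f)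
    (O : Set Oracle) (hO : ∀ A ∈ O, IsNT bd A (hitE A)ᶜ) : Null f O := by sorry

/-! ### Task N7: file `GE/N7.lean` -/

theorem asymE {f : ℕ → ℝ} (hf : ∀ ε : ℝ, 0 < ε → ∃ᶠ N : ℕ in Filter.atTop,
    f N ≤ ε * Real.logb 2 (Real.logb 2 N)) : AsymU bdE f := by sorry

/-! ### Task N8: file `GE/N8.lean` -/

theorem asymX {f : ℕ → ℝ} (hf : ∀ ε : ℝ, 0 < ε → ∃ᶠ N : ℕ in Filter.atTop,
    f N ≤ (Real.logb 2 (Real.logb 2 N)) ^ ε) : AsymU bdX f := by sorry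

/-! ### Task N9: file `GE/N9.lean` (see `Gauge/C.lean`) -/

theorem exists_census {Θ : Type} [Countable Θ] [Nonempty Θ] (bd : Θ → ℕ → ℕ)
    (hbd : ∀ θ, Monotone (bd θ)) :
    ∃ (g : ℕ → Alg × Θ) (q : ℕ → Polynomial ℕ), Function.Surjective g ∧
      ∀ t : ℕ → ℕ → ℕ,
        (∀ e k, (q e).eval (2 * 2 ^ bd (g e).2 (2 ^ k) + 1 + 2 ^ k) ≤ t e k) →
        ∃ Φ : Oracle → Oracle,
          (∀ B y, (∀ e k r, r < 2 ^ k → y ≠ codeC t e k r) → Φ B y = B y) ∧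
          ∀ B e k r, r < 2 ^ k → (Φ B (codeC t e k r) = true ↔
            (cen (LV (g e).1 (bd (g e).2) (Φ B)) (2 ^ k)).testBit r = true) := by sorry

/-! ### Task N10: file `GE/N10.lean` -/

open Classical in
theorem sparseE (c : ℕ → ℕ) (q : ℕ → Polynomial ℕ) (ε : ℝ) (hε : 0 < ε) :
    ∃ ρ : ℕ → ℕ, (∀ e k, (q e).eval (2 * 2 ^ bdE (c e) (2 ^ k) + 1 + 2 ^ k) ≤
        2 ^ bdE (ρ e) (2 ^ k)) ∧
      ∀ᶠ N : ℕ in Filter.atTop, (((Finset.range N).filter (fun i => ∃ e k r, r < 2 ^ k ∧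
        str i = codeC (fun e k => 2 ^ bdE (ρ e) (2 ^ k)) e k r)).card : ℝ) ≤
        ε * Real.logb 2 (Real.logb 2 N) := by sorry

/-! ### Task N11: file `GE/N11.lean` -/

open Classical in
theorem sparseX (c : ℕ → Polynomial ℕ) (q : ℕ → Polynomial ℕ) (ε : ℝ) (hε : 0 < ε) :
    ∃ ρ : ℕ → Polynomial ℕ, (∀ e k, (q e).eval (2 * 2 ^ bdX (c e) (2 ^ k) + 1 + 2 ^ k) ≤
        2 ^ bdX (ρ e) (2 ^ k)) ∧
      ∀ᶠ N : ℕ in Filter.atTop, (((Finset.range N).filter (fun i => ∃ e k r, r < 2 ^ k ∧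
        str i = codeC (fun e k => 2 ^ bdX (ρ e) (2 ^ k)) e k r)).card : ℝ) ≤
        (Real.logb 2 (Real.logb 2 N)) ^ ε := by sorry

/-! ### Task N12: file `GE/N12.lean` -/

/-- what is needed of the bounds -/
structure Closed {Θ : Type} (bd : Θ → ℕ → ℕ) : Prop where
  mono : ∀ θ, Monotone (bd θ)
  upoly : ∀ θ, UPoly (fun x : List Bool => bd θ x.length)
  bound : ∀ θ ρ : Θ, ∃ θ' : Θ, ∀ m, bd θ (2 * m + 1) + bd ρ (2 * m + 1) + 4 * m + 30 ≤ bd θ' m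

theorem closedE : Closed bdE := by sorry

theorem closedX : Closed bdX := by sorry

/-! ### Task N13: file `GE/N13.lean` (the verifier for the complement) -/

theorem verifier {Θ : Type} (bd : Θ → ℕ → ℕ) (hbd : Closed bd) (A : Oracle) (M : Alg)
    (V : List Bool → List Bool) (hV : ∀ x, M.out A x = some (V x)) (θ ρ : Θ)
    (t : ℕ → ℕ → ℕ) (e : ℕ) (ht : ∀ k, t e k = 2 ^ bd ρ (2 ^ k))
    (hcode : ∀ k r, r < 2 ^ k → (A (codeC t e k r) = true ↔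
      (cen (LV M (bd θ) A) (2 ^ k)).testBit r = true)) :
    IsNT bd A (LV M (bd θ) A)ᶜ := by sorry

end Pool.Agent.H752.GE
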