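import Pool.Agent.H752.GE.Base2
import Pool.Agent.H676.DT
import Pool.Agent.H620R2.Gauge.A1

/-! Stubs (part 2). Never import this file in a finished file. -/

namespace Pool.Agent.H752.GE

open Pool.Agent.NPC Finset H568R2 Pool.Agent.H676 Pool.Agent.H620R2.Gauge

section

variable {I κ J : Type*} [Fintype I] [DecidableEq I] [Fintype κ] [Fintype J]

/-! ### Task G1: file `GE/G1.lean` -/

open Classical in
/-- deterministic tests with certificates that may touch all blocks -/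
theorem det_comb {n p s : ℕ} (hn : 1 ≤ n) (hκ : Fintype.card κ = 16 * s)
    (hJ : Fintype.card J = 2 ^ n) (hp : 2 * (Fintype.card κ * p) ≤ 2 ^ n) (W : κ → J → Finset I)
    (hW : ∀ k j, (W k j).card = n)
    (hd : ∀ k j k' j', (k, j) ≠ (k', j') → Disjoint (W k j) (W k' j'))
    (V : κ → (I → Bool) → Bool) (hV : ∀ k b, Cert p b (V k)) :
    Ex unif (fun a => if ∀ k, (V k a = true ↔ HitF (W k) a) then (1 : ℝ) else 0) ≤
      2 * (1 / 2) ^ s := by sorry

/-! ### Task G2: file `GE/G2.lean` -/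

open Classical in
/-- nondeterministic tests for parities -/
theorem par_comb {p : ℕ} (B : κ → Finset I) (hB0 : ∀ k, (B k).Nonempty)
    (hB : ∀ k, 2 * (Fintype.card κ * p) ≤ (B k).card)
    (hd : ∀ k k', k ≠ k' → Disjoint (B k) (B k'))
    (V : κ → (I → Bool) → Bool) (hV : ∀ k, Cert p true (V k)) :
    Ex unif (fun a => if ∀ k, V k a = par (B k) a then (1 : ℝ) else 0) ≤
      2 * (1 / 2) ^ Fintype.card κ := by sorry

end

/-! ### Task G3: file `GE/G3.lean` -/

theorem run_local (M : Alg) : ∃ q : Polynomial ℕ, ∀ (R : ℕ) (A A' : Oracle) (x : List Bool),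
    (∀ y : List Bool, y.length ≤ q.eval (x.length + R) → A y = A' y) →
      M.run A x R [] = M.run A' x R [] := by sorry

/-! ### Task G4: file `GE/G4.lean` -/

theorem asymD (c : ℕ) (P Q R : Polynomial ℕ) (f : ℕ → ℝ) (hf : CondE f) (δ : ℝ) (hδ : 0 < δ) :
    ∃ n N s : ℕ, 1 ≤ n ∧ 2 ^ n = 16 * s ∧ 2 * (2 ^ n * P.eval (n + 2 ^ (c * (n + 1)))) ≤ 2 ^ 2 ^ n ∧
      2 ^ (Q.eval (n + 2 ^ (c * (n + 1))) + 4 * 2 ^ n + 1) ≤ N ∧
      2 ^ R.eval n * (2 * (1 / 2 : ℝ) ^ s) * 2 ^ f N ≤ δ := by sorry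

/-! ### Task G5: file `GE/G5.lean` -/

theorem hitD_ne (A : Oracle) : IsNE A (hitD A) := by sorry

/-! ### Task G6: file `GE/G6.lean` -/

theorem parE_espace (A : Oracle) : IsESPACE A (parE A) := by sorry

/-! ### Task G7: file `GE/G7.lean` (uses G1, G3, G4) -/

theorem nullD {f : ℕ → ℝ} (hf : CondE f) (O : Set Oracle)
    (hO : ∀ A ∈ O, IsEpoly A (hitD A)) : Null f O := by sorry

/-! ### Task G8: file `GE/G8.lean` (uses G2, G4) -/

theorem nullP {f : ℕ → ℝ} (hf : CondE f) (O : Set Oracle)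
    (hO : ∀ A ∈ O, IsNEpoly A (parE A)) : Null f O := by sorry

/-! ### Task G9: file `GE/G9.lean` -/

theorem exists_codingG (V : ℕ → Oracle → List Bool → Prop) (t : ℕ → ℕ → ℕ)
    (hV : ∀ e A A' x, (∀ z : List Bool, z.length ≤ t e x.length → A z = A' z) →
      (V e A x ↔ V e A' x)) :
    ∃ Φ : Oracle → Oracle, (∀ B y, (∀ e x, y ≠ codeS t e x) → Φ B y = B y) ∧
      ∀ B e x, (Φ B (codeS t e x) = true ↔ V e (Φ B) x) := by sorry

/-! ### Task G10: file `GE/G10.lean` -/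

theorem exists_espace : ∃ (V : ℕ → Oracle → List Bool → Prop) (c : ℕ → ℕ) (q : ℕ → Polynomial ℕ),
    (∀ e A A' x, (∀ z : List Bool, z.length ≤ (q e).eval (2 ^ (c e * (x.length + 1)) + x.length) →
      A z = A' z) → (V e A x ↔ V e A' x)) ∧
    ∀ A L, IsESPACE A L → ∃ e, ∀ x, x ∈ L ↔ V e A x := by sorry

/-! ### Task G11: file `GE/G11.lean` -/

open Classical in
theorem sparseS (c : ℕ → ℕ) (q : ℕ → Polynomial ℕ) (ε : ℝ) (hε : 0 < ε) :
    ∃ ρ : ℕ → ℕ, (∀ e m, (q e).eval (2 ^ (c e * (m + 1)) + m) ≤ 2 ^ (ρ e * (m + 1))) ∧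
      ∀ᶠ N : ℕ in Filter.atTop, (((Finset.range N).filter (fun i => ∃ e x,
        str i = codeS (fun e m => 2 ^ (ρ e * (m + 1))) e x)).card : ℝ) ≤
        (Real.logb 2 N) ^ ε := by sorry

/-! ### Task G12: file `GE/G12.lean` -/

theorem isE_of_code {A : Oracle} {L : Set (List Bool)} (ρ : ℕ → ℕ) (e : ℕ)
    (h : ∀ x, x ∈ L ↔ A (codeS (fun e m => 2 ^ (ρ e * (m + 1))) e x) = true) : IsE A L := by sorry

/-! ### Task G13: file `GE/G13.lean` -/

theorem IsE.isNE {A : Oracle} {L : Set (List Bool)} (h : IsE A L) : IsNE A L := by sorry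

/-! ### Task G14: file `GE/G14.lean` -/

theorem IsNE.isESPACE {A : Oracle} {L : Set (List Bool)} (h : IsNE A L) : IsESPACE A L := by sorry

/-! ### Task G15: file `GE/G15.lean` -/

theorem IsE.isEpoly {A : Oracle} {L : Set (List Bool)} (h : IsE A L) : IsEpoly A L := by sorry

theorem IsNE.isNEpoly {A : Oracle} {L : Set (List Bool)} (h : IsNE A L) : IsNEpoly A L := by sorry

end Pool.Agent.H752.GE
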